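import Pool.Agent.MSF.Targets

/-! A3: the first triangle of a minimal irreducible closed walk. -/

namespace Pool.Agent.MSF

open List

universe u

namespace A3

variable {V : Type u} {G : SimpleGraph V}

/-- The two shapes of a rooted null path. -/
theorem shape {m : ℕ} {P : List V} (h : NullR G m P) :
    (∃ x, P = [x]) ∨ ∃ x r, r ≠ [] ∧ P = x :: (r ++ [x]) ∧ Null G m (x :: r) := by
  rcases h with ⟨a, ha⟩ | ⟨a, l, hl, he, hN⟩
  · exact Or.inl ⟨a, ha⟩
  · exact Or.inr ⟨a, l, hl, he, hN⟩

end A3

theorem tA3 (hP : T_PEEL.{u}) : T_A3.{u} := by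
  intro V G A a b l hl hmin hirr
  have hcw := hmin.1.cw
  have hab : G.Adj a b := by
    simp only [CW, List.cons_append, List.isChain_cons_cons] at hcw
    exact hcw.1
  have hrot : (a :: b :: l) ~r (b :: (l ++ [a])) := by
    have := List.isRotated_append (l := [a]) (l' := b :: l)
    simpa using this
  rcases hP G A _ hmin.1 b a l hrot with
    ⟨z, m', hm', -, haz, hzb, hN⟩ | ⟨P, Q, m₁, m₂, hPQ, h1, h2, hmm⟩
  · have h3 : Null G m' (a :: z :: b :: l) := by
      have : Null G m' ((z :: b :: l) ++ [a]) := by simpa using hN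
      simpa using this.swap
    have h4 : A ≤ m' + 1 := hmin.2 _ (Null.tri hab haz hzb h3)
    refine ⟨z, m', by omega, hab, haz, hzb, h3, fun k hk => ?_⟩
    have h5 : A ≤ k + 1 := hmin.2 _ (Null.tri hab haz hzb hk)
    omega
  · exfalso
    rcases A3.shape h1 with ⟨x, rfl⟩ | ⟨x, r₁, hr₁, rfl, hN1⟩
    · simp only [List.cons_append, List.nil_append, List.cons.injEq] at hPQ
      obtain ⟨rfl, hPQ⟩ := hPQ
      rcases A3.shape h2 with ⟨y, rfl⟩ | ⟨y, r₂, hr₂, rfl, hN2⟩
      · have := congrArg List.length hPQ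
        simp at this
        exact hl this
      · have h3 : l ++ [a] = (y :: r₂) ++ [y] := by rw [hPQ]; simp
        have h4 := List.append_inj' h3 (by simp)
        obtain ⟨rfl, h5⟩ := h4
        simp only [List.cons.injEq, and_true] at h5
        subst h5
        have h6 := hirr a [b] r₂ 0 m₂ (List.IsRotated.refl _) (by simp) hr₂ (Null.dig hab) hN2
        omega
    · simp only [List.cons_append, List.cons.injEq] at hPQ
      obtain ⟨rfl, hPQ⟩ := hPQ
      rcases A3.shape h2 with ⟨y, rfl⟩ | ⟨y, r₂, hr₂, rfl, hN2⟩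
      · have h4 := List.append_inj' hPQ (by simp)
        obtain ⟨rfl, h5⟩ := h4
        simp only [List.cons.injEq, and_true] at h5
        subst h5
        have hr : (a :: b :: (r₁ ++ [b])) ~r (b :: (r₁ ++ b :: [a])) := by
          have := List.isRotated_append (l := [a]) (l' := b :: (r₁ ++ [b]))
          simpa using this
        have h6 := hirr b r₁ [a] m₁ 0 hr hr₁ (by simp) hN1 (Null.dig hab.symm)
        omega
      · have h3 : l ++ [a] = ((r₁ ++ [b]) ++ (y :: r₂)) ++ [y] := by rw [hPQ]; simp
        have h4 := List.append_inj' h3 (by simp)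
        obtain ⟨rfl, h5⟩ := h4
        simp only [List.cons.injEq, and_true] at h5
        subst h5
        have hr : (a :: b :: ((r₁ ++ [b]) ++ (a :: r₂))) ~r
            (b :: (r₁ ++ b :: (a :: (r₂ ++ [a])))) := by
          have := List.isRotated_append (l := [a]) (l' := b :: ((r₁ ++ [b]) ++ (a :: r₂)))
          simpa using this
        have h7 : Null G m₂ (b :: a :: (r₂ ++ [a])) := h2.attach hab.symm
        have h6 := hirr b r₁ (a :: (r₂ ++ [a])) m₁ m₂ hr hr₁ (by simp) hN1 h7
        omega

end Pool.Agent.MSF
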