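import Pool.Agent.MSF.Targets

/-! ANGZ: the new interior vertex has total angle at least `2π`. -/

namespace Pool.Agent.MSF

open List

universe u

namespace ANGZ

variable {V : Type*}

lemma plen_snoc (ang : V → V → V → ℝ) (v : V) : ∀ (X : List V) (b a : V),
    plen ang v (X ++ [b, a]) = plen ang v (X ++ [b]) + ang v b a := by
  intro X
  induction X with
  | nil => intro b a; simp [plen]
  | cons x X ih =>
    intro b a
    cases X with
    | nil => simp [plen]
    | cons y X =>
      have := ih b a
      simp only [List.cons_append] at this ⊢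
      rw [plen, plen, this]
      ring

lemma clen_eq (ang : V → V → V → ℝ) (v a b : V) (F : List V) :
    clen ang v (a :: (F ++ [b])) = plen ang v (a :: (F ++ [b])) + ang v b a := by
  have := plen_snoc ang v (a :: F) b a
  simp only [List.cons_append] at this
  simp only [clen, List.append_assoc, List.cons_append, List.nil_append]
  exact this

lemma expand_unmarked (D : List (Corner V)) :
    expand (D.map fun c => (c, false)) = D.map Corner.v := by
  induction D with
  | nil => rfl
  | cons c D ih => simp [expand, ih]

lemma cost_unmarked (D : List (Corner V)) : cost (D.map fun c => (c, false)) = 0 := by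
  induction D with
  | nil => rfl
  | cons c D ih => simp [cost, ih]

lemma fst_unmarked (D : List (Corner V)) : (D.map fun c => (c, false)).map Prod.fst = D := by
  induction D with
  | nil => rfl
  | cons c D ih => rw [List.map_cons, List.map_cons, ih]

end ANGZ

open ANGZ

theorem tANGZ (h1 : T_DISC1.{u}) (h3 : T_DISC3.{u}) (hF : T_FILL.{u}) (hG : T_GLUE.{u}) :
    T_ANGZ.{u} := by
  intro V G ang hA k a b z x y Fa Fz Fb ta tz tb D hab haz hzb hmin hD
  by_contra hlt
  push Not at hlt
  obtain ⟨-, -, hok⟩ := h1 G ang hA k _ hD
  have hc := hok ⟨a, z, b, Fz, tz⟩ (by simp)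
  have hchain : List.IsChain G.Adj (a :: (Fz ++ [b])) := hc.chain
  have hlink : ∀ x ∈ a :: (Fz ++ [b]), G.Adj z x := hc.link
  have hlen : tz = plen ang z (a :: (Fz ++ [b])) := hc.len
  -- the closed walk in the link of `z`
  have hcw : CW G (a :: (Fz ++ [b])) := by
    rw [CW_cons (by simp)]
    have : a :: ((Fz ++ [b]) ++ [a]) = (a :: (Fz ++ [b])) ++ [a] := by simp
    rw [this, List.isChain_append]
    refine ⟨hchain, by simp, ?_⟩
    intro u hu v hv
    have hu' : u = b := by
      rw [← List.cons_append, List.getLast?_append] at hu
      simp at hu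
      exact hu.symm
    have hv' : v = a := by simpa using hv.symm
    rw [hu', hv']
    exact hab.symm
  have hfill := hF G ang hA z (a :: (Fz ++ [b])) (by simp) hcw hlink (by
    rw [clen_eq, ← hlen]; exact hlt)
  have hl : (a :: (Fz ++ [b])).length - 2 = Fz.length := by simp
  rw [hl] at hfill
  -- the marked expansion
  obtain ⟨k', hk', hk'2⟩ := h3 G ang hA k _ hD
    (((⟨x, a, z, Fa, ta⟩ : Corner V), false) :: ((⟨a, z, b, Fz, tz⟩ : Corner V), true) ::
      ((⟨z, b, y, Fb, tb⟩ : Corner V), false) :: D.map fun c => (c, false))
    (by simp only [List.map_cons, fst_unmarked]) (by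
      unfold MarksOK
      have hD' : ∀ c ∈ D.map (fun c => (c, false)), c.2 = false := by
        intro c hc
        obtain ⟨c', -, rfl⟩ := List.mem_map.1 hc
        rfl
      refine List.Pairwise.cons (fun c _ h => by simp at h) ?_
      refine List.Pairwise.cons (fun c hc _ h => ?_) ?_
      · rcases List.mem_cons.1 hc with rfl | hc
        · simp at h
        · rw [hD' c hc] at h
          simp at h
      · refine List.Pairwise.cons (fun c _ h => by simp at h) ?_
        refine List.pairwise_iff_forall_sublist.2 ?_
        intro c c' hs h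
        have hc : c ∈ D.map fun c => (c, false) := hs.subset (by simp)
        rw [hD' c hc] at h
        simp at h)
  have he : expand (((⟨x, a, z, Fa, ta⟩ : Corner V), false) ::
      ((⟨a, z, b, Fz, tz⟩ : Corner V), true) ::
      ((⟨z, b, y, Fb, tb⟩ : Corner V), false) :: D.map fun c => (c, false)) =
      a :: (Fz ++ b :: D.map Corner.v) := by
    simp [expand, expand_unmarked]
  have hcost : cost (((⟨x, a, z, Fa, ta⟩ : Corner V), false) ::
      ((⟨a, z, b, Fz, tz⟩ : Corner V), true) ::
      ((⟨z, b, y, Fb, tb⟩ : Corner V), false) :: D.map fun c => (c, false)) = Fz.length + 1 := by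
    simp [cost, cost_unmarked]
  rw [he] at hk'
  rw [hcost] at hk'2
  have hrev : Null G Fz.length (a :: ([] ++ b :: Fz.reverse)) := by
    have h4 := hfill.reverse
    have h5 : Null G Fz.length ((b :: Fz.reverse) ++ [a]) := by simpa using h4
    simpa using h5.swap
  have hglue := hG G k' Fz.length a b [] Fz (D.map Corner.v) hk' hrev
  have := hmin.2 (k' + Fz.length) (by simpa using hglue)
  omega

end Pool.Agent.MSF
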