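import Pool.Agent.MSF.Defs

/-! Basic closure properties of null cyclic lists. -/

namespace Pool.Agent.MSF

open List

variable {V : Type*} {G : SimpleGraph V}

theorem Null.ne_nil {m : ℕ} {w : List V} (h : Null G m w) : w ≠ [] := by
  induction h with
  | pt => simp
  | dig => simp
  | rot => simp
  | tri => simp
  | split => simp
  | weak _ ih => exact ih

theorem Null.rotate {m : ℕ} {w : List V} (h : Null G m w) (n : ℕ) : Null G m (w.rotate n) := by
  induction n with
  | zero => simpa using h
  | succ n ih =>
    rw [← List.rotate_rotate]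
    cases hw : w.rotate n with
    | nil => exact absurd hw ih.ne_nil
    | cons a l =>
      rw [hw] at ih
      simpa [List.rotate_cons_succ] using ih.rot

theorem Null.rotated {m : ℕ} {w w' : List V} (h : Null G m w) (hr : w ~r w') : Null G m w' := by
  obtain ⟨n, rfl⟩ := hr
  exact h.rotate n

theorem isRotated_append_comm (X Y : List V) : (X ++ Y) ~r (Y ++ X) := List.isRotated_append

/-- Swap two blocks. -/
theorem Null.swap {m : ℕ} {X Y : List V} (h : Null G m (X ++ Y)) : Null G m (Y ++ X) :=
  h.rotated List.isRotated_append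

theorem Null.mono {m n : ℕ} {w : List V} (h : Null G m w) (hmn : m ≤ n) : Null G n w := by
  induction hmn with
  | refl => exact h
  | step _ ih => exact ih.weak

theorem CW_cons {a : V} {l : List V} (hl : l ≠ []) :
    CW G (a :: l) ↔ List.IsChain G.Adj (a :: (l ++ [a])) := by
  cases l with
  | nil => exact absurd rfl hl
  | cons b l => simp [CW]

theorem isChain_rot {a : V} {l : List V} (hl : l ≠ []) :
    List.IsChain G.Adj (a :: (l ++ [a])) → CW G (l ++ [a]) := by
  intro h
  cases l with
  | nil => exact absurd rfl hl
  | cons b l =>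
    rw [List.cons_append, CW_cons (by simp)]
    rw [List.cons_append, List.isChain_cons_cons] at h
    have h2 : List.IsChain G.Adj ((b :: (l ++ [a])) ++ [b]) := by
      rw [List.isChain_append]
      refine ⟨h.2, by simp, ?_⟩
      intro x hx y hy
      have hx' : x = a := by
        rw [← List.cons_append, List.getLast?_append] at hx
        simp at hx
        exact hx.symm
      have hy' : y = b := by simpa using hy.symm
      rw [hx', hy']
      exact h.1
    simpa using h2

theorem CW.rot {a : V} {l : List V} (h : CW G (a :: l)) : CW G (l ++ [a]) := by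
  by_cases hl : l = []
  · subst hl; simpa using h
  · exact isChain_rot hl ((CW_cons hl).1 h)

theorem CW.ne_nil {w : List V} (h : CW G w) : w ≠ [] := by
  rintro rfl; exact h

theorem CW.rotate {w : List V} (h : CW G w) (n : ℕ) : CW G (w.rotate n) := by
  induction n with
  | zero => simpa using h
  | succ n ih =>
    rw [← List.rotate_rotate]
    cases hw : w.rotate n with
    | nil => exact absurd hw ih.ne_nil
    | cons a l =>
      rw [hw] at ih
      simpa [List.rotate_cons_succ] using ih.rot

theorem CW.rotated {w w' : List V} (h : CW G w) (hr : w ~r w') : CW G w' := by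
  obtain ⟨n, rfl⟩ := hr
  exact h.rotate n

theorem CW_split {a : V} {l l' : List V} (hl : l ≠ []) (hl' : l' ≠ [])
    (h : CW G (a :: l)) (h' : CW G (a :: l')) : CW G (a :: (l ++ a :: l')) := by
  rw [CW_cons hl] at h
  rw [CW_cons hl'] at h'
  rw [CW_cons (by simp)]
  have e : a :: ((l ++ a :: l') ++ [a]) = (a :: l) ++ a :: (l' ++ [a]) := by simp
  rw [e, List.isChain_split]
  refine ⟨?_, h'⟩
  simpa using h

theorem CW_unsplit {a : V} {l l' : List V} (hl : l ≠ []) (hl' : l' ≠ [])
    (h : CW G (a :: (l ++ a :: l'))) : CW G (a :: l) ∧ CW G (a :: l') := by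
  rw [CW_cons (by simp)] at h
  have e : a :: ((l ++ a :: l') ++ [a]) = (a :: l) ++ a :: (l' ++ [a]) := by simp
  rw [e, List.isChain_split] at h
  rw [CW_cons hl, CW_cons hl']
  exact ⟨by simpa using h.1, h.2⟩

theorem Null.cw {m : ℕ} {w : List V} (h : Null G m w) : CW G w := by
  induction h with
  | pt => trivial
  | dig h => simp [CW, h, h.symm]
  | rot _ ih => exact ih.rot
  | tri hab _ _ _ ih =>
    simp only [CW, List.cons_append, List.isChain_cons_cons] at ih ⊢
    exact ⟨hab, ih.2.2⟩
  | split hl hl' _ _ ih ih' => exact CW_split hl hl' ih ih'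
  | weak _ ih => exact ih

/-- A closed walk is not of the form `a a ...`. -/
theorem CW.not_adj_self {X Y : List V} {a : V} (h : CW G (X ++ a :: a :: Y)) : False := by
  have h1 : CW G (a :: a :: (Y ++ X)) := h.rotated (by
    have := List.isRotated_append (l := X) (l' := a :: a :: Y)
    simpa using this)
  simp only [CW, List.isChain_cons_cons] at h1
  exact G.loopless.irrefl _ h1.1

theorem Null.loop {m n : ℕ} {a : V} {X Y L : List V} (h : Null G m (X ++ a :: Y))
    (h' : Null G n (a :: L)) (hXY : Y ++ X ≠ []) (hL : L ≠ []) :
    Null G (m + n) (X ++ a :: (L ++ a :: Y)) := by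
  have h1 : Null G m (a :: (Y ++ X)) := by simpa using h.swap
  have h2 : Null G (n + m) (a :: (L ++ a :: (Y ++ X))) := Null.split hL hXY h' h1
  rw [Nat.add_comm]
  have h3 : Null G (n + m) ((a :: (L ++ a :: Y)) ++ X) := by simpa using h2
  exact h3.swap

/-- Insert a spur `a b a` at `a`. -/
theorem Null.spur {m : ℕ} {a b : V} {X Y : List V} (h : Null G m (X ++ a :: Y))
    (hXY : Y ++ X ≠ []) (hab : G.Adj a b) : Null G m (X ++ a :: b :: a :: Y) := by
  have := Null.loop (L := [b]) h (Null.dig hab) hXY (by simp)
  simpa using this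

theorem Null.triAt {m : ℕ} {a b z : V} {X Y : List V} (h : Null G m (X ++ a :: z :: b :: Y))
    (hab : G.Adj a b) (haz : G.Adj a z) (hzb : G.Adj z b) :
    Null G (m + 1) (X ++ a :: b :: Y) := by
  have h1 : Null G m (a :: z :: b :: (Y ++ X)) := by simpa using h.swap
  have h2 : Null G (m + 1) ((a :: b :: Y) ++ X) := by simpa using Null.tri hab haz hzb h1
  exact h2.swap

/-- Push an edge `x z` across the triangle `x y z`. -/
theorem Null.push {m : ℕ} {x y z : V} {X Y : List V} (h : Null G m (X ++ x :: z :: Y))
    (hxy : G.Adj x y) (hyz : G.Adj y z) (hxz : G.Adj x z) :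
    Null G (m + 1) (X ++ x :: y :: z :: Y) := by
  have h1 : Null G m ((X ++ [x]) ++ z :: Y) := by simpa using h
  have h2 : Null G m ((X ++ [x]) ++ z :: y :: z :: Y) :=
    h1.spur (by simp) hyz.symm
  have h3 : Null G m (X ++ x :: z :: y :: z :: Y) := by simpa using h2
  exact h3.triAt hxy hxz hyz.symm

theorem Null.reverse {m : ℕ} {w : List V} (h : Null G m w) : Null G m w.reverse := by
  induction h with
  | pt a => simpa using Null.pt a
  | dig h => simpa using Null.dig h.symm
  | @rot m a l _ ih =>
    have : Null G m (l.reverse ++ [a]) := by simpa using ih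
    simpa using this.swap
  | @tri m a b z l hab haz hzb _ ih =>
    have : Null G m (l.reverse ++ b :: z :: a :: []) := by simpa using ih
    have := this.triAt hab.symm hzb.symm haz.symm
    simpa using this
  | @split m n a l l' hl hl' _ _ ih ih' =>
    have h1 : Null G m (a :: l.reverse) := by
      have : Null G m (l.reverse ++ [a]) := by simpa using ih
      simpa using this.swap
    have h2 : Null G n (l'.reverse ++ [a]) := by simpa using ih'
    have h3 : Null G (n + m) (l'.reverse ++ a :: (l.reverse ++ a :: [])) :=
      Null.loop h2 h1 (by simpa using hl') (by simpa using hl)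
    rw [Nat.add_comm]
    simpa using h3
  | weak _ ih => exact ih.weak

theorem Null.map {W : Type*} {G' : SimpleGraph W} (f : V → W)
    (hf : ∀ a b, G.Adj a b → G'.Adj (f a) (f b)) {m : ℕ} {w : List V} (h : Null G m w) :
    Null G' m (w.map f) := by
  induction h with
  | pt a => simpa using Null.pt (f a)
  | dig h => simpa using Null.dig (hf _ _ h)
  | rot _ ih => simpa using Null.rot (by simpa using ih)
  | tri hab haz hzb _ ih =>
    simpa using Null.tri (hf _ _ hab) (hf _ _ haz) (hf _ _ hzb) (by simpa using ih)
  | @split m n a l l' hl hl' _ _ ih ih' =>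
    have h1 : Null G' m (f a :: l.map f) := by simpa using ih
    have h2 : Null G' n (f a :: l'.map f) := by simpa using ih'
    have := Null.split (by simpa using hl) (by simpa using hl') h1 h2
    simpa using this
  | weak _ ih => exact ih.weak

/-- The triangle. -/
theorem Null.triangle {a b c : V} (hab : G.Adj a b) (hbc : G.Adj b c) (hac : G.Adj a c) :
    Null G 1 [a, b, c] := by
  have h : Null G 0 ([] ++ a :: c :: []) := Null.dig hac
  simpa using h.push hab hbc hac

theorem NullR.mono {m n : ℕ} {P : List V} (h : NullR G m P) (hmn : m ≤ n) : NullR G n P := by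
  rcases h with ⟨a, rfl⟩ | ⟨a, l, hl, rfl, h⟩
  · exact Or.inl ⟨a, rfl⟩
  · exact Or.inr ⟨a, l, hl, rfl, h.mono hmn⟩

/-- Attach an edge `x - p` to a rooted null path at `p`: `x :: P`, as a closed walk. -/
theorem NullR.attach {m : ℕ} {p x : V} {P : List V} (h : NullR G m (p :: P))
    (hx : G.Adj x p) : Null G m (x :: p :: P) := by
  rcases h with ⟨a, ha⟩ | ⟨a, l, hl, he, h⟩
  · obtain ⟨rfl, rfl⟩ := List.cons_eq_cons.1 ha
    exact (Null.dig hx).mono (Nat.zero_le _)
  · obtain ⟨rfl, rfl⟩ := List.cons_eq_cons.1 he
    have h1 : Null G m ([] ++ p :: l) := h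
    have h2 := h1.spur (by simpa using hl) hx.symm
    have h3 : Null G m ([p] ++ (x :: p :: l)) := by simpa using h2
    simpa using h3.swap

/-- Insert a null loop into a rooted null path. -/
theorem NullR.loop {m n : ℕ} {a : V} {X Y L : List V} (h : NullR G m (X ++ a :: Y))
    (h' : Null G n (a :: L)) (hL : L ≠ []) : NullR G (m + n) (X ++ a :: (L ++ a :: Y)) := by
  rcases h with ⟨c, hc⟩ | ⟨c, l, hl, he, h⟩
  · have hX : X = [] := by
      cases X with
      | nil => rfl
      | cons x X => simp at hc
    subst hX
    simp only [List.nil_append, List.cons.injEq] at hc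
    obtain ⟨rfl, rfl⟩ := hc
    refine Or.inr ⟨a, L, hL, by simp, h'.mono (Nat.le_add_left _ _)⟩
  · rcases List.eq_nil_or_concat Y with rfl | ⟨Y', c', rfl⟩
    · -- `a` is the last vertex
      cases X with
      | nil => simp at he
      | cons x X =>
        simp only [List.cons_append, List.cons.injEq] at he
        obtain ⟨rfl, he⟩ := he
        have he2 := List.append_inj' he (by simp)
        obtain ⟨rfl, he3⟩ := he2
        simp only [List.cons.injEq, and_true] at he3
        subst he3
        refine Or.inr ⟨a, X ++ a :: L, by simp, by simp, ?_⟩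
        exact Null.split hl hL h h'
    · have he' : X ++ a :: Y' = c :: l ∧ c' = c := by
        have : (X ++ a :: Y') ++ [c'] = (c :: l) ++ [c] := by simpa using he
        have := List.append_inj' this (by simp)
        exact ⟨this.1, by simpa using this.2⟩
      obtain ⟨he1, rfl⟩ := he'
      have h1 : Null G m (X ++ a :: Y') := by rw [he1]; exact h
      have hne : Y' ++ X ≠ [] := by
        rintro h0
        obtain ⟨rfl, rfl⟩ := List.append_eq_nil_iff.1 h0
        simp only [List.nil_append, List.cons.injEq] at he1
        exact hl he1.2.symm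
      have h2 := h1.loop h' hne hL
      refine Or.inr ?_
      cases X with
      | nil =>
        simp only [List.nil_append, List.cons.injEq] at he1
        obtain ⟨rfl, rfl⟩ := he1
        refine ⟨a, L ++ a :: Y', by simp, by simp, by simpa using h2⟩
      | cons x X =>
        simp only [List.cons_append, List.cons.injEq] at he1
        obtain ⟨rfl, rfl⟩ := he1
        refine ⟨x, X ++ a :: (L ++ a :: Y'), by simp, by simp, by simpa using h2⟩

end Pool.Agent.MSF
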