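import Pool.Agent.MSF.Targets

/-! Job MS-DEX: existence of disc diagrams. -/

namespace Pool.Agent.MSF

open List

universe u

namespace DEX

variable {V : Type u} {G : SimpleGraph V} {ang : V → V → V → ℝ}

theorem exists3 {k : ℕ} {a z b : V} {l : List V} {D' : List (Corner V)}
    (hc : CycC D') (hD : Disc G ang k D') (hv : D'.map Corner.v = a :: z :: b :: l) :
    ∃ (x y : V) (Fa Fz Fb : List V) (ta tz tb : ℝ) (D : List (Corner V)),
      Disc G ang k (⟨x, a, z, Fa, ta⟩ :: ⟨a, z, b, Fz, tz⟩ :: ⟨z, b, y, Fb, tb⟩ :: D) ∧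
      D.map Corner.v = l := by
  match D', hv with
  | ca :: cz :: cb :: D, hv =>
    simp only [List.map_cons, List.cons.injEq] at hv
    obtain ⟨h1, h2, h3, h4⟩ := hv
    obtain ⟨x, a', n1, Fa, ta⟩ := ca
    obtain ⟨p2, z', n2, Fz, tz⟩ := cz
    obtain ⟨p3, b', y, Fb, tb⟩ := cb
    simp only at h1 h2 h3
    subst h1 h2 h3
    simp only [CycC, List.cons_append, List.isChain_cons_cons, Corner.Next] at hc
    obtain ⟨⟨e1, e2⟩, ⟨e3, e4⟩, _⟩ := hc
    subst e1 e2 e3 e4
    exact ⟨x, y, Fa, Fz, Fb, ta, tz, tb, D, hD, h4⟩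

theorem exists2 {k : ℕ} {z b : V} {l : List V} {D' : List (Corner V)}
    (hc : CycC D') (hD : Disc G ang k D') (hv : D'.map Corner.v = z :: b :: l) :
    ∃ (x y : V) (Fz Fb : List V) (tz tb : ℝ) (D : List (Corner V)),
      Disc G ang k (⟨x, z, b, Fz, tz⟩ :: ⟨z, b, y, Fb, tb⟩ :: D) ∧
      D.map Corner.v = l := by
  match D', hv with
  | cz :: cb :: D, hv =>
    simp only [List.map_cons, List.cons.injEq] at hv
    obtain ⟨h2, h3, h4⟩ := hv
    obtain ⟨x, z', n2, Fz, tz⟩ := cz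
    obtain ⟨p3, b', y, Fb, tb⟩ := cb
    simp only at h2 h3
    subst h2 h3
    simp only [CycC, List.cons_append, List.isChain_cons_cons, Corner.Next] at hc
    obtain ⟨⟨e3, e4⟩, _⟩ := hc
    subst e3 e4
    exact ⟨x, y, Fz, Fb, tz, tb, D, hD, h4⟩

theorem existsL {k : ℕ} {z a : V} {l : List V} {D' : List (Corner V)}
    (hc : CycC D') (hD : Disc G ang k D') (hv : D'.map Corner.v = z :: (l ++ [a])) :
    ∃ (x y : V) (Fa Fz : List V) (ta tz : ℝ) (D : List (Corner V)),
      Disc G ang k (⟨a, z, y, Fz, tz⟩ :: (D ++ [⟨x, a, z, Fa, ta⟩])) ∧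
      D.map Corner.v = l := by
  match D', hv with
  | cz :: D2, hv =>
    simp only [List.map_cons, List.cons.injEq] at hv
    obtain ⟨h2, h3⟩ := hv
    obtain ⟨D, D3, rfl, h5, h6⟩ := List.map_eq_append_iff.1 h3
    match D3, h6 with
    | [ca], h6 =>
      obtain ⟨p2, z', y, Fz, tz⟩ := cz
      obtain ⟨x, a', n1, Fa, ta⟩ := ca
      simp only [List.map_cons, List.map_nil, List.cons.injEq, and_true] at h6 h2
      subst h2 h6
      simp only [CycC, List.append_assoc, List.cons_append, List.nil_append] at hc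
      rw [← List.cons_append, List.isChain_split] at hc
      have hc2 := hc.2
      simp only [List.isChain_cons_cons, Corner.Next] at hc2
      obtain ⟨⟨e3, e4⟩, _⟩ := hc2
      subst e3 e4
      exact ⟨x, y, Fa, Fz, ta, tz, D, hD, h5⟩

end DEX

/-- DEX. -/
theorem tDEX (hA : T_A3.{u}) (hR : T_RED.{u}) (hZ : T_ANGZ.{u}) (h1 : T_DISC1.{u}) :
    T_DEX.{u} := by
  intro V G ang hG A
  induction A using Nat.strong_induction_on with
  | _ A ih =>
    intro w hw hmin hirr
    match w, hw with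
    | a :: b :: c₀ :: l₀, _ =>
      generalize hl : c₀ :: l₀ = l at *
      have hlne : l ≠ [] := by rw [← hl]; simp
      obtain ⟨z, k, hk, hab, haz, hzb, hmin'⟩ := hA G A a b l hlne hmin hirr
      subst hk
      by_cases hi : Irr G k (a :: z :: b :: l)
      · obtain ⟨D', hD', hv⟩ := ih k (Nat.lt_succ_self k) (a :: z :: b :: l) (by simp) hmin' hi
        obtain ⟨_, hc, _⟩ := h1 G ang hG k D' hD'
        obtain ⟨x, y, Fa, Fz, Fb, ta, tz, tb, D, hD, hDl⟩ := DEX.exists3 hc hD' hv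
        have hz := hZ G ang hG k a b z x y Fa Fz Fb ta tz tb D hab haz hzb
          (by rw [hDl]; exact hmin) hD
        exact ⟨_, Disc.inner hab haz hzb hD hz, by simp [hDl]⟩
      · obtain ⟨l₁, l₂, m, n, rfl, hmn, hm1, hi1, hm2, hi2⟩ :=
          hR G k a b z l hlne hab haz hzb hmin hirr hmin' hi
        subst hmn
        rcases l₁ with _ | ⟨b₁, l₁⟩
        · have hm0 : m = 0 := Nat.le_zero.1 (hm1.2 0 (Null.dig hzb))
          subst hm0
          rcases l₂ with _ | ⟨b₂, l₂⟩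
          · have hn0 : n = 0 := Nat.le_zero.1 (hm2.2 0 (Null.dig haz.symm))
            subst hn0
            exact ⟨_, Disc.base hab haz hzb, rfl⟩
          · obtain ⟨D', hD', hv⟩ := ih n (by omega) (z :: ((b₂ :: l₂) ++ [a])) (by simp) hm2 hi2
            obtain ⟨_, hc, _⟩ := h1 G ang hG n D' hD'
            obtain ⟨x, y, Fa, Fz, ta, tz, D, hD, hDl⟩ := DEX.existsL hc hD' hv
            have h2 := Disc.left hab haz hzb hD
            have h3 : 0 + n + 1 = n + 1 := by omega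
            rw [h3]
            exact ⟨_, h2, by simp [hDl]⟩
        · obtain ⟨D', hD', hv⟩ := ih m (by omega) (z :: b :: b₁ :: l₁) (by simp) hm1 hi1
          obtain ⟨_, hc, _⟩ := h1 G ang hG m D' hD'
          obtain ⟨x, y, Fz, Fb, tz, tb, D, hD, hDl⟩ := DEX.exists2 hc hD' hv
          rcases l₂ with _ | ⟨b₂, l₂⟩
          · have hn0 : n = 0 := Nat.le_zero.1 (hm2.2 0 (Null.dig haz.symm))
            subst hn0
            exact ⟨_, Disc.right hab haz hzb hD, by simp [hDl]⟩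
          · obtain ⟨D2', hD2', hv2⟩ :=
              ih n (by omega) (z :: ((b₂ :: l₂) ++ [a])) (by simp) hm2 hi2
            obtain ⟨_, hc2, _⟩ := h1 G ang hG n D2' hD2'
            obtain ⟨x', y', Fa, Fz', ta, tz', D2, hD2, hDl2⟩ := DEX.existsL hc2 hD2' hv2
            exact ⟨_, Disc.both hab haz hzb hD hD2, by simp [hDl, hDl2]⟩

/-- DS. -/
theorem tDS (hD : T_DEX.{u}) (h1 : T_DISC1.{u}) (h2 : T_DISC2.{u}) (h3 : T_DISC3.{u}) :
    T_DS.{u} := by
  intro V G ang hG A w hw hmin hirr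
  obtain ⟨D, hDd, hv⟩ := hD G ang hG A w hw hmin hirr
  obtain ⟨_, hc, hok⟩ := h1 G ang hG A D hDd
  exact ⟨D, hv, hc, hok, h2 G ang hG A D hDd, h3 G ang hG A D hDd⟩

end Pool.Agent.MSF
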