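import Pool.Agent.MSF.Targets

/-! Job MS-DISC2: Gauss–Bonnet for disc diagrams. -/

namespace Pool.Agent.MSF

open List

universe u

namespace DISC2

variable {V : Type u} {G : SimpleGraph V} {ang : V → V → V → ℝ}

theorem sum_le (hA : Angled G ang) {a b z : V} (hab : G.Adj a b) (haz : G.Adj a z)
    (hzb : G.Adj z b) : ang a z b + ang b a z + ang z b a ≤ Real.pi := by
  have h := hA.sum_le a b z hab hzb.symm haz
  rw [hA.symm a z b, hA.symm z b a]
  exact h

end DISC2

/-- DISC2. -/
theorem tDISC2 : T_DISC2.{u} := by
  intro V G ang hA A D h
  induction h with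
  | base hab haz hzb =>
    have h1 := DISC2.sum_le hA hab haz hzb
    simp only [List.map_cons, List.map_nil, List.sum_cons, List.sum_nil]
    linarith
  | rot _ ih =>
    simp only [List.map_cons, List.map_append, List.map_nil, List.sum_cons, List.sum_append,
      List.sum_nil] at ih ⊢
    linarith
  | inner hab haz hzb _ hz ih =>
    have h1 := DISC2.sum_le hA hab haz hzb
    simp only [List.map_cons, List.sum_cons] at ih ⊢
    linarith
  | left hab haz hzb _ ih =>
    have h1 := DISC2.sum_le hA hab haz hzb
    simp only [List.map_cons, List.map_append, List.map_nil, List.sum_cons, List.sum_append,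
      List.sum_nil] at ih ⊢
    linarith
  | right hab haz hzb _ ih =>
    have h1 := DISC2.sum_le hA hab haz hzb
    simp only [List.map_cons, List.map_append, List.map_nil, List.sum_cons, List.sum_append,
      List.sum_nil] at ih ⊢
    linarith
  | both hab haz hzb _ _ ih ih' =>
    have h1 := DISC2.sum_le hA hab haz hzb
    simp only [List.map_cons, List.map_append, List.map_nil, List.sum_cons, List.sum_append,
      List.sum_nil] at ih ih' ⊢
    linarith

end Pool.Agent.MSF
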