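import Pool.Agent.MSF.Targets

/-!
# DISC3: expansion of marked corners
-/

set_option autoImplicit false

namespace Pool.Agent.MSF

open List

universe u

namespace DISC3

variable {V : Type u} {G : SimpleGraph V} {ang : V → V → V → ℝ}

theorem expand_append (M N : List (Corner V × Bool)) :
    expand (M ++ N) = expand M ++ expand N := by
  induction M with
  | nil => rfl
  | cons c M ih => simp [expand, ih]

theorem cost_append (M N : List (Corner V × Bool)) : cost (M ++ N) = cost M + cost N := by
  induction M with
  | nil => simp [cost]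
  | cons c M ih => simp [cost, ih, Nat.add_assoc]

theorem expand_ne {M : List (Corner V × Bool)} {m : Corner V × Bool} (hm : m ∈ M)
    (h : m.2 = false) : expand M ≠ [] := by
  induction M with
  | nil => simp at hm
  | cons c M ih =>
    rcases List.mem_cons.1 hm with rfl | hm
    · simp [expand, h]
    · have := ih hm
      simp [expand, this]

/-- the relation of being next to each other -/
def AdjC (G : SimpleGraph V) (c c' : Corner V) : Prop := G.Adj c.v c'.v

theorem chain_adj {D : List (Corner V)} (h : List.IsChain Corner.Next D)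
    (hc : ∀ c ∈ D, CornerOK G ang c) : List.IsChain (AdjC G) D := by
  induction D with
  | nil => simp
  | cons c D ih =>
    cases D with
    | nil => simp
    | cons c' D =>
      rw [List.isChain_cons_cons] at h ⊢
      refine ⟨?_, ih h.2 fun d hd => hc d (List.mem_cons_of_mem _ hd)⟩
      have h1 := (hc c List.mem_cons_self).link c.n (by simp)
      rw [h.1.1] at h1
      exact h1

theorem cyc_adj {c : Corner V} {D : List (Corner V)} (h : CycC (c :: D))
    (hc : ∀ d ∈ c :: D, CornerOK G ang d) : List.IsChain (AdjC G) (c :: (D ++ [c])) := by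
  apply chain_adj (ang := ang) h
  intro d hd
  apply hc
  simp only [List.mem_cons, List.mem_append, List.not_mem_nil, or_false] at hd ⊢
  tauto

/-- Marked corners are not adjacent. -/
def Rm (G : SimpleGraph V) (c c' : Corner V × Bool) : Prop :=
  c.2 = true → c'.2 = true → ¬ G.Adj c.1.v c'.1.v

theorem marksOK_iff {M : List (Corner V × Bool)} : MarksOK G M ↔ M.Pairwise (Rm G) := Iff.rfl

theorem ne_first {c d : Corner V} {D₀ E : List (Corner V)} {M : List (Corner V × Bool)}
    (hD : M.map Prod.fst = D₀) (hne : D₀ ≠ [])
    (hch : List.IsChain (AdjC G) (c :: (D₀ ++ E)))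
    (hv : c.v = d.v)
    (hm : ∀ m ∈ M, m.2 = true → ¬ G.Adj d.v m.1.v) : expand M ≠ [] := by
  cases M with
  | nil => exact absurd hD.symm hne
  | cons m M =>
    subst hD
    simp only [List.map_cons, List.cons_append, List.isChain_cons_cons] at hch
    have h1 := hm m List.mem_cons_self
    have h2 : G.Adj d.v m.1.v := by rw [← hv]; exact hch.1
    apply expand_ne (m := m) List.mem_cons_self
    cases hmm : m.2 with
    | false => rfl
    | true => exact absurd h2 (h1 hmm)

theorem ne_last {c d : Corner V} {D₀ E F : List (Corner V)} {M : List (Corner V × Bool)}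
    (hD : M.map Prod.fst = D₀) (hne : D₀ ≠ [])
    (hch : List.IsChain (AdjC G) (E ++ (D₀ ++ c :: F)))
    (hv : c.v = d.v)
    (hm : ∀ m ∈ M, m.2 = true → ¬ G.Adj d.v m.1.v) : expand M ≠ [] := by
  rcases List.eq_nil_or_concat M with rfl | ⟨M', m, hMm⟩
  · exact absurd hD.symm hne
  · rw [List.concat_eq_append] at hMm
    subst hMm
    subst hD
    have h0 : E ++ (((M' ++ [m]).map Prod.fst) ++ c :: F) =
        (E ++ M'.map Prod.fst) ++ m.1 :: (c :: F) := by simp
    rw [h0] at hch
    have h3 := (List.isChain_append.1 hch).2.1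
    rw [List.isChain_cons_cons] at h3
    have h1 := hm m (by simp)
    have h2 : G.Adj d.v m.1.v := by rw [← hv]; exact h3.1.symm
    apply expand_ne (m := m) (by simp)
    cases hmm : m.2 with
    | false => rfl
    | true => exact absurd h2 (h1 hmm)

theorem marks_all {c : Corner V × Bool} {M : List (Corner V × Bool)} (h : ∀ m ∈ M, Rm G c m)
    (hc : c.2 = true) : ∀ m ∈ M, m.2 = true → ¬ G.Adj c.1.v m.1.v :=
  fun m hm h1 => h m hm hc h1

theorem rm_congr {c c' d : Corner V × Bool} (h : Rm G c d) (hv : c'.1.v = c.1.v)
    (hb : c'.2 = true → c.2 = true) : Rm G c' d := by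
  intro h1 h2
  rw [hv]
  exact h (hb h1) h2

theorem rm_symm {c d : Corner V × Bool} (h : Rm G c d) : Rm G d c := by
  intro h1 h2 h3
  exact h h2 h1 h3.symm

theorem rm_false {c d : Corner V × Bool} (h : c.2 = false) : Rm G c d := by
  intro h1
  rw [h] at h1
  exact absurd h1 (by simp)

end DISC3

open DISC3 in
theorem tDISC3 (h1 : T_DISC1.{u}) : T_DISC3.{u} := by
  intro V G ang hA A D hD
  induction hD with
  | @base a b z hab haz hzb =>
    intro M hM hOK
    rw [List.map_eq_cons_iff] at hM
    obtain ⟨⟨_, ma⟩, M1, rfl, rfl, hM⟩ := hM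
    rw [List.map_eq_cons_iff] at hM
    obtain ⟨⟨_, mb⟩, M2, rfl, rfl, hM⟩ := hM
    rw [List.map_eq_cons_iff] at hM
    obtain ⟨⟨_, mz⟩, M3, rfl, rfl, hM⟩ := hM
    rw [List.map_eq_nil_iff] at hM
    subst hM
    rw [marksOK_iff] at hOK
    simp only [List.pairwise_cons, List.mem_cons, List.not_mem_nil, or_false, forall_eq_or_imp,
      forall_eq, Rm] at hOK
    cases ma <;> cases mb <;> cases mz <;> simp [hab, haz, hzb.symm] at hOK <;>
      simp only [expand, cost]
    · exact ⟨1, Null.triangle hab hzb.symm haz, by simp⟩
    · exact ⟨0, Null.dig hab, by simp⟩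
    · exact ⟨0, Null.dig haz, by simp⟩
    · exact ⟨0, Null.dig hzb.symm, by simp⟩
  | @rot m c D h ih =>
    intro M hM hOK
    rw [List.map_eq_append_iff] at hM
    obtain ⟨M1, M2, rfl, rfl, hM⟩ := hM
    rw [List.map_eq_cons_iff] at hM
    obtain ⟨mc, M3, rfl, rfl, hM⟩ := hM
    rw [List.map_eq_nil_iff] at hM
    subst hM
    rw [marksOK_iff, List.pairwise_append] at hOK
    have hOK' : MarksOK G (mc :: M1) := by
      rw [marksOK_iff, List.pairwise_cons]
      exact ⟨fun m hm => rm_symm (hOK.2.2 m hm mc (by simp)), hOK.1⟩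
    obtain ⟨k, hk, hc⟩ := ih (mc :: M1) (by simp) hOK'
    refine ⟨k, ?_, ?_⟩
    · rw [expand_append]
      have h2 : expand (mc :: M1) = expand [mc] ++ expand M1 := by
        rw [← expand_append]; rfl
      rw [h2] at hk
      exact hk.swap
    · rw [cost_append]
      have h2 : cost (mc :: M1) = cost [mc] + cost M1 := by
        rw [← cost_append]; rfl
      omega
  | @inner m a b z x y Fa Fz Fb ta tz tb D hab haz hzb h hz ih =>
    intro M hM hOK
    rw [List.map_eq_cons_iff] at hM
    obtain ⟨⟨_, ma⟩, M1, rfl, rfl, hM⟩ := hM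
    rw [List.map_eq_cons_iff] at hM
    obtain ⟨⟨_, mb⟩, M0, rfl, rfl, rfl⟩ := hM
    rw [marksOK_iff] at hOK
    simp only [List.pairwise_cons, List.mem_cons, forall_eq_or_imp] at hOK
    obtain ⟨⟨hab', ha0⟩, hb0, h0⟩ := hOK
    have hOK' : MarksOK G ((⟨x, a, z, Fa, ta⟩, ma) :: (⟨a, z, b, Fz, tz⟩, false) ::
        (⟨z, b, y, Fb, tb⟩, mb) :: M0) := by
      rw [marksOK_iff]
      simp only [List.pairwise_cons, List.mem_cons, forall_eq_or_imp]
      refine ⟨⟨rm_symm (rm_false rfl), hab', ?_⟩, ⟨rm_false rfl, ?_⟩, ?_, h0⟩
      · intro d hd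
        exact rm_congr (ha0 d hd) rfl (fun h => h)
      · intro d hd
        exact rm_false rfl
      · intro d hd
        exact rm_congr (hb0 d hd) rfl (fun h => h)
    obtain ⟨k, hk, hc⟩ := ih _ (by simp) hOK'
    cases ma <;> cases mb
    · simp only [expand, cost] at hk hc ⊢
      simp only [Bool.false_eq_true, if_false, List.cons_append, List.nil_append] at hk hc ⊢
      exact ⟨k + 1, Null.tri hab haz hzb hk, by omega⟩
    · simp only [expand, cost] at hk hc ⊢
      simp only [Bool.false_eq_true, if_false, if_true, List.cons_append, List.nil_append,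
        List.length_cons] at hk hc ⊢
      exact ⟨k, hk, by omega⟩
    · simp only [expand, cost] at hk hc ⊢
      simp only [Bool.false_eq_true, if_false, if_true, List.cons_append, List.nil_append,
        List.length_append, List.length_cons, List.length_nil, List.append_assoc] at hk hc ⊢
      exact ⟨k, hk, by omega⟩
    · exact absurd hab (hab' rfl rfl)
  | @left n a b z x y Fa Fz ta tz D hab haz hzb h ih =>
    have hd := h1 G ang hA _ _ h
    have hch := cyc_adj hd.2.1 hd.2.2
    have hDne : D ≠ [] := by
      rintro rfl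
      have := hd.1
      simp at this
    intro M hM hOK
    rw [List.map_eq_cons_iff] at hM
    obtain ⟨⟨_, ma⟩, M1, rfl, rfl, hM⟩ := hM
    rw [List.map_eq_cons_iff] at hM
    obtain ⟨⟨_, mb⟩, M2, rfl, rfl, hM⟩ := hM
    rw [List.map_eq_cons_iff] at hM
    obtain ⟨⟨_, mz⟩, M0, rfl, rfl, hM⟩ := hM
    rw [marksOK_iff] at hOK
    simp only [List.pairwise_cons, List.mem_cons, forall_eq_or_imp] at hOK
    obtain ⟨⟨hab', haz', ha0⟩, ⟨hbz', hb0⟩, hz0, h0⟩ := hOK
    have hOK' : MarksOK G ((⟨a, z, y, Fz, tz⟩, mz) :: (M0 ++ [(⟨x, a, z, Fa, ta⟩, ma)])) := by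
      rw [marksOK_iff]
      simp only [List.pairwise_cons, List.pairwise_append, List.mem_append, List.mem_cons,
        List.not_mem_nil, or_false, forall_eq, IsEmpty.forall_iff, implies_true,
        List.Pairwise.nil, and_true, true_and]
      refine ⟨?_, h0, ?_⟩
      · intro d hd
        rcases hd with hd | rfl
        · exact rm_congr (hz0 d hd) rfl (fun h => h)
        · exact rm_symm (rm_congr haz' rfl (fun h => h))
      · intro d hd
        exact rm_symm (rm_congr (ha0 d hd) rfl (fun h => h))
    obtain ⟨k, hk, hc⟩ := ih _ (by simp [hM]) hOK'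
    cases ma <;> cases mb <;> cases mz
    · -- none
      simp only [expand, cost, expand_append, cost_append] at hk hc ⊢
      simp only [Bool.false_eq_true, if_false, List.cons_append, List.nil_append,
        List.append_nil] at hk hc ⊢
      have h2 : Null G k ([] ++ a :: z :: expand M0) := by
        have h3 : Null G k ((z :: expand M0) ++ [a]) := by simpa using hk
        simpa using h3.swap
      exact ⟨k + 1, by simpa using h2.push hab hzb.symm haz, by omega⟩
    · -- z marked
      have hne : expand M0 ≠ [] := by
        apply ne_first (G := G) hM hDne (c := ⟨a, z, y, Fz, tz⟩) (d := ⟨a, z, y, Fz, tz⟩)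
          (E := [⟨x, a, z, Fa, ta⟩, ⟨a, z, y, Fz, tz⟩]) (by simpa using hch) rfl
        exact fun m hm h3 => hz0 m hm rfl h3
      simp only [expand, cost, expand_append, cost_append] at hk hc ⊢
      simp only [Bool.false_eq_true, if_false, if_true, List.cons_append, List.nil_append,
        List.append_nil, List.length_cons] at hk hc ⊢
      have h2 : Null G k ([] ++ a :: (Fz ++ expand M0)) := by
        have h3 : Null G k ((Fz ++ expand M0) ++ [a]) := by simpa using hk
        simpa using h3.swap
      exact ⟨k, by simpa using h2.spur (by simp [hne]) hab, by omega⟩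
    · -- b marked
      simp only [expand, cost, expand_append, cost_append] at hk hc ⊢
      simp only [Bool.false_eq_true, if_false, if_true, List.cons_append, List.nil_append,
        List.append_nil, List.length_nil] at hk hc ⊢
      have h2 : Null G k ([] ++ a :: z :: expand M0) := by
        have h3 : Null G k ((z :: expand M0) ++ [a]) := by simpa using hk
        simpa using h3.swap
      exact ⟨k, by simpa using h2, by omega⟩
    · exact absurd hzb.symm (hbz' rfl rfl)
    · -- a marked
      have hne : expand M0 ≠ [] := by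
        apply ne_last (G := G) hM hDne (c := ⟨x, a, z, Fa, ta⟩) (d := ⟨x, a, z, Fa, ta⟩)
          (E := [⟨a, z, y, Fz, tz⟩]) (F := [⟨a, z, y, Fz, tz⟩]) (by simpa using hch) rfl
        exact fun m hm h3 => ha0 m hm rfl h3
      simp only [expand, cost, expand_append, cost_append] at hk hc ⊢
      simp only [Bool.false_eq_true, if_false, if_true, List.cons_append, List.nil_append,
        List.append_nil, List.length_append, List.length_cons, List.length_nil,
        List.append_assoc] at hk hc ⊢
      have h2 : Null G k (Fa ++ z :: expand M0) := by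
        have h3 : Null G k ((z :: expand M0) ++ Fa) := by simpa using hk
        simpa using h3.swap
      exact ⟨k, by simpa using h2.spur (by simp [hne]) hzb, by omega⟩
    · exact absurd haz (haz' rfl rfl)
    · exact absurd hab (hab' rfl rfl)
    · exact absurd hab (hab' rfl rfl)
  | @right m a b z x y Fz Fb tz tb D hab haz hzb h ih =>
    have hd := h1 G ang hA _ _ h
    have hch := cyc_adj hd.2.1 hd.2.2
    have hDne : D ≠ [] := by
      rintro rfl
      have := hd.1
      simp at this
    intro M hM hOK
    rw [List.map_eq_cons_iff] at hM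
    obtain ⟨⟨_, ma⟩, M1, rfl, rfl, hM⟩ := hM
    rw [List.map_eq_cons_iff] at hM
    obtain ⟨⟨_, mb⟩, M2, rfl, rfl, hM⟩ := hM
    rw [List.map_eq_append_iff] at hM
    obtain ⟨M0, M3, rfl, hM, hM3⟩ := hM
    rw [List.map_eq_cons_iff] at hM3
    obtain ⟨⟨_, mz⟩, M4, rfl, rfl, hM4⟩ := hM3
    rw [List.map_eq_nil_iff] at hM4
    subst hM4
    rw [marksOK_iff] at hOK
    simp only [List.pairwise_cons, List.pairwise_append, List.mem_append, List.mem_cons,
      List.not_mem_nil, or_false, forall_eq_or_imp, forall_eq, IsEmpty.forall_iff, implies_true,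
      List.Pairwise.nil, and_true, true_and] at hOK
    obtain ⟨⟨hab', ha0'⟩, hb0', h0, h0z⟩ := hOK
    have haz' := ha0' _ (Or.inr rfl)
    have hbz' := hb0' _ (Or.inr rfl)
    have hOK' : MarksOK G ((⟨x, z, b, Fz, tz⟩, mz) :: (⟨z, b, y, Fb, tb⟩, mb) :: M0) := by
      rw [marksOK_iff]
      simp only [List.pairwise_cons, List.mem_cons, forall_eq_or_imp]
      refine ⟨⟨rm_symm (rm_congr hbz' rfl (fun h => h)), ?_⟩, ?_, h0⟩
      · intro d hd
        exact rm_symm (h0z d hd)
      · intro d hd
        exact rm_congr (hb0' d (Or.inl hd)) rfl (fun h => h)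
    obtain ⟨k, hk, hc⟩ := ih _ (by simp [hM]) hOK'
    cases ma <;> cases mb <;> cases mz
    · -- none
      simp only [expand, cost, expand_append, cost_append] at hk hc ⊢
      simp only [Bool.false_eq_true, if_false, List.cons_append, List.nil_append,
        List.append_nil] at hk hc ⊢
      have h2 : Null G (k + 1) ([z] ++ (a :: b :: expand M0)) := by
        have h3 : Null G k ([] ++ z :: b :: expand M0) := by simpa using hk
        simpa using h3.push haz.symm hab hzb
      exact ⟨k + 1, by simpa using h2.swap, by omega⟩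
    · -- z marked
      have hne : expand M0 ≠ [] := by
        apply ne_last (G := G) hM hDne (c := ⟨x, z, b, Fz, tz⟩) (d := ⟨x, z, b, Fz, tz⟩)
          (E := [⟨x, z, b, Fz, tz⟩, ⟨z, b, y, Fb, tb⟩]) (F := []) (by simpa using hch) rfl
        exact fun m hm h3 => (rm_symm (h0z m hm)) rfl h3
      simp only [expand, cost, expand_append, cost_append] at hk hc ⊢
      simp only [Bool.false_eq_true, if_false, if_true, List.cons_append, List.nil_append,
        List.append_nil, List.length_append, List.length_cons, List.length_nil] at hk hc ⊢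
      have h2 : Null G k ((Fz ++ [b]) ++ (a :: b :: expand M0)) := by
        have h3 : Null G k (Fz ++ b :: expand M0) := by simpa using hk
        simpa using h3.spur (by simp [hne]) hab.symm
      exact ⟨k, by simpa using h2.swap, by omega⟩
    · -- b marked
      have hne : expand M0 ≠ [] := by
        have hch' : List.IsChain (AdjC G) ((⟨z, b, y, Fb, tb⟩ : Corner V) ::
            (D ++ [⟨x, z, b, Fz, tz⟩])) := by
          simp only [List.cons_append, List.isChain_cons_cons] at hch
          exact hch.2
        apply ne_first (G := G) hM hDne (c := ⟨z, b, y, Fb, tb⟩) (d := ⟨z, b, y, Fb, tb⟩)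
          (E := [⟨x, z, b, Fz, tz⟩]) hch' rfl
        exact fun m hm h3 => hb0' m (Or.inl hm) rfl h3
      simp only [expand, cost, expand_append, cost_append] at hk hc ⊢
      simp only [Bool.false_eq_true, if_false, if_true, List.cons_append, List.nil_append,
        List.append_nil, List.length_cons] at hk hc ⊢
      have h2 : Null G k ([z] ++ (a :: z :: (Fb ++ expand M0))) := by
        have h3 : Null G k ([] ++ z :: (Fb ++ expand M0)) := by simpa using hk
        simpa using h3.spur (by simp [hne]) haz.symm
      exact ⟨k, by simpa using h2.swap, by omega⟩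
    · exact absurd hzb.symm (hbz' rfl rfl)
    · -- a marked
      simp only [expand, cost, expand_append, cost_append] at hk hc ⊢
      simp only [Bool.false_eq_true, if_false, if_true, List.cons_append, List.nil_append,
        List.append_nil, List.length_nil] at hk hc ⊢
      have h2 : Null G k ([z] ++ (b :: expand M0)) := by simpa using hk
      exact ⟨k, by simpa using h2.swap, by omega⟩
    · exact absurd haz (haz' rfl rfl)
    · exact absurd hab (hab' rfl rfl)
    · exact absurd hab (hab' rfl rfl)
  | @both m n a b z x y x' y' Fa Fz Fb Fz' ta tz tb tz' D D' hab haz hzb h h' ih ih' =>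
    have hd := h1 G ang hA _ _ h
    have hch := cyc_adj hd.2.1 hd.2.2
    have hDne : D ≠ [] := by
      rintro rfl
      have := hd.1
      simp at this
    have hd' := h1 G ang hA _ _ h'
    have hch' := cyc_adj hd'.2.1 hd'.2.2
    have hDne' : D' ≠ [] := by
      rintro rfl
      have := hd'.1
      simp at this
    intro M hM hOK
    rw [List.map_eq_cons_iff] at hM
    obtain ⟨⟨_, ma⟩, M1, rfl, rfl, hM⟩ := hM
    rw [List.map_eq_cons_iff] at hM
    obtain ⟨⟨_, mb⟩, M2, rfl, rfl, hM⟩ := hM
    rw [List.map_eq_append_iff] at hM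
    obtain ⟨N1, M3, rfl, hN1, hM3⟩ := hM
    rw [List.map_eq_cons_iff] at hM3
    obtain ⟨⟨_, mz⟩, N2, rfl, rfl, hN2⟩ := hM3
    rw [marksOK_iff] at hOK
    simp only [List.pairwise_cons, List.pairwise_append, List.mem_append, List.mem_cons,
      forall_eq_or_imp] at hOK
    obtain ⟨⟨hab', ha0'⟩, hb0', h01, ⟨hz2, h02⟩, h0z⟩ := hOK
    have haz' := ha0' _ (Or.inr (Or.inl rfl))
    have hbz' := hb0' _ (Or.inr (Or.inl rfl))
    have hOK1 : MarksOK G ((⟨x, z, b, Fz, tz⟩, mz) :: (⟨z, b, y, Fb, tb⟩, mb) :: N1) := by
      rw [marksOK_iff]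
      simp only [List.pairwise_cons, List.mem_cons, forall_eq_or_imp]
      refine ⟨⟨rm_symm (rm_congr hbz' rfl (fun h => h)), ?_⟩, ?_, h01⟩
      · intro d hd
        exact rm_symm ((h0z d hd).1)
      · intro d hd
        exact rm_congr (hb0' d (Or.inl hd)) rfl (fun h => h)
    have hOK2 : MarksOK G ((⟨a, z, y', Fz', tz'⟩, mz) :: (N2 ++ [(⟨x', a, z, Fa, ta⟩, ma)])) := by
      rw [marksOK_iff]
      simp only [List.pairwise_cons, List.pairwise_append, List.mem_append, List.mem_cons,
        List.not_mem_nil, or_false, forall_eq, IsEmpty.forall_iff, implies_true,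
        List.Pairwise.nil, and_true, true_and]
      refine ⟨?_, h02, ?_⟩
      · intro d hd
        rcases hd with hd | rfl
        · exact rm_congr (hz2 d hd) rfl (fun h => h)
        · exact rm_symm (rm_congr haz' rfl (fun h => h))
      · intro d hd
        exact rm_symm (rm_congr (ha0' d (Or.inr (Or.inr hd))) rfl (fun h => h))
    obtain ⟨k, hk, hc⟩ := ih _ (by simp [hN1]) hOK1
    obtain ⟨k', hk', hc'⟩ := ih' _ (by simp [hN2]) hOK2
    cases ma <;> cases mb <;> cases mz
    · -- none
      simp only [expand, cost, expand_append, cost_append] at hk hc hk' hc' ⊢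
      simp only [Bool.false_eq_true, if_false, List.cons_append, List.nil_append,
        List.append_nil] at hk hc hk' hc' ⊢
      have h2 : Null G (k + k') (z :: ((b :: expand N1) ++ z :: (expand N2 ++ [a]))) :=
        Null.split (by simp) (by simp) hk hk'
      have h3 : Null G (k + k') ((z :: b :: (expand N1 ++ z :: expand N2)) ++ [a]) := by
        simpa using h2
      have h4 : Null G (k + k') (a :: z :: b :: (expand N1 ++ z :: expand N2)) := by
        simpa using h3.swap
      exact ⟨k + k' + 1, Null.tri hab haz hzb h4, by omega⟩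
    · -- z marked
      have hne1 : expand N1 ≠ [] := by
        apply ne_last (G := G) hN1 hDne (c := ⟨x, z, b, Fz, tz⟩) (d := ⟨x, z, b, Fz, tz⟩)
          (E := [⟨x, z, b, Fz, tz⟩, ⟨z, b, y, Fb, tb⟩]) (F := []) (by simpa using hch) rfl
        exact fun m hm h3 => (rm_symm ((h0z m hm).1)) rfl h3
      have hne2 : expand N2 ≠ [] := by
        apply ne_first (G := G) hN2 hDne' (c := ⟨a, z, y', Fz', tz'⟩)
          (d := ⟨a, z, y', Fz', tz'⟩)
          (E := [⟨x', a, z, Fa, ta⟩, ⟨a, z, y', Fz', tz'⟩]) (by simpa using hch') rfl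
        exact fun m hm h3 => hz2 m hm rfl h3
      simp only [expand, cost, expand_append, cost_append] at hk hc hk' hc' ⊢
      simp only [Bool.false_eq_true, if_false, if_true, List.cons_append, List.nil_append,
        List.append_nil, List.length_append, List.length_cons, List.length_nil] at hk hc hk' hc' ⊢
      have h2 : Null G k' ([] ++ a :: (Fz' ++ expand N2)) := by
        have h3 : Null G k' ((Fz' ++ expand N2) ++ [a]) := by simpa using hk'
        simpa using h3.swap
      have h3 : Null G k' ([a] ++ b :: (a :: (Fz' ++ expand N2))) := by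
        simpa using h2.spur (by simp [hne2]) hab
      have h4 : Null G k (b :: (expand N1 ++ Fz)) := by
        have h5 : Null G k (Fz ++ b :: expand N1) := by simpa using hk
        simpa using h5.swap
      have h5 := h3.loop h4 (by simp) (by simp [hne1])
      refine ⟨k' + k, by simpa using h5, by omega⟩
    · -- b marked
      have hne1 : expand N1 ≠ [] := by
        have hch2 : List.IsChain (AdjC G) ((⟨z, b, y, Fb, tb⟩ : Corner V) ::
            (D ++ [⟨x, z, b, Fz, tz⟩])) := by
          simp only [List.cons_append, List.isChain_cons_cons] at hch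
          exact hch.2
        apply ne_first (G := G) hN1 hDne (c := ⟨z, b, y, Fb, tb⟩) (d := ⟨z, b, y, Fb, tb⟩)
          (E := [⟨x, z, b, Fz, tz⟩]) hch2 rfl
        exact fun m hm h3 => hb0' m (Or.inl hm) rfl h3
      simp only [expand, cost, expand_append, cost_append] at hk hc hk' hc' ⊢
      simp only [Bool.false_eq_true, if_false, if_true, List.cons_append, List.nil_append,
        List.append_nil, List.length_cons] at hk hc hk' hc' ⊢
      have h2 : Null G (k + k') (z :: ((Fb ++ expand N1) ++ z :: (expand N2 ++ [a]))) :=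
        Null.split (by simp [hne1]) (by simp) hk hk'
      have h3 : Null G (k + k') ((z :: (Fb ++ (expand N1 ++ z :: expand N2))) ++ [a]) := by
        simpa using h2
      exact ⟨k + k', by simpa using h3.swap, by omega⟩
    · exact absurd hzb.symm (hbz' rfl rfl)
    · -- a marked
      have hne2 : expand N2 ≠ [] := by
        apply ne_last (G := G) hN2 hDne' (c := ⟨x', a, z, Fa, ta⟩) (d := ⟨x', a, z, Fa, ta⟩)
          (E := [⟨a, z, y', Fz', tz'⟩]) (F := [⟨a, z, y', Fz', tz'⟩]) (by simpa using hch') rfl
        exact fun m hm h3 => ha0' m (Or.inr (Or.inr hm)) rfl h3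
      simp only [expand, cost, expand_append, cost_append] at hk hc hk' hc' ⊢
      simp only [Bool.false_eq_true, if_false, if_true, List.cons_append, List.nil_append,
        List.append_nil, List.length_append, List.length_cons, List.length_nil,
        List.append_assoc] at hk hc hk' hc' ⊢
      have h2 : Null G (k + k') (z :: ((b :: expand N1) ++ z :: (expand N2 ++ Fa))) :=
        Null.split (by simp) (by simp [hne2]) hk hk'
      have h3 : Null G (k + k') ((z :: b :: (expand N1 ++ z :: expand N2)) ++ Fa) := by
        simpa using h2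
      exact ⟨k + k', by simpa using h3.swap, by omega⟩
    · exact absurd haz (haz' rfl rfl)
    · exact absurd hab (hab' rfl rfl)
    · exact absurd hab (hab' rfl rfl)

end Pool.Agent.MSF
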