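import Mathlib

/-!
# Fixed points of finite 2-groups on metrically systolic complexes (MP_d6353f_al)

Definitions used in the final statement (`MSF.Defs`) and the combinatorial notions used in the
proof (cyclic lists, null cyclic lists, decorated discs).
-/

namespace Pool.Agent.MSF

open List

variable {V : Type*}

/-! ### Definitions of the statement -/

/-- The angle at `v` of a Euclidean triangle `v a b` with side lengths `len`, by the law of
cosines. -/
noncomputable def angle (len : V → V → ℝ) (v a b : V) : ℝ :=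
  Real.arccos ((len v a ^ 2 + len v b ^ 2 - len a b ^ 2) / (2 * len v a * len v b))

/-- The flag complex of `G`, with edge lengths `len`, is a metric simplicial complex: every triangle
is a nondegenerate Euclidean triangle, and in every link the angular lengths of the three edges of
a triangle satisfy the triangle inequality. -/
structure IsMetricComplex (G : SimpleGraph V) (len : V → V → ℝ) : Prop where
  symm : ∀ a b, len a b = len b a
  pos : ∀ a b, G.Adj a b → 0 < len a b
  triangle : ∀ a b c, G.Adj a b → G.Adj b c → G.Adj a c → len a c < len a b + len b c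
  link : ∀ v a b c, G.Adj v a → G.Adj v b → G.Adj v c → G.Adj a b → G.Adj b c → G.Adj a c →
    angle len v a c ≤ angle len v a b + angle len v b c

/-- The link of `v` is `2π`-large: every simple `k`-cycle `c 0, …, c (k-1)` in the link, `k ≥ 4`
(`c` is `k`-periodic and injective on `{0, …, k-1}`), which is `2`-full (no edge joins `c i` and
`c (i+2)`), has angular length at least `2π`. -/
def IsLarge (G : SimpleGraph V) (len : V → V → ℝ) (v : V) : Prop :=
  ∀ (k : ℕ) (c : ℕ → V), 4 ≤ k → (∀ i, c (i + k) = c i) → Set.InjOn c (Set.Iio k) →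
    (∀ i, G.Adj v (c i)) → (∀ i, G.Adj (c i) (c (i + 1))) → (∀ i, ¬ G.Adj (c i) (c (i + 2))) →
    2 * Real.pi ≤ ∑ i ∈ Finset.range k, angle len v (c i) (c (i + 1))

/-- Elementary homotopies of edge paths (lists of vertices): inserting a backtrack `a b a` at `a`,
and pushing an edge `a c` across a triangle `a b c`. -/
inductive Elem (G : SimpleGraph V) : List V → List V → Prop
  | spur (p q : List V) (a b : V) (h : G.Adj a b) :
      Elem G (p ++ a :: q) (p ++ a :: b :: a :: q)
  | tri (p q : List V) (a b c : V) (hab : G.Adj a b) (hbc : G.Adj b c) (hac : G.Adj a c) :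
      Elem G (p ++ a :: c :: q) (p ++ a :: b :: c :: q)

/-- The flag complex of `G` is (connected and) simply connected: every closed edge path
`a, p, a` is homotopic to the constant path `a`. -/
def SimplyConn (G : SimpleGraph V) : Prop :=
  G.Connected ∧ ∀ (a : V) (p : List V), List.IsChain G.Adj (a :: (p ++ [a])) →
    Relation.EqvGen (Elem G) (a :: (p ++ [a])) [a]

/-- Metrically systolic complexes. -/
structure MetricallySystolic (G : SimpleGraph V) (len : V → V → ℝ) : Prop where
  complex : IsMetricComplex G len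
  large : ∀ v, IsLarge G len v
  simplyConn : SimplyConn G

/-- `φ` (barycentric coordinates) is a point of the geometric realisation of the flag complex
of `G`. -/
structure IsPoint (G : SimpleGraph V) (φ : V →₀ ℝ) : Prop where
  nonneg : ∀ v, 0 ≤ φ v
  sum_eq : (φ.sum fun _ x => x) = 1
  clique : ∀ a b, φ a ≠ 0 → φ b ≠ 0 → a ≠ b → G.Adj a b

/-! ### Combinatorial notions of the proof -/

/-- The full subgraph on `S`, as a graph on the same vertex type. -/
def resG (G : SimpleGraph V) (S : Set V) : SimpleGraph V where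
  Adj a b := G.Adj a b ∧ a ∈ S ∧ b ∈ S
  symm := ⟨fun _ _ h => ⟨h.1.symm, h.2.2, h.2.1⟩⟩
  loopless := ⟨fun _ h => G.loopless.irrefl _ h.1⟩

/-- Closed walks as cyclic lists; `[a]` is the constant walk at `a`. -/
def CW (G : SimpleGraph V) : List V → Prop
  | [] => False
  | [_] => True
  | (a :: b :: l) => List.IsChain G.Adj (a :: b :: (l ++ [a]))

/-- `Null G m w`: the cyclic list `w` bounds a disc diagram with at most `m` triangles. -/
inductive Null (G : SimpleGraph V) : ℕ → List V → Prop
  | pt (a : V) : Null G 0 [a]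
  | dig {a b : V} (h : G.Adj a b) : Null G 0 [a, b]
  | rot {m : ℕ} {a : V} {l : List V} (h : Null G m (a :: l)) : Null G m (l ++ [a])
  | tri {m : ℕ} {a b z : V} {l : List V} (hab : G.Adj a b) (haz : G.Adj a z) (hzb : G.Adj z b)
      (h : Null G m (a :: z :: b :: l)) : Null G (m + 1) (a :: b :: l)
  | split {m n : ℕ} {a : V} {l l' : List V} (hl : l ≠ []) (hl' : l' ≠ [])
      (h : Null G m (a :: l)) (h' : Null G n (a :: l')) : Null G (m + n) (a :: (l ++ a :: l'))
  | weak {m : ℕ} {w : List V} (h : Null G m w) : Null G (m + 1) w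

/-- Rooted closed paths (first vertex = last vertex) which are null. -/
def NullR (G : SimpleGraph V) (m : ℕ) (P : List V) : Prop :=
  (∃ a, P = [a]) ∨ ∃ a l, l ≠ [] ∧ P = a :: (l ++ [a]) ∧ Null G m (a :: l)

/-- Length of a path in the link of `v`. -/
def plen (ang : V → V → V → ℝ) (v : V) : List V → ℝ
  | [] => 0
  | [_] => 0
  | (a :: b :: l) => ang v a b + plen ang v (b :: l)

/-- Length of a closed walk (cyclic list with at least two elements) in the link of `v`. -/
def clen (ang : V → V → V → ℝ) (v : V) : List V → ℝ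
  | [] => 0
  | (a :: l) => plen ang v (a :: (l ++ [a]))

/-- No ears: consecutive-but-one vertices of the path `L` are distinct and non-adjacent. -/
def NoEar (G : SimpleGraph V) (L : List V) : Prop :=
  ∀ (X : List V) (x y z : V) (Y : List V), L = X ++ x :: y :: z :: Y → x ≠ z ∧ ¬ G.Adj x z

/-- Abstract angled complexes. The last axiom: a closed walk in a link all of whose ears are at
two consecutive positions `a`, `b` has length at least `2π`. -/
structure Angled (G : SimpleGraph V) (ang : V → V → V → ℝ) : Prop where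
  symm : ∀ v a b, ang v a b = ang v b a
  pos : ∀ v a b, G.Adj v a → G.Adj v b → G.Adj a b → 0 < ang v a b
  sum_le : ∀ a b c, G.Adj a b → G.Adj b c → G.Adj a c →
    ang a b c + ang b a c + ang c a b ≤ Real.pi
  link : ∀ v a b c, G.Adj v a → G.Adj v b → G.Adj v c → G.Adj a b → G.Adj b c → G.Adj a c →
    ang v a c ≤ ang v a b + ang v b c
  large : ∀ v a b l, 2 ≤ l.length → CW G (a :: b :: l) → (∀ x ∈ a :: b :: l, G.Adj v x) →
    NoEar G (b :: (l ++ [a])) → 2 * Real.pi ≤ clen ang v (a :: b :: l)

/-- A corner of a disc diagram: boundary vertex `v`, its predecessor `p` and successor `n` on the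
boundary, the interior `F` of the fan path from `p` to `n` in the link of `v`, and the total
angle `th`. -/
structure Corner (V : Type*) where
  p : V
  v : V
  n : V
  F : List V
  th : ℝ

/-- Local correctness of a corner. -/
structure CornerOK (G : SimpleGraph V) (ang : V → V → V → ℝ) (c : Corner V) : Prop where
  chain : List.IsChain G.Adj (c.p :: (c.F ++ [c.n]))
  link : ∀ x ∈ c.p :: (c.F ++ [c.n]), G.Adj c.v x
  len : c.th = plen ang c.v (c.p :: (c.F ++ [c.n]))

/-- Compatibility of consecutive corners. -/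
def Corner.Next (c c' : Corner V) : Prop := c.n = c'.v ∧ c'.p = c.v

/-- Compatibility of a cyclic list of corners. -/
def CycC : List (Corner V) → Prop
  | [] => False
  | (c :: D) => List.IsChain Corner.Next (c :: (D ++ [c]))

/-- `Disc G ang A D`: a nondegenerate disc diagram with `A` triangles and boundary corners `D`
(cyclic list), all of whose interior vertices have total angle at least `2π`. -/
inductive Disc (G : SimpleGraph V) (ang : V → V → V → ℝ) : ℕ → List (Corner V) → Prop
  | base {a b z : V} (hab : G.Adj a b) (haz : G.Adj a z) (hzb : G.Adj z b) :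
      Disc G ang 1 [⟨z, a, b, [], ang a z b⟩, ⟨a, b, z, [], ang b a z⟩, ⟨b, z, a, [], ang z b a⟩]
  | rot {m : ℕ} {c : Corner V} {D : List (Corner V)} (h : Disc G ang m (c :: D)) :
      Disc G ang m (D ++ [c])
  | inner {m : ℕ} {a b z x y : V} {Fa Fz Fb : List V} {ta tz tb : ℝ} {D : List (Corner V)}
      (hab : G.Adj a b) (haz : G.Adj a z) (hzb : G.Adj z b)
      (h : Disc G ang m (⟨x, a, z, Fa, ta⟩ :: ⟨a, z, b, Fz, tz⟩ :: ⟨z, b, y, Fb, tb⟩ :: D))
      (hz : 2 * Real.pi ≤ tz + ang z b a) :
      Disc G ang (m + 1)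
        (⟨x, a, b, Fa ++ [z], ta + ang a z b⟩ :: ⟨a, b, y, z :: Fb, tb + ang b a z⟩ :: D)
  | left {n : ℕ} {a b z x y : V} {Fa Fz : List V} {ta tz : ℝ} {D : List (Corner V)}
      (hab : G.Adj a b) (haz : G.Adj a z) (hzb : G.Adj z b)
      (h : Disc G ang n (⟨a, z, y, Fz, tz⟩ :: (D ++ [⟨x, a, z, Fa, ta⟩]))) :
      Disc G ang (n + 1)
        (⟨x, a, b, Fa ++ [z], ta + ang a z b⟩ :: ⟨a, b, z, [], ang b a z⟩ ::
          ⟨b, z, y, a :: Fz, tz + ang z b a⟩ :: D)
  | right {m : ℕ} {a b z x y : V} {Fz Fb : List V} {tz tb : ℝ} {D : List (Corner V)}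
      (hab : G.Adj a b) (haz : G.Adj a z) (hzb : G.Adj z b)
      (h : Disc G ang m (⟨x, z, b, Fz, tz⟩ :: ⟨z, b, y, Fb, tb⟩ :: D)) :
      Disc G ang (m + 1)
        (⟨z, a, b, [], ang a z b⟩ :: ⟨a, b, y, z :: Fb, tb + ang b a z⟩ ::
          (D ++ [⟨x, z, a, Fz ++ [b], tz + ang z b a⟩]))
  | both {m n : ℕ} {a b z x y x' y' : V} {Fa Fz Fb Fz' : List V} {ta tz tb tz' : ℝ}
      {D D' : List (Corner V)}
      (hab : G.Adj a b) (haz : G.Adj a z) (hzb : G.Adj z b)
      (h : Disc G ang m (⟨x, z, b, Fz, tz⟩ :: ⟨z, b, y, Fb, tb⟩ :: D))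
      (h' : Disc G ang n (⟨a, z, y', Fz', tz'⟩ :: (D' ++ [⟨x', a, z, Fa, ta⟩]))) :
      Disc G ang (m + n + 1)
        (⟨x', a, b, Fa ++ [z], ta + ang a z b⟩ :: ⟨a, b, y, z :: Fb, tb + ang b a z⟩ ::
          (D ++ ⟨x, z, y', Fz ++ b :: a :: Fz', tz + ang z b a + tz'⟩ :: D'))

/-- Expansion of a marked boundary: every marked corner is replaced by its fan. -/
def expand : List (Corner V × Bool) → List V
  | [] => []
  | (c :: M) => (if c.2 then c.1.F else [c.1.v]) ++ expand M

/-- Number of triangles removed by the expansion. -/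
def cost : List (Corner V × Bool) → ℕ
  | [] => 0
  | (c :: M) => (if c.2 then c.1.F.length + 1 else 0) + cost M

/-- Marked labels are pairwise non-adjacent. -/
def MarksOK (G : SimpleGraph V) (M : List (Corner V × Bool)) : Prop :=
  M.Pairwise fun c c' => c.2 = true → c'.2 = true → ¬ G.Adj c.1.v c'.1.v

/-- `A` is the minimal area of `w`. -/
def MinA (G : SimpleGraph V) (A : ℕ) (w : List V) : Prop :=
  Null G A w ∧ ∀ k, Null G k w → A ≤ k

/-- `w` does not split into two shorter closed walks with total area at most `A`. -/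
def Irr (G : SimpleGraph V) (A : ℕ) (w : List V) : Prop :=
  ∀ (c : V) (s t : List V) (m n : ℕ), w ~r (c :: (s ++ c :: t)) → s ≠ [] → t ≠ [] →
    Null G m (c :: s) → Null G n (c :: t) → A < m + n

end Pool.Agent.MSF
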