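import Pool.Agent.MSF.Main

/-! Final assembly for MP_d6353f_al. -/

namespace Pool.Agent.MSF

open List

universe u v

theorem angle_congr {V : Type u} {G : SimpleGraph V} {len : V → V → ℝ} {f : V → V}
    (hlen : ∀ (a b : V), G.Adj a b → len (f a) (f b) = len a b) {v a b : V}
    (h1 : G.Adj v a) (h2 : G.Adj v b) (h3 : G.Adj a b) :
    angle len (f v) (f a) (f b) = angle len v a b := by
  simp only [angle, hlen _ _ h1, hlen _ _ h2, hlen _ _ h3]

theorem angled_of_ms (hLARGE : T_LARGE.{u}) (hTRIG : T_TRIG.{u}) {V : Type u}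
    {G : SimpleGraph V} {len : V → V → ℝ} (hX : MetricallySystolic G len) :
    Angled G (angle len) := by
  obtain ⟨h1, h2, h3⟩ := hTRIG G len hX.complex
  exact ⟨h1, h2, h3, hX.complex.link, hLARGE G len hX.complex hX.large h2⟩

theorem scon_univ_of_ms (hH2N : T_H2N.{u}) {V : Type u}
    {G : SimpleGraph V} {len : V → V → ℝ} (hX : MetricallySystolic G len) :
    SCon G Set.univ := by
  have hc := hX.simplyConn.1
  refine ⟨?_, ?_, ?_⟩
  · obtain ⟨v⟩ := hc.nonempty
    exact ⟨v, trivial⟩
  · intro a _ b _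
    rw [resG_univ]
    exact hc.preconnected a b
  · rw [resG_univ]
    exact hH2N G hX.simplyConn

theorem ms_of_scon (hN2H : T_N2H.{u}) (hIND : T_IND.{u}) (hMCI : T_MCI.{u}) {V : Type u}
    {G : SimpleGraph V} {len : V → V → ℝ} (hX : MetricallySystolic G len) {Y : Set V}
    (hY : SCon G Y) : MetricallySystolic (G.induce Y) (fun a b => len a b) := by
  obtain ⟨h1, h2⟩ := hMCI G len Y hX.complex hX.large
  obtain ⟨h3, h4⟩ := hIND G Y hY.ne hY.conn hY.sc
  exact ⟨h1, h2, hN2H _ h3 h4⟩

theorem isPoint_single {V : Type u} (G : SimpleGraph V) (v : V) :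
    IsPoint G (Finsupp.single v 1) where
  nonneg w := by
    classical
    rw [Finsupp.single_apply]
    split_ifs <;> norm_num
  sum_eq := by simp
  clique a b ha hb hab := by
    classical
    rw [Finsupp.single_apply] at ha hb
    split_ifs at ha hb with h1 h2
    · exact absurd (h1.symm.trans h2) hab
    · exact absurd rfl hb
    · exact absurd rfl ha
    · exact absurd rfl ha

theorem isPoint_mid {V : Type u} (G : SimpleGraph V) {v w : V} (hvw : G.Adj v w) :
    IsPoint G (Finsupp.single v (1 / 2) + Finsupp.single w (1 / 2)) where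
  nonneg x := by
    classical
    rw [Finsupp.add_apply, Finsupp.single_apply, Finsupp.single_apply]
    split_ifs <;> norm_num
  sum_eq := by
    rw [Finsupp.sum_add_index' (by simp) (by simp)]
    simp only [Finsupp.sum_single_index]
    norm_num
  clique a b ha hb hab := by
    classical
    rw [Finsupp.add_apply, Finsupp.single_apply, Finsupp.single_apply] at ha hb
    have ha' : v = a ∨ w = a := by
      by_contra hcon
      push Not at hcon
      simp [hcon.1, hcon.2] at ha
    have hb' : v = b ∨ w = b := by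
      by_contra hcon
      push Not at hcon
      simp [hcon.1, hcon.2] at hb
    rcases ha' with rfl | rfl <;> rcases hb' with rfl | rfl
    · exact absurd rfl hab
    · exact hvw
    · exact hvw.symm
    · exact absurd rfl hab

variable {V : Type u} {H : Type v} [Group H] [MulAction H V]

/-- Final step: an invariant vertex or an invariant edge. -/
theorem final_step (hT1 : T_T1.{u}) (hRes : T_RES.{u})
    {G : SimpleGraph V} {ang : V → V → V → ℝ} (hA : Angled G ang)
    (hadj : ∀ (h : H) (a b : V), G.Adj (h • a) (h • b) ↔ G.Adj a b)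
    (hang : ∀ (h : H) (v a b : V), G.Adj v a → G.Adj v b → G.Adj a b →
      ang (h • v) (h • a) (h • b) = ang v a b)
    (K : Subgroup H) (hK : K.index = 1 ∨ K.index = 2) (hS : SCon G (fixS V K)) :
    (∃ v : V, ∀ h : H, h • v = v) ∨
    ∃ v w : V, G.Adj v w ∧ ∀ h : H, (h • v = v ∧ h • w = w) ∨ (h • v = w ∧ h • w = v) := by
  rcases hK with hK | hK
  · have hK' : K = ⊤ := Subgroup.index_eq_one.1 hK
    obtain ⟨v, hv⟩ := hS.ne
    exact Or.inl ⟨v, fun h => hv h (by rw [hK']; trivial)⟩
  obtain ⟨a, ha⟩ : ∃ a : H, a ∉ K := by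
    by_contra hcon
    push Not at hcon
    have : K = ⊤ := by
      ext x; simp [hcon x]
    rw [this, Subgroup.index_top] at hK
    omega
  have hn : K.Normal := Subgroup.normal_of_index_eq_two hK
  have haa : a * a ∈ K := Subgroup.mul_self_mem_of_index_two hK a
  have hconj : ∀ k : H, a⁻¹ * k * a ∈ K ↔ k ∈ K := by
    intro k
    constructor
    · intro h
      have := hn.conj_mem _ h a
      have e : a * (a⁻¹ * k * a) * a⁻¹ = k := by group
      rwa [e] at this
    · intro h
      have := hn.conj_mem _ h a⁻¹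
      simpa using this
  have haav : ∀ v ∈ fixS V K, a • a • v = v := by
    intro v hv
    have := hv (a * a) haa
    rwa [mul_smul] at this
  have hmem : ∀ v, a • v ∈ fixS V K ↔ v ∈ fixS V K := fun v => smul_mem_fixS hconj v
  obtain ⟨v, hv, h⟩ := hT1 (resG G (fixS V K)) ang (hRes G ang _ hA) (fixS V K) hS.ne
    (fun a b h => h.2.1) hS.conn hS.sc _ (isAut_res (isAut_smul hadj hang a) hmem) hmem haav
  simp only [MulAction.toPerm_apply] at h
  have hdec : ∀ h : H, h ∉ K → a⁻¹ * h ∈ K := by
    intro h hh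
    rw [Subgroup.mul_mem_iff_of_index_two hK]
    constructor
    · intro h; exact absurd (by simpa using h) ha
    · intro h'; exact absurd h' hh
  have hout : ∀ h : H, h ∉ K → ∀ u ∈ fixS V K, h • u = a • u := by
    intro h hh u hu
    have h1 := hu _ (hdec h hh)
    have h2 : h • u = a • ((a⁻¹ * h) • u) := by rw [smul_smul]; congr 1; group
    rw [h2, h1]
  rcases h with h | h
  · refine Or.inl ⟨v, fun x => ?_⟩
    by_cases hx : x ∈ K
    · exact hv x hx
    · rw [hout x hx v hv, h]
  · refine Or.inr ⟨v, a • v, h.1, fun x => ?_⟩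
    by_cases hx : x ∈ K
    · exact Or.inl ⟨hv x hx, (hmem v).2 hv x hx⟩
    · refine Or.inr ⟨hout x hx v hv, ?_⟩
      rw [hout x hx _ ((hmem v).2 hv)]
      exact haav v hv

/-- Theorem A. -/
theorem main_A [Finite H] (hT1 : T_T1.{u}) (hT2 : T_T2.{u}) (hT3 : T_T3.{u})
    (hRES : T_RES.{u}) (hMCI : T_MCI.{u}) (hH2N : T_H2N.{u}) (hN2H : T_N2H.{u})
    (hIND : T_IND.{u}) (hLARGE : T_LARGE.{u}) (hTRIG : T_TRIG.{u})
    (G : SimpleGraph V) (len : V → V → ℝ) (hX : MetricallySystolic G len)
    (hH : IsPGroup 2 H)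
    (hadj : ∀ (h : H) (a b : V), G.Adj (h • a) (h • b) ↔ G.Adj a b)
    (hlen : ∀ (h : H) (a b : V), G.Adj a b → len (h • a) (h • b) = len a b)
    (K : Subgroup H) (hK : K.index ≤ 2)
    (hinv : ∀ k ∈ K, ∀ v : V, k • k • v = v → ¬ G.Adj v (k • v)) :
    (∃ φ : V →₀ ℝ, IsPoint G φ ∧ ∀ (h : H) (v : V), φ (h • v) = φ v) ∧
    MetricallySystolic (G.induce {v : V | ∀ k ∈ K, k • v = v}) (fun a b => len a b) := by
  have hA := angled_of_ms hLARGE hTRIG hX
  have hang : ∀ (h : H) (v a b : V), G.Adj v a → G.Adj v b → G.Adj a b →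
      angle len (h • v) (h • a) (h • b) = angle len v a b :=
    fun h v a b h1 h2 h3 => angle_congr (f := fun x => h • x) (hlen h) h1 h2 h3
  have : Fact (Nat.Prime 2) := ⟨Nat.prime_two⟩
  obtain ⟨n, hn⟩ := IsPGroup.iff_card.1 (hH.to_subgroup K)
  have hS : SCon G (fixS V K) :=
    group_induction hT1 hT2 hT3 hRES hA hadj hang (scon_univ_of_ms hH2N hX) n K hn hinv
  refine ⟨?_, ms_of_scon hN2H hIND hMCI hX hS⟩
  have hidx : K.index = 1 ∨ K.index = 2 := by
    have := K.index_ne_zero_of_finite
    omega
  rcases final_step hT1 hRES hA hadj hang K hidx hS with ⟨v, hv⟩ | ⟨v, w, hvw, h⟩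
  · refine ⟨_, isPoint_single G v, fun h x => ?_⟩
    classical
    rw [Finsupp.single_apply, Finsupp.single_apply]
    have : v = h • x ↔ v = x := by
      constructor
      · intro h1
        apply MulAction.injective h
        show h • v = h • x
        rw [hv h, h1]
      · rintro rfl; exact (hv h).symm
    simp only [this]
  · refine ⟨_, isPoint_mid G hvw, fun k x => ?_⟩
    classical
    simp only [Finsupp.add_apply, Finsupp.single_apply]
    rcases h k with ⟨h1, h2⟩ | ⟨h1, h2⟩
    · have e1 : v = k • x ↔ v = x := by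
        constructor
        · intro h3; apply MulAction.injective k; show k • v = k • x; rw [h1, h3]
        · rintro rfl; exact h1.symm
      have e2 : w = k • x ↔ w = x := by
        constructor
        · intro h3; apply MulAction.injective k; show k • w = k • x; rw [h2, h3]
        · rintro rfl; exact h2.symm
      simp only [e1, e2]
    · have e1 : v = k • x ↔ w = x := by
        constructor
        · intro h3; apply MulAction.injective k; show k • w = k • x; rw [h2, h3]
        · rintro rfl; exact h2.symm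
      have e2 : w = k • x ↔ v = x := by
        constructor
        · intro h3; apply MulAction.injective k; show k • v = k • x; rw [h1, h3]
        · rintro rfl; exact h1.symm
      simp only [e1, e2]
      rw [add_comm]

/-- Theorem B. -/
theorem main_B (hT2 : T_T2.{u}) (hT3 : T_T3.{u})
    (hMCI : T_MCI.{u}) (hH2N : T_H2N.{u}) (hN2H : T_N2H.{u})
    (hIND : T_IND.{u}) (hLARGE : T_LARGE.{u}) (hTRIG : T_TRIG.{u}) {V : Type u}
    (G : SimpleGraph V) (len : V → V → ℝ) (hX : MetricallySystolic G len)
    (g : Equiv.Perm V) (hadj : ∀ (a b : V), G.Adj (g a) (g b) ↔ G.Adj a b)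
    (hlen : ∀ (a b : V), G.Adj a b → len (g a) (g b) = len a b)
    (hno : ∀ v, ¬ G.Adj v (g v)) (hne : ∃ v, g v = v) :
    MetricallySystolic (G.induce {v : V | g v = v}) (fun a b => len a b) := by
  have hA := angled_of_ms hLARGE hTRIG hX
  have hg : IsAut G (angle len) g :=
    ⟨hadj, fun v a b h1 h2 h3 => angle_congr hlen h1 h2 h3⟩
  have hsupp : ∀ a b, G.Adj a b → a ∈ (Set.univ : Set V) := fun a b _ => trivial
  have hset : {v | v ∈ (Set.univ : Set V) ∧ g v = v} = {v | g v = v} := by
    ext v; simp
  have hconn : ∀ a ∈ (Set.univ : Set V), ∀ b ∈ (Set.univ : Set V), G.Reachable a b :=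
    fun a _ b _ => hX.simplyConn.1.preconnected a b
  have hsc := hH2N G hX.simplyConn
  have hS : SCon G {v | g v = v} := by
    refine ⟨hne, ?_, ?_⟩
    · intro a ha b hb
      have := hT2 G (angle len) hA Set.univ hsupp hconn hsc g hg (fun v _ => hno v) a trivial ha
        b trivial hb
      rwa [hset] at this
    · have := hT3 G (angle len) hA Set.univ hsupp hsc g hg (fun v _ => hno v)
      rwa [hset] at this
  exact ms_of_scon hN2H hIND hMCI hX hS

end Pool.Agent.MSF
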