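import Pool.Agent.MSF.Targets

/-! GLUE, GEN, CONE from ZIP. -/

namespace Pool.Agent.MSF

open List

universe u

namespace GLUE

variable {V : Type u} {G : SimpleGraph V}

/-- Cancel a path and its reverse. -/
theorem cancel (hZ : T_ZIP.{u}) {m : ℕ} {t : V} {X R : List V} (hXR : R ++ X ≠ []) :
    ∀ (Q : List V) (s : V), Null G m (X ++ t :: (Q.reverse ++ s :: (Q ++ t :: R))) →
      Null G m (X ++ t :: R) := by
  intro Q
  induction Q with
  | nil =>
    intro s h
    exact hZ G m t s X R hXR (by simpa using h)
  | cons q Q ih =>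
    intro s h
    apply ih q
    have h1 : Null G m ((X ++ t :: Q.reverse) ++ q :: s :: q :: (Q ++ t :: R)) := by
      simpa using h
    have h2 := hZ G m q s (X ++ t :: Q.reverse) (Q ++ t :: R) (by simp) h1
    simpa using h2

theorem fan : ∀ (F : List V) (x p q : V), List.IsChain G.Adj (p :: (F ++ [q])) →
    (∀ y ∈ p :: (F ++ [q]), G.Adj x y) →
    Null G (F.length + 1) (p :: x :: q :: F.reverse) := by
  intro F
  induction F with
  | nil =>
    intro x p q hc hx
    have hpq : G.Adj p q := by simpa using hc
    have h1 : G.Adj x p := hx p (by simp)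
    have h2 : G.Adj x q := hx q (by simp)
    simpa using Null.triangle h1.symm h2 hpq
  | cons f F ih =>
    intro x p q hc hx
    rw [List.cons_append, List.isChain_cons_cons] at hc
    have h1 : G.Adj x p := hx p (by simp)
    have h2 : G.Adj x f := hx f (by simp)
    have h3 := ih x f q hc.2 (fun y hy => hx y (List.mem_cons_of_mem _ (by simpa using hy)))
    have h4 : Null G (F.length + 1 + 1) ([] ++ f :: p :: x :: (q :: F.reverse)) :=
      Null.push (X := []) (Y := q :: F.reverse) h3 hc.1.symm h1.symm h2.symm
    have h5 : Null G (F.length + 1 + 1) ([f] ++ (p :: x :: q :: F.reverse)) := by simpa using h4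
    have h6 := h5.swap
    simpa using h6

end GLUE

theorem tGLUE (hZ : T_ZIP.{u}) : T_GLUE.{u} := by
  intro V G m n s t P Q R h h'
  have h1 : Null G (n + m) (s :: ((P ++ t :: Q.reverse) ++ s :: (Q ++ t :: R))) :=
    Null.split (by simp) (by simp) h' h
  have h2 : Null G (n + m) ((s :: P) ++ t :: (Q.reverse ++ s :: (Q ++ t :: R))) := by
    simpa using h1
  rw [Nat.add_comm]
  have h3 := GLUE.cancel hZ (X := s :: P) (R := R) (by simp) Q s h2
  simpa using h3

theorem tGEN (hZ : T_ZIP.{u}) : T_GEN.{u} := by
  intro V G m n a l l' hl hl' h h'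
  have h1 : Null G n (a :: l'.reverse) := by
    have h2 : Null G n (l'.reverse ++ [a]) := by simpa using h'.reverse
    simpa using h2.swap
  have h3 : Null G m ((a :: l) ++ (a :: l')) := by simpa using h
  have h4 : Null G m ((a :: l') ++ a :: l) := h3.swap
  have h5 : Null G (m + n) ((a :: l') ++ a :: (l'.reverse ++ a :: l)) :=
    Null.loop h4 h1 (by simp) (by simpa using hl')
  have h6 := GLUE.cancel (G := G) (m := m + n) hZ (t := a) (X := []) (R := l) (by simpa using hl)
    l'.reverse a (by simpa using h5)
  simpa using h6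

theorem tCONE (hZ : T_ZIP.{u}) : T_CONE.{u} := by
  intro V G k x p q F R hc hx h
  have h1 : Null G (F.length + 1) (p :: ([x] ++ q :: F.reverse)) := by
    simpa using GLUE.fan F x p q hc hx
  have h2 := tGLUE hZ G k (F.length + 1) p q [x] F R h h1
  simpa [Nat.add_assoc] using h2

end Pool.Agent.MSF
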