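import Pool.Agent.MSF.Targets

/-! H2N: from homotopies to null cyclic lists (MP_d6353f_al). -/

namespace Pool.Agent.MSF

open List

universe u

namespace H2N

variable {V : Type u} {G : SimpleGraph V}

theorem out {m : ℕ} {X : List V} {d : V} (hX : X ≠ []) (h : NullR G m (X ++ [d])) :
    ∃ l, l ≠ [] ∧ X = d :: l ∧ Null G m (d :: l) := by
  rcases h with ⟨a, ha⟩ | ⟨a, l, hl, he, h⟩
  · cases X with
    | nil => exact absurd rfl hX
    | cons x X => simp at ha
  · have h1 : X ++ [d] = (a :: l) ++ [a] := by simpa using he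
    obtain ⟨h2, h3⟩ := List.append_inj' h1 (by simp)
    have h4 : d = a := by simpa using h3
    subst h4
    exact ⟨l, hl, h2, h⟩

theorem into {m : ℕ} {l : List V} {d : V} (hl : l ≠ []) (h : Null G m (d :: l)) :
    NullR G m ((d :: l) ++ [d]) := Or.inr ⟨d, l, hl, by simp, h⟩

theorem into' {m : ℕ} {X : List V} {d : V} (hX : ∃ l, l ≠ [] ∧ X = d :: l) (h : Null G m X) :
    NullR G m (X ++ [d]) := by
  obtain ⟨l, hl, rfl⟩ := hX
  exact into hl h

/-- the head is kept when the tail part is changed -/
theorem head_eq {p r r' l : List V} {a d : V} (h : p ++ a :: r = d :: l) (hr : p ++ r' ≠ []) :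
    ∃ l', l' ≠ [] ∧ p ++ a :: r' = d :: l' := by
  cases p with
  | nil =>
    simp only [List.nil_append, List.cons.injEq] at h
    exact ⟨r', by simpa using hr, by simp [h.1]⟩
  | cons x p =>
    simp only [List.cons_append, List.cons.injEq] at h
    exact ⟨p ++ a :: r', by simp, by simp [h.1]⟩

theorem spur_back (hZ : T_ZIP.{u}) {m : ℕ} {p q : List V} {a b : V}
    (h : NullR G m (p ++ a :: b :: a :: q)) : NullR G m (p ++ a :: q) := by
  rcases List.eq_nil_or_concat q with rfl | ⟨q1, c, rfl⟩
  · have h1 : NullR G m ((p ++ [a, b]) ++ [a]) := by simpa using h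
    obtain ⟨l, hl, he, hn⟩ := out (by simp) h1
    cases p with
    | nil => exact Or.inl ⟨a, by simp⟩
    | cons x p =>
      simp only [List.cons_append, List.cons.injEq] at he
      obtain ⟨rfl, rfl⟩ := he
      have h2 : Null G m (p ++ x :: b :: x :: []) := by
        simpa using hn.rot
      by_cases hp : p = []
      · subst hp
        exact (CW.not_adj_self (X := []) (a := x) (Y := [b]) (by simpa using hn.cw)).elim
      · have h3 : Null G m (p ++ x :: []) := hZ G m x b p [] (by simpa using hp) h2
        have h4 : Null G m (x :: p) := by simpa using h3.swap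
        exact Or.inr ⟨x, p, hp, by simp, h4⟩
  · have h1 : NullR G m ((p ++ a :: b :: a :: q1) ++ [c]) := by simpa using h
    obtain ⟨l, hl, he, hn⟩ := out (by simp) h1
    rw [← he] at hn
    by_cases hpq : q1 ++ p = []
    · obtain ⟨rfl, rfl⟩ := List.append_eq_nil_iff.1 hpq
      exact (CW.not_adj_self (X := []) (a := a) (Y := [b])
        ((hn.cw).rotated ⟨2, by simp [List.rotate]⟩)).elim
    · have h2 := hZ G m a b p q1 hpq hn
      have h3 := into' (head_eq he (r' := q1) (by
        intro h0; apply hpq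
        obtain ⟨rfl, rfl⟩ := List.append_eq_nil_iff.1 h0
        rfl)) h2
      simpa using h3

theorem tri_fwd {m : ℕ} {p q : List V} {a b c : V} (hab : G.Adj a b) (hbc : G.Adj b c)
    (hac : G.Adj a c) (h : NullR G m (p ++ a :: c :: q)) :
    NullR G (m + 1) (p ++ a :: b :: c :: q) := by
  rcases List.eq_nil_or_concat q with rfl | ⟨q1, d, rfl⟩
  · have h1 : NullR G m ((p ++ [a]) ++ [c]) := by simpa using h
    obtain ⟨l, hl, he, hn⟩ := out (by simp) h1
    cases p with
    | nil =>
      simp only [List.nil_append, List.cons.injEq] at he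
      exact absurd he.2.symm hl
    | cons x p =>
      simp only [List.cons_append, List.cons.injEq] at he
      obtain ⟨rfl, rfl⟩ := he
      have h2 : Null G m ([] ++ a :: x :: p) := by
        have : Null G m ((x :: p) ++ [a]) := by simpa using hn
        simpa using this.swap
      have h3 := h2.push hab hbc hac
      have h4 : Null G (m + 1) (x :: (p ++ [a, b])) := by
        have : Null G (m + 1) ([a, b] ++ (x :: p)) := by simpa using h3
        simpa using this.swap
      exact Or.inr ⟨x, p ++ [a, b], by simp, by simp, h4⟩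
  · have h1 : NullR G m ((p ++ a :: c :: q1) ++ [d]) := by simpa using h
    obtain ⟨l, hl, he, hn⟩ := out (by simp) h1
    rw [← he] at hn
    have h2 := hn.push hab hbc hac
    have h3 := into' (head_eq he (r' := b :: c :: q1) (by simp)) h2
    simpa using h3

theorem tri_back {m : ℕ} {p q : List V} {a b c : V} (hab : G.Adj a b) (hbc : G.Adj b c)
    (hac : G.Adj a c) (h : NullR G m (p ++ a :: b :: c :: q)) :
    NullR G (m + 1) (p ++ a :: c :: q) := by
  rcases List.eq_nil_or_concat q with rfl | ⟨q1, d, rfl⟩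
  · have h1 : NullR G m ((p ++ [a, b]) ++ [c]) := by simpa using h
    obtain ⟨l, hl, he, hn⟩ := out (by simp) h1
    cases p with
    | nil =>
      simp only [List.nil_append, List.cons.injEq] at he
      rw [he.1] at hac
      exact (G.loopless.irrefl _ hac).elim
    | cons x p =>
      simp only [List.cons_append, List.cons.injEq] at he
      obtain ⟨rfl, rfl⟩ := he
      have h2 : Null G m (a :: b :: x :: p) := by
        have : Null G m ((x :: p) ++ [a, b]) := by simpa using hn
        simpa using this.swap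
      have h3 : Null G (m + 1) (a :: x :: p) := Null.tri hac hab hbc h2
      have h4 : Null G (m + 1) (x :: (p ++ [a])) := by simpa using h3.rot
      exact Or.inr ⟨x, p ++ [a], by simp, by simp, h4⟩
  · have h1 : NullR G m ((p ++ a :: b :: c :: q1) ++ [d]) := by simpa using h
    obtain ⟨l, hl, he, hn⟩ := out (by simp) h1
    rw [← he] at hn
    have h2 := hn.triAt hac hab hbc
    have h3 := into' (head_eq he (r' := c :: q1) (by simp)) h2
    simpa using h3

theorem elem_iff (hZ : T_ZIP.{u}) {P P' : List V} (h : Elem G P P') :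
    (∃ m, NullR G m P) ↔ ∃ m, NullR G m P' := by
  cases h with
  | spur p q a b hab =>
    refine ⟨fun ⟨m, h⟩ => ⟨m + 0, ?_⟩, fun ⟨m, h⟩ => ⟨m, spur_back hZ h⟩⟩
    simpa using h.loop (Null.dig hab) (by simp)
  | tri p q a b c hab hbc hac =>
    exact ⟨fun ⟨m, h⟩ => ⟨m + 1, tri_fwd hab hbc hac h⟩,
      fun ⟨m, h⟩ => ⟨m + 1, tri_back hab hbc hac h⟩⟩

theorem eqv_iff (hZ : T_ZIP.{u}) {P P' : List V} (h : Relation.EqvGen (Elem G) P P') :
    (∃ m, NullR G m P) ↔ ∃ m, NullR G m P' := by
  induction h with
  | rel _ _ h => exact elem_iff hZ h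
  | refl _ => exact Iff.rfl
  | symm _ _ _ ih => exact ih.symm
  | trans _ _ _ _ _ ih ih' => exact ih.trans ih'

end H2N

theorem tH2N (hZ : T_ZIP.{u}) : T_H2N.{u} := by
  intro V G hS w hw
  match w, hw with
  | [a], _ => exact ⟨0, Null.pt a⟩
  | (a :: b :: l), hw =>
    have h1 := hS.2 a (b :: l) hw
    obtain ⟨m, h2⟩ := (H2N.eqv_iff hZ h1).2 ⟨0, Or.inl ⟨a, rfl⟩⟩
    have h3 : NullR G m ((a :: b :: l) ++ [a]) := by simpa using h2
    obtain ⟨l', _, he, hn⟩ := H2N.out (by simp) h3
    exact ⟨m, by rw [he]; exact hn⟩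

end Pool.Agent.MSF
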