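import Pool.Agent.MSF.Targets

/-! LARGE: a closed walk in a link all of whose ears are at two consecutive positions is long. -/

namespace Pool.Agent.MSF

open List

universe u

namespace LARGE

variable {V : Type u} {G : SimpleGraph V} {ang : V → V → V → ℝ}

theorem plen_cons_cons (v a b : V) (l : List V) :
    plen ang v (a :: b :: l) = ang v a b + plen ang v (b :: l) := rfl

theorem plen_single (v a : V) : plen ang v [a] = 0 := rfl

theorem plen_append (v : V) (X : List V) (a : V) (Y : List V) :
    plen ang v (X ++ a :: Y) = plen ang v (X ++ [a]) + plen ang v (a :: Y) := by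
  induction X with
  | nil => simp [plen_single]
  | cons x X ih =>
    cases X with
    | nil => simp [plen_cons_cons, plen_single]
    | cons y X =>
      simp only [List.cons_append, plen_cons_cons] at ih ⊢
      rw [ih]; ring

theorem plen_reverse (v : V) (hs : ∀ a b, ang v a b = ang v b a) (L : List V) :
    plen ang v L.reverse = plen ang v L := by
  induction L with
  | nil => rfl
  | cons a L ih =>
    cases L with
    | nil => rfl
    | cons b L =>
      have : (a :: b :: L).reverse = L.reverse ++ b :: [a] := by simp
      rw [this, plen_append, plen_cons_cons, plen_cons_cons, plen_single, ← ih, hs b a]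
      simp only [List.reverse_cons]
      ring

theorem plen_nonneg (v : V) (hp : ∀ a b, G.Adj v a → G.Adj v b → G.Adj a b → 0 < ang v a b)
    (L : List V) (hc : List.IsChain G.Adj L) (hl : ∀ x ∈ L, G.Adj v x) : 0 ≤ plen ang v L := by
  induction L with
  | nil => exact le_refl _
  | cons a L ih =>
    cases L with
    | nil => exact le_refl _
    | cons b L =>
      rw [plen_cons_cons]
      rw [List.isChain_cons_cons] at hc
      have h1 := ih hc.2 (fun x hx => hl x (List.mem_cons_of_mem _ hx))
      have h2 := hp a b (hl a (by simp)) (hl b (by simp)) hc.1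
      linarith

theorem noEar_infix {X L Y : List V} (h : NoEar G (X ++ (L ++ Y))) : NoEar G L := by
  intro X' x y z Y' he
  subst he
  exact h (X ++ X') x y z (Y' ++ Y) (by simp)

theorem noEar_rev {L : List V} (h : NoEar G L) : NoEar G L.reverse := by
  intro X x y z Y he
  have := h Y.reverse z y x X.reverse (by
    have := congrArg List.reverse he
    simpa using this)
  exact ⟨fun h => this.1 h.symm, fun h => this.2 h.symm⟩

theorem noEar_cons {x y z : V} {L : List V} (h1 : x ≠ z ∧ ¬ G.Adj x z)
    (h2 : NoEar G (y :: z :: L)) : NoEar G (x :: y :: z :: L) := by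
  intro X x' y' z' Y he
  cases X with
  | nil =>
    simp only [List.nil_append, List.cons.injEq] at he
    obtain ⟨rfl, rfl, rfl, rfl⟩ := he
    exact h1
  | cons w X =>
    simp only [List.cons_append, List.cons.injEq] at he
    exact h2 X x' y' z' Y he.2

theorem plen_sum (v : V) (d : V) (P : List V) :
    plen ang v P = ∑ i ∈ Finset.range (P.length - 1), ang v (P.getD i d) (P.getD (i + 1) d) := by
  induction P with
  | nil => simp [plen]
  | cons a P ih =>
    cases P with
    | nil => simp [plen]
    | cons b P =>
      rw [plen_cons_cons, ih]
      simp only [List.length_cons, Nat.add_sub_cancel]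
      rw [Finset.sum_range_succ']
      simp only [List.getD_cons_succ, List.getD_cons_zero]
      ring

theorem chain_getD {R : V → V → Prop} (d : V) (P : List V) (h : List.IsChain R P) (i : ℕ)
    (hi : i + 1 < P.length) : R (P.getD i d) (P.getD (i + 1) d) := by
  induction P generalizing i with
  | nil => simp at hi
  | cons a P ih =>
    cases P with
    | nil => simp at hi
    | cons b P =>
      rw [List.isChain_cons_cons] at h
      cases i with
      | zero => simpa using h.1
      | succ i =>
        have := ih h.2 i (by simpa using hi)
        simpa only [List.getD_cons_succ] using this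

theorem noEar_getD (d : V) (P : List V) (h : NoEar G P) (i : ℕ)
    (hi : i + 2 < P.length) : ¬ G.Adj (P.getD i d) (P.getD (i + 2) d) := by
  have e1 : P.drop i = P.getD i d :: P.getD (i + 1) d :: P.getD (i + 2) d :: P.drop (i + 3) := by
    rw [List.getD_eq_getElem _ _ (by omega), List.getD_eq_getElem _ _ (by omega),
      List.getD_eq_getElem _ _ (by omega)]
    rw [List.drop_eq_getElem_cons (by omega), List.drop_eq_getElem_cons (by omega),
      List.drop_eq_getElem_cons (by omega)]
  have e2 : P = P.take i ++ P.getD i d :: P.getD (i + 1) d :: P.getD (i + 2) d ::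
      P.drop (i + 3) := by
    rw [← e1, List.take_append_drop]
  exact (h _ _ _ _ _ e2).2

/-- The simple cycle case. -/
theorem simple (len : V → V → ℝ) (v : V) (hL : IsLarge G len v) (a b : V) (l : List V)
    (hlen : 2 ≤ l.length) (hcw : CW G (a :: b :: l)) (hl : ∀ x ∈ a :: b :: l, G.Adj v x)
    (hnd : (a :: b :: l).Nodup) (hne : NoEar G (a :: b :: (l ++ [a, b]))) :
    2 * Real.pi ≤ clen (angle len) v (a :: b :: l) := by
  set L : List V := a :: b :: l with hLdef
  set k := L.length with hk
  have hk2 : k = l.length + 2 := by simp [hk, hLdef]
  have hk4 : 4 ≤ k := by omega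
  set M : List V := L ++ [a, b] with hM
  have hMl : M.length = k + 2 := by simp [hM, hk]
  have hMc : List.IsChain G.Adj M := by
    have h1 : List.IsChain G.Adj (L ++ [a]) := by
      simpa [CW, hLdef] using hcw
    have h2 : List.IsChain G.Adj ((L ++ [a]) ++ [b]) := by
      rw [List.isChain_append]
      refine ⟨h1, by simp, ?_⟩
      intro x hx y hy
      have hx' : x = a := by simpa using hx.symm
      have hy' : y = b := by simpa using hy.symm
      subst hx' hy'
      rw [hLdef] at h1
      simp only [List.cons_append, List.isChain_cons_cons] at h1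
      exact h1.1
    simpa [hM] using h2
  have hMe : NoEar G M := by
    have : M = a :: b :: (l ++ [a, b]) := by simp [hM, hLdef]
    rw [this]; exact hne
  let c : ℕ → V := fun i => L.getD (i % k) a
  have hc : ∀ i, i < k → c i = L.getD i a := by
    intro i hi
    simp only [c, Nat.mod_eq_of_lt hi]
  have hcM : ∀ i, i < k → M.getD i a = L.getD i a := by
    intro i hi
    rw [hM, List.getD_append _ _ _ _ (by rw [← hk]; exact hi)]
  have hM0 : M.getD k a = a := by
    rw [hM, List.getD_append_right _ _ _ _ (le_of_eq hk.symm)]
    simp [← hk]
  have hM1 : M.getD (k + 1) a = b := by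
    rw [hM, List.getD_append_right _ _ _ _ (by omega)]
    simp [← hk]
  have hper : ∀ i, c (i + k) = c i := by
    intro i
    simp only [c, Nat.add_mod_right]
  have key : ∀ i, i < k → M.getD i a = c i ∧ M.getD (i + 1) a = c (i + 1) ∧
      M.getD (i + 2) a = c (i + 2) := by
    have h0 : c k = a := by
      have := hper 0
      rw [Nat.zero_add] at this
      rw [this, hc 0 (by omega)]
      simp [hLdef]
    have h1 : c (k + 1) = b := by
      have := hper 1
      rw [Nat.add_comm] at this
      rw [this, hc 1 (by omega)]
      simp [hLdef]
    have hall : ∀ i, i < k + 2 → M.getD i a = c i := by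
      intro i hi
      rcases Nat.lt_or_ge i k with h | h
      · rw [hcM i h, hc i h]
      · rcases Nat.eq_or_lt_of_le h with h | h
        · rw [← h, hM0, h0]
        · have : i = k + 1 := by omega
          rw [this, hM1, h1]
    intro i hi
    exact ⟨hall i (by omega), hall _ (by omega), hall _ (by omega)⟩
  have hmod : ∀ i, c i = c (i % k) ∧ c (i + 1) = c (i % k + 1) ∧ c (i + 2) = c (i % k + 2) := by
    intro i
    simp only [c]
    refine ⟨by rw [Nat.mod_mod], by rw [Nat.mod_add_mod], by rw [Nat.mod_add_mod]⟩
  have hmem : ∀ i, c i ∈ L := by
    intro i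
    simp only [c]
    rw [List.getD_eq_getElem _ _ (Nat.mod_lt _ (by omega))]
    exact List.getElem_mem _
  have hsum := hL k c hk4 hper ?_ (fun i => hl _ (hmem i)) ?_ ?_
  · refine hsum.trans (le_of_eq ?_)
    have e : clen (angle len) v L = plen (angle len) v (L ++ [a]) := by
      simp [hLdef, clen]
    rw [e, plen_sum v a]
    have e2 : (L ++ [a]).length - 1 = k := by simp [hk]
    rw [e2]
    refine Finset.sum_congr rfl fun i hi => ?_
    have hi' := Finset.mem_range.1 hi
    have hMp : M = (L ++ [a]) ++ [b] := by simp [hM]
    have e3 : ∀ j, j < k + 1 → (L ++ [a]).getD j a = M.getD j a := by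
      intro j hj
      rw [hMp]
      exact (List.getD_append _ _ _ _ (by
        rw [List.length_append, List.length_singleton, ← hk]; exact hj)).symm
    rw [e3 i (by omega), e3 (i + 1) (by omega), (key i hi').1, (key i hi').2.1]
  · intro i hi j hj hij
    have hi' : i < k := hi
    have hj' : j < k := hj
    rw [hc i hi', hc j hj', List.getD_eq_getElem _ _ (by omega),
      List.getD_eq_getElem _ _ (by omega)] at hij
    exact (List.Nodup.getElem_inj_iff hnd).1 hij
  · intro i
    have hlt : i % k < k := Nat.mod_lt _ (by omega)
    have := chain_getD a M hMc (i % k) (by omega)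
    rw [(key _ hlt).1, (key _ hlt).2.1] at this
    rw [(hmod i).1, (hmod i).2.1]
    exact this
  · intro i
    have hlt : i % k < k := Nat.mod_lt _ (by omega)
    have := noEar_getD a M hMe (i % k) (by omega)
    rw [(key _ hlt).1, (key _ hlt).2.2] at this
    rw [(hmod i).1, (hmod i).2.2]
    exact this

/-- The statement for lists of length `n`. -/
def Claim (G : SimpleGraph V) (ang : V → V → V → ℝ) (v : V) (n : ℕ) : Prop :=
  ∀ a b l, (a :: b :: l).length = n → 2 ≤ l.length → CW G (a :: b :: l) →
    (∀ x ∈ a :: b :: l, G.Adj v x) → NoEar G (b :: (l ++ [a])) →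
    2 * Real.pi ≤ clen ang v (a :: b :: l)

/-- An ear at `b`. -/
theorem ear_b (v : V) (hp : ∀ a b, G.Adj v a → G.Adj v b → G.Adj a b → 0 < ang v a b)
    (hlk : ∀ a b c, G.Adj v a → G.Adj v b → G.Adj v c → G.Adj a b → G.Adj b c → G.Adj a c →
      ang v a c ≤ ang v a b + ang v b c) (n : ℕ)
    (ih : ∀ m < n, Claim G ang v m) (a b c : V) (l : List V)
    (hn : (a :: b :: c :: l).length = n) (hl2 : 1 ≤ l.length) (hcw : CW G (a :: b :: c :: l))
    (hl : ∀ x ∈ a :: b :: c :: l, G.Adj v x) (hne : NoEar G (b :: ((c :: l) ++ [a])))
    (he : a = c ∨ G.Adj a c) : 2 * Real.pi ≤ clen ang v (a :: b :: c :: l) := by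
  have hch : List.IsChain G.Adj (a :: b :: c :: (l ++ [a])) := by simpa [CW] using hcw
  rw [List.isChain_cons_cons, List.isChain_cons_cons] at hch
  obtain ⟨hab, hbc, hch⟩ := hch
  have hva : G.Adj v a := hl a (by simp)
  have hvb : G.Adj v b := hl b (by simp)
  have hvc : G.Adj v c := hl c (by simp)
  have hcl : clen ang v (a :: b :: c :: l) = ang v a b + (ang v b c + plen ang v (c :: (l ++ [a]))) := by
    simp [clen, plen_cons_cons]
  rcases he with rfl | he
  · -- `a = c`
    cases l with
    | nil => simp at hl2
    | cons d l =>
      cases l with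
      | nil =>
        exact absurd rfl (hne [b] a d a [] (by simp)).1
      | cons e l =>
        cases l with
        | nil =>
          have hea : G.Adj e a := by
            simp only [List.cons_append, List.nil_append, List.isChain_cons_cons] at hch
            exact hch.2.2.1
          exact absurd hea.symm (hne [b] a d e [a] (by simp)).2
        | cons f l =>
          have h1 := ih (a :: d :: e :: f :: l).length (by rw [← hn]; simp) a d (e :: f :: l) rfl
            (by simp) (by simpa [CW] using hch)
            (fun x hx => hl x (by
              simp only [List.mem_cons] at hx ⊢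
              tauto))
            (noEar_infix (X := [b, a]) (Y := []) (by simpa using hne))
          have h2 : clen ang v (a :: d :: e :: f :: l) =
              plen ang v (a :: ((d :: e :: f :: l) ++ [a])) := rfl
          rw [h2] at h1
          rw [hcl]
          have h3 := hp a b hva hvb hab
          have h4 := hp b a hvb hva hab.symm
          linarith
  · -- `a ~ c`
    cases l with
    | nil => simp at hl2
    | cons d l =>
      cases l with
      | nil =>
        exact absurd he.symm (hne [b] c d a [] (by simp)).2
      | cons e l =>
        have h1 := ih (a :: c :: d :: e :: l).length (by rw [← hn]; simp) a c (d :: e :: l) rfl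
            (by simp) (by
              have : List.IsChain G.Adj (a :: c :: (d :: e :: l ++ [a])) := by
                rw [List.isChain_cons_cons]
                exact ⟨he, hch⟩
              simpa [CW] using this)
            (fun x hx => hl x (by
              simp only [List.mem_cons] at hx ⊢
              tauto))
            (noEar_infix (X := [b]) (Y := []) (by simpa using hne))
        have h2 : clen ang v (a :: c :: d :: e :: l) =
              ang v a c + plen ang v (c :: ((d :: e :: l) ++ [a])) := rfl
        rw [h2] at h1
        rw [hcl]
        have h3 := hlk a b c hva hvb hvc hab hbc he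
        linarith

theorem main (len : V → V → ℝ) (v : V) (hL : IsLarge G len v)
    (hs : ∀ a b, angle len v a b = angle len v b a)
    (hp : ∀ a b, G.Adj v a → G.Adj v b → G.Adj a b → 0 < angle len v a b)
    (hlk : ∀ a b c, G.Adj v a → G.Adj v b → G.Adj v c → G.Adj a b → G.Adj b c → G.Adj a c →
      angle len v a c ≤ angle len v a b + angle len v b c) (n : ℕ) :
    Claim G (angle len) v n := by
  induction n using Nat.strong_induction_on with
  | _ n ih =>
    intro a b l hn hl2 hcw hl hne
    have hch : List.IsChain G.Adj ((a :: b :: l) ++ [a]) := by simpa [CW] using hcw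
    by_cases hE : ∃ c l', l = c :: l' ∧ (a = c ∨ G.Adj a c)
    · obtain ⟨c, l', rfl, he⟩ := hE
      exact ear_b v hp hlk n ih a b c l' hn (by simpa using hl2) hcw hl hne he
    -- no ear at `b`
    have hneb : NoEar G (a :: b :: (l ++ [a])) := by
      cases l with
      | nil => simp at hl2
      | cons c l' =>
        refine noEar_cons ?_ hne
        refine ⟨fun h => hE ⟨c, l', rfl, Or.inl h⟩, fun h => hE ⟨c, l', rfl, Or.inr h⟩⟩
    by_cases hnd : (a :: b :: l).Nodup
    swap
    · -- a repeated vertex
      obtain ⟨x, hx⟩ : ∃ x, [x, x] <+ a :: b :: l := by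
        by_contra h
        push Not at h
        exact hnd (List.nodup_iff_sublist.2 h)
      obtain ⟨X, s, Y, hXY⟩ : ∃ X s Y, a :: b :: l = X ++ x :: (s ++ x :: Y) := by
        rw [List.cons_sublist_iff] at hx
        obtain ⟨r₁, r₂, h1, h2, h3⟩ := hx
        obtain ⟨X, s, rfl⟩ := List.append_of_mem h2
        rw [List.singleton_sublist] at h3
        obtain ⟨s', Y, rfl⟩ := List.append_of_mem h3
        exact ⟨X, s ++ s', Y, by rw [h1]; simp⟩
      have hch' : List.IsChain G.Adj (X ++ ((x :: (s ++ [x])) ++ (Y ++ [a]))) := by
        have : (X ++ ((x :: (s ++ [x])) ++ (Y ++ [a]))) = (a :: b :: l) ++ [a] := by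
          rw [hXY]; simp
        rw [this]; exact hch
      have hne' : NoEar G (X ++ ((x :: (s ++ [x])) ++ (Y ++ [a]))) := by
        have : (X ++ ((x :: (s ++ [x])) ++ (Y ++ [a]))) = a :: b :: (l ++ [a]) := by
          have : a :: b :: (l ++ [a]) = (a :: b :: l) ++ [a] := by simp
          rw [this, hXY]; simp
        rw [this]; exact hneb
      have hmem : ∀ y ∈ X ++ ((x :: (s ++ [x])) ++ (Y ++ [a])), G.Adj v y := by
        have : (X ++ ((x :: (s ++ [x])) ++ (Y ++ [a]))) = (a :: b :: l) ++ [a] := by
          rw [hXY]; simp
        rw [this]
        intro y hy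
        rw [List.mem_append] at hy
        rcases hy with hy | hy
        · exact hl y hy
        · have : y = a := by simpa using hy
          subst this
          exact hl y (by simp)
      have hchs : List.IsChain G.Adj (x :: (s ++ [x])) :=
        ((List.isChain_append.1 (List.isChain_append.1 hch').2.1)).1
      have hnes : NoEar G (x :: (s ++ [x])) := noEar_infix hne'
      have hmems : ∀ y ∈ x :: (s ++ [x]), G.Adj v y := by
        intro y hy
        exact hmem y (List.mem_append_right _ (List.mem_append_left _ hy))
      -- the loop is long
      have hloop : 2 * Real.pi ≤ plen (angle len) v (x :: (s ++ [x])) := by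
        match s, hchs, hnes, hmems, hXY with
        | [], hchs, _, _, _ =>
          simp only [List.nil_append, List.isChain_cons_cons] at hchs
          exact absurd hchs.1 (G.loopless.irrefl x)
        | [y], _, hnes, _, _ =>
          exact absurd rfl (hnes [] x y x [] (by simp)).1
        | [y, z], hchs, hnes, _, _ =>
          simp only [List.cons_append, List.nil_append, List.isChain_cons_cons] at hchs
          exact absurd hchs.2.2.1.symm (hnes [] x y z [x] (by simp)).2
        | y :: z :: w :: s, hchs, hnes, hmems, hXY =>
          have := ih (x :: y :: z :: w :: s).length (by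
              rw [← hn, hXY]
              simp only [List.length_append, List.length_cons]
              omega) x y (z :: w :: s) rfl (by simp)
            (by simpa [CW] using hchs)
            (fun u hu => hmems u (by
              simp only [List.mem_cons, List.mem_append, List.cons_append] at hu ⊢
              tauto))
            (noEar_infix (X := [x]) (Y := []) (by simpa using hnes))
          exact this
      have e1 : clen (angle len) v (a :: b :: l) = plen (angle len) v ((a :: b :: l) ++ [a]) := rfl
      have e2 : (a :: b :: l) ++ [a] = X ++ x :: (s ++ x :: (Y ++ [a])) := by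
        rw [hXY]; simp
      have e3 : x :: (s ++ x :: (Y ++ [a])) = (x :: s) ++ x :: (Y ++ [a]) := by simp
      rw [e1, e2, plen_append v X x, e3, plen_append v (x :: s) x]
      have h1 : 0 ≤ plen (angle len) v (X ++ [x]) := by
        refine plen_nonneg v hp _ ?_ ?_
        · have : X ++ ((x :: (s ++ [x])) ++ (Y ++ [a])) = (X ++ [x]) ++ ((s ++ [x]) ++ (Y ++ [a])) := by
            simp
          rw [this] at hch'
          exact (List.isChain_append.1 hch').1
        · intro y hy
          refine hmem y ?_
          simp only [List.mem_append, List.mem_cons] at hy ⊢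
          tauto
      have h2 : 0 ≤ plen (angle len) v (x :: (Y ++ [a])) := by
        refine plen_nonneg v hp _ ?_ ?_
        · have : X ++ ((x :: (s ++ [x])) ++ (Y ++ [a])) = (X ++ x :: s) ++ (x :: (Y ++ [a])) := by
            simp
          rw [this] at hch'
          exact (List.isChain_append.1 hch').2.1
        · intro y hy
          refine hmem y ?_
          simp only [List.mem_append, List.mem_cons] at hy ⊢
          tauto
      have h3 : 2 * Real.pi ≤ plen (angle len) v (x :: s ++ [x]) := hloop
      linarith
    -- an ear at `a`?
    by_cases hE' : ∃ c l', l = l' ++ [c] ∧ (b = c ∨ G.Adj b c)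
    · obtain ⟨c, l', rfl, he⟩ := hE'
      have e : clen (angle len) v (a :: b :: (l' ++ [c])) =
          clen (angle len) v (b :: a :: c :: l'.reverse) := by
        have e1 : clen (angle len) v (a :: b :: (l' ++ [c])) =
          angle len v a b + plen (angle len) v (b :: (l' ++ [c]) ++ [a]) := rfl
        have e2 : clen (angle len) v (b :: a :: c :: l'.reverse) =
          angle len v b a + plen (angle len) v (a :: c :: l'.reverse ++ [b]) := rfl
        have e3 : a :: c :: l'.reverse ++ [b] = (b :: (l' ++ [c]) ++ [a]).reverse := by simp
        rw [e1, e2, e3, plen_reverse v hs, hs a b]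
      rw [e]
      refine ear_b v hp hlk n ih b a c l'.reverse (by rw [← hn]; simp) (by simpa using hl2) ?_ ?_ ?_
        he
      · have h1 : List.IsChain G.Adj ((a :: b :: (l' ++ [c])) ++ [a]).reverse := by
          rw [List.isChain_reverse]
          refine hch.imp ?_
          intro x y h
          exact h.symm
        have h2 : CW G (a :: ((c :: l'.reverse) ++ [b])) := by
          rw [CW_cons (by simp)]
          simpa using h1
        have h3 : CW G (((c :: l'.reverse) ++ [b]) ++ [a]) := h2.rot
        have h4 : (b :: a :: c :: l'.reverse) ~r ((c :: l'.reverse) ++ [b, a]) := by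
          have := List.isRotated_append (l := [b, a]) (l' := c :: l'.reverse)
          simpa using this
        exact h3.rotated (by simpa using h4.symm)
      · intro x hx
        refine hl x ?_
        simp only [List.mem_cons, List.mem_append, List.mem_reverse] at hx ⊢
        tauto
      · have : a :: (c :: l'.reverse ++ [b]) = (b :: (l' ++ [c] ++ [a])).reverse := by simp
        rw [this]
        exact noEar_rev hne
    · refine simple len v hL a b l hl2 hcw hl hnd ?_
      obtain ⟨l', c, rfl⟩ : ∃ l' c, l = l' ++ [c] := by
        rcases List.eq_nil_or_concat l with h | ⟨l', c, h⟩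
        · subst h; simp at hl2
        · exact ⟨l', c, by simpa using h⟩
      have h1 : NoEar G ((a :: b :: (l' ++ [c] ++ [a, b])).reverse) := by
        have : (a :: b :: (l' ++ [c] ++ [a, b])).reverse = b :: a :: c :: (l'.reverse ++ [b, a]) := by
          simp
        rw [this]
        refine noEar_cons ?_ ?_
        · exact ⟨fun h => hE' ⟨c, l', rfl, Or.inl h⟩, fun h => hE' ⟨c, l', rfl, Or.inr h⟩⟩
        · have : a :: c :: (l'.reverse ++ [b, a]) = (a :: b :: (l' ++ [c] ++ [a])).reverse := by simp
          rw [this]
          exact noEar_rev hneb
      simpa using noEar_rev h1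

end LARGE

theorem tLARGE : T_LARGE.{u} := by
  intro V G len hM hL hp v a b l hl2 hcw hl hne
  refine LARGE.main len v (hL v) ?_ (fun a b => hp v a b) (fun a b c => hM.link v a b c)
    (a :: b :: l).length a b l rfl hl2 hcw hl hne
  intro a b
  unfold angle
  rw [hM.symm a b]
  congr 1
  ring

end Pool.Agent.MSF
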