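import Pool.Agent.MSF.Targets

/-! Group induction and assembly for MP_d6353f_al. -/

namespace Pool.Agent.MSF

open List

universe u v

section

variable {V : Type u}

/-- The full subcomplex on `S` is nonempty, connected and simply connected. -/
structure SCon (G : SimpleGraph V) (S : Set V) : Prop where
  ne : S.Nonempty
  conn : ∀ a ∈ S, ∀ b ∈ S, (resG G S).Reachable a b
  sc : ∀ w, CW (resG G S) w → ∃ A, Null (resG G S) A w

theorem resG_resG (G : SimpleGraph V) {S Y : Set V} (h : Y ⊆ S) :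
    resG (resG G S) Y = resG G Y := by
  ext a b
  simp only [resG]
  constructor
  · rintro ⟨⟨h1, -, -⟩, h2, h3⟩
    exact ⟨h1, h2, h3⟩
  · rintro ⟨h1, h2, h3⟩
    exact ⟨⟨h1, h h2, h h3⟩, h2, h3⟩

theorem resG_univ (G : SimpleGraph V) : resG G Set.univ = G := by
  ext a b
  simp [resG]

theorem isAut_res {G : SimpleGraph V} {ang : V → V → V → ℝ} {g : Equiv.Perm V}
    (hg : IsAut G ang g) {S : Set V} (hgS : ∀ v, g v ∈ S ↔ v ∈ S) :
    IsAut (resG G S) ang g where
  adj a b := by simp only [resG, hg.adj, hgS]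
  ang v a b h1 h2 h3 := hg.ang v a b h1.1 h2.1 h3.1

/-- The inductive step. -/
theorem SCon.step (hT1 : T_T1.{u}) (hT2 : T_T2.{u}) (hT3 : T_T3.{u}) (hRes : T_RES.{u})
    {G : SimpleGraph V} {ang : V → V → V → ℝ} (hA : Angled G ang) {S : Set V} (hS : SCon G S)
    (g : Equiv.Perm V) (hg : IsAut G ang g) (hgS : ∀ v, g v ∈ S ↔ v ∈ S)
    (hgg : ∀ v ∈ S, g (g v) = v) (hno : ∀ v ∈ S, ¬ G.Adj v (g v)) :
    SCon G {v | v ∈ S ∧ g v = v} := by
  have hA' := hRes G ang S hA
  have hg' := isAut_res hg hgS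
  have hsupp : ∀ a b, (resG G S).Adj a b → a ∈ S := fun a b h => h.2.1
  have hno' : ∀ v ∈ S, ¬ (resG G S).Adj v (g v) := fun v hv h => hno v hv h.1
  have hsub : {v | v ∈ S ∧ g v = v} ⊆ S := fun v hv => hv.1
  have hrr := resG_resG G hsub
  refine ⟨?_, ?_, ?_⟩
  · obtain ⟨v, hv, h | h⟩ := hT1 (resG G S) ang hA' S hS.ne hsupp hS.conn hS.sc g hg' hgS hgg
    · exact ⟨v, hv, h⟩
    · exact absurd h (hno' v hv)
  · rintro a ⟨ha, ha'⟩ b ⟨hb, hb'⟩
    have := hT2 (resG G S) ang hA' S hsupp hS.conn hS.sc g hg' hno' a ha ha' b hb hb'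
    rwa [hrr] at this
  · have := hT3 (resG G S) ang hA' S hsupp hS.sc g hg' hno'
    rwa [hrr] at this

end

section

variable {V : Type u} {H : Type v} [Group H] [MulAction H V]

/-- Fixed vertices of a subgroup. -/
def fixS (V : Type u) [MulAction H V] (K : Subgroup H) : Set V := {v | ∀ k ∈ K, k • v = v}

theorem mem_fixS {K : Subgroup H} {v : V} : v ∈ fixS V K ↔ ∀ k ∈ K, k • v = v := Iff.rfl

theorem isAut_smul {G : SimpleGraph V} {ang : V → V → V → ℝ}
    (hadj : ∀ (h : H) (a b : V), G.Adj (h • a) (h • b) ↔ G.Adj a b)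
    (hang : ∀ (h : H) (v a b : V), G.Adj v a → G.Adj v b → G.Adj a b →
      ang (h • v) (h • a) (h • b) = ang v a b) (h : H) :
    IsAut G ang (MulAction.toPerm h) where
  adj a b := hadj h a b
  ang v a b h1 h2 h3 := hang h v a b h1 h2 h3

/-- An element normalising `K1` preserves the fixed set of `K1`. -/
theorem smul_mem_fixS {K1 : Subgroup H} {a : H} (ha : ∀ k, a⁻¹ * k * a ∈ K1 ↔ k ∈ K1) (v : V) :
    a • v ∈ fixS V K1 ↔ v ∈ fixS V K1 := by
  constructor
  · intro h k hk
    have h1 : a * k * a⁻¹ ∈ K1 := by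
      rw [← ha]; simpa [mul_assoc] using hk
    have h2 := h _ h1
    rw [smul_smul] at h2
    have h3 : a * k * a⁻¹ * a = a * k := by group
    rw [h3, mul_smul] at h2
    exact (MulAction.injective a) h2
  · intro h k hk
    have h1 := h _ ((ha k).2 hk)
    rw [mul_smul, mul_smul] at h1
    have := congrArg (fun x => a • x) h1
    simpa using this

theorem group_step (hT1 : T_T1.{u}) (hT2 : T_T2.{u}) (hT3 : T_T3.{u}) (hRes : T_RES.{u})
    {G : SimpleGraph V} {ang : V → V → V → ℝ} (hA : Angled G ang)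
    (hadj : ∀ (h : H) (a b : V), G.Adj (h • a) (h • b) ↔ G.Adj a b)
    (hang : ∀ (h : H) (v a b : V), G.Adj v a → G.Adj v b → G.Adj a b →
      ang (h • v) (h • a) (h • b) = ang v a b)
    (K : Subgroup H) (K1 : Subgroup K) (hK1 : K1.index = 2)
    (hinv : ∀ k ∈ K, ∀ v : V, k • k • v = v → ¬ G.Adj v (k • v))
    (hS : SCon G (fixS V (K1.map K.subtype))) : SCon G (fixS V K) := by
  obtain ⟨a, ha⟩ : ∃ a : K, a ∉ K1 := by
    by_contra hcon
    push Not at hcon
    have : K1 = ⊤ := by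
      ext x; simp [hcon x]
    rw [this, Subgroup.index_top] at hK1
    omega
  have hn : K1.Normal := Subgroup.normal_of_index_eq_two hK1
  have haa : a * a ∈ K1 := Subgroup.mul_self_mem_of_index_two hK1 a
  have hmem : ∀ x : H, x ∈ K1.map K.subtype ↔ ∃ h : x ∈ K, (⟨x, h⟩ : K) ∈ K1 := by
    intro x
    simp only [Subgroup.mem_map, Subgroup.coe_subtype, Subtype.exists]
    constructor
    · rintro ⟨y, hy, hy1, rfl⟩; exact ⟨hy, hy1⟩
    · rintro ⟨h, h1⟩; exact ⟨x, h, h1, rfl⟩
  have hconj : ∀ k : H, (a : H)⁻¹ * k * a ∈ K1.map K.subtype ↔ k ∈ K1.map K.subtype := by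
    intro k
    rw [hmem, hmem]
    constructor
    · rintro ⟨h, h1⟩
      have hk : k ∈ K := by
        have : (a : H) * ((a : H)⁻¹ * k * a) * (a : H)⁻¹ ∈ K :=
          K.mul_mem (K.mul_mem a.2 h) (K.inv_mem a.2)
        have e : (a : H) * ((a : H)⁻¹ * k * a) * (a : H)⁻¹ = k := by group
        rwa [e] at this
      refine ⟨hk, ?_⟩
      have := hn.conj_mem _ h1 a
      convert this using 1
      ext
      simp only [Subgroup.coe_mul, Subgroup.coe_inv]
      group
    · rintro ⟨h, h1⟩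
      refine ⟨K.mul_mem (K.mul_mem (K.inv_mem a.2) h) a.2, ?_⟩
      have := hn.conj_mem _ h1 a⁻¹
      convert this using 1
      ext
      simp
  have hfix : fixS V K = {v | v ∈ fixS V (K1.map K.subtype) ∧ (MulAction.toPerm (a : H)) v = v} := by
    ext v
    simp only [MulAction.toPerm_apply, Set.mem_setOf_eq]
    constructor
    · intro h
      refine ⟨fun k hk => ?_, h _ a.2⟩
      obtain ⟨hk1, -⟩ := (hmem k).1 hk
      exact h _ hk1
    · rintro ⟨h1, h2⟩ k hk
      by_cases hk1 : (⟨k, hk⟩ : K) ∈ K1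
      · exact h1 _ ((hmem k).2 ⟨hk, hk1⟩)
      · have h3 : a⁻¹ * (⟨k, hk⟩ : K) ∈ K1 := by
          rw [Subgroup.mul_mem_iff_of_index_two hK1]
          constructor
          · intro h; exact absurd (by simpa using h) ha
          · intro h; exact absurd h hk1
        have h4 : ((a : H)⁻¹ * k) • v = v := h1 _ ((hmem _).2 ⟨_, h3⟩)
        have h5 : k • v = (a : H) • (((a : H)⁻¹ * k) • v) := by
          rw [smul_smul]; congr 1; group
        rw [h5, h4, h2]
  rw [hfix]
  have haav : ∀ v ∈ fixS V (K1.map K.subtype), (a : H) • (a : H) • v = v := by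
    intro v hv
    have := hv ((a : H) * a) ((hmem _).2 ⟨K.mul_mem a.2 a.2, haa⟩)
    rwa [mul_smul] at this
  exact SCon.step hT1 hT2 hT3 hRes hA hS _ (isAut_smul hadj hang _)
    (fun v => smul_mem_fixS hconj v) haav (fun v hv => hinv _ a.2 v (haav v hv))

theorem group_induction [Finite H] (hT1 : T_T1.{u}) (hT2 : T_T2.{u}) (hT3 : T_T3.{u})
    (hRes : T_RES.{u})
    {G : SimpleGraph V} {ang : V → V → V → ℝ} (hA : Angled G ang)
    (hadj : ∀ (h : H) (a b : V), G.Adj (h • a) (h • b) ↔ G.Adj a b)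
    (hang : ∀ (h : H) (v a b : V), G.Adj v a → G.Adj v b → G.Adj a b →
      ang (h • v) (h • a) (h • b) = ang v a b)
    (hS : SCon G Set.univ) (n : ℕ) :
    ∀ K : Subgroup H, Nat.card K = 2 ^ n →
      (∀ k ∈ K, ∀ v : V, k • k • v = v → ¬ G.Adj v (k • v)) → SCon G (fixS V K) := by
  induction n with
  | zero =>
    intro K hK _
    have hK' : K = ⊥ := by
      rw [pow_zero] at hK
      exact Subgroup.card_eq_one.1 hK
    have : fixS V K = Set.univ := by
      ext v
      simp [fixS, hK']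
    rw [this]
    exact hS
  | succ n ih =>
    intro K hK hinv
    have : Fact (Nat.Prime 2) := ⟨Nat.prime_two⟩
    obtain ⟨K1, hK1⟩ := Sylow.exists_subgroup_card_pow_prime (G := K) 2 (n := n)
      (by rw [hK]; exact pow_dvd_pow 2 (Nat.le_succ n))
    have hidx : K1.index = 2 := by
      have h1 := K1.card_mul_index
      rw [hK1, hK, pow_succ] at h1
      exact Nat.eq_of_mul_eq_mul_left (by positivity) h1
    refine group_step hT1 hT2 hT3 hRes hA hadj hang K K1 hidx hinv ?_
    refine ih _ ?_ ?_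
    · rw [← hK1]
      exact Nat.card_congr (K1.equivMapOfInjective K.subtype K.subtype_injective).toEquiv.symm
    · intro k hk
      refine hinv k ?_
      obtain ⟨y, -, rfl⟩ := Subgroup.mem_map.1 hk
      exact y.2

end

end Pool.Agent.MSF
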