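import Pool.Agent.MSF.Targets

/-! N2H: from null cyclic lists to homotopies; IND: from `resG` to the induced subgraph. -/

namespace Pool.Agent.MSF

open List

universe u

namespace N2H

variable {V : Type u} {G : SimpleGraph V}

lemma elem_ctx {P P' : List V} (X Y : List V) (h : Elem G P P') :
    Elem G (X ++ P ++ Y) (X ++ P' ++ Y) := by
  cases h with
  | spur p q a b h =>
    have := Elem.spur (X ++ p) (q ++ Y) a b h
    simpa using this
  | tri p q a b c h1 h2 h3 =>
    have := Elem.tri (X ++ p) (q ++ Y) a b c h1 h2 h3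
    simpa using this

lemma eqv_ctx {P P' : List V} (X Y : List V) (h : Relation.EqvGen (Elem G) P P') :
    Relation.EqvGen (Elem G) (X ++ P ++ Y) (X ++ P' ++ Y) := by
  induction h with
  | rel _ _ h => exact Relation.EqvGen.rel _ _ (elem_ctx X Y h)
  | refl _ => exact Relation.EqvGen.refl _
  | symm _ _ _ ih => exact Relation.EqvGen.symm _ _ ih
  | trans _ _ _ _ _ ih ih' => exact Relation.EqvGen.trans _ _ _ ih ih'

lemma null_homotopic {m : ℕ} {w : List V} (h : Null G m w) :
    ∀ (a : V) (l : List V), w = a :: l → l ≠ [] →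
      Relation.EqvGen (Elem G) (a :: (l ++ [a])) [a] := by
  induction h with
  | pt a =>
    intro b l hw hl
    simp only [List.cons.injEq] at hw
    exact absurd hw.2.symm hl
  | @dig a b hab =>
    intro c l hw _
    simp only [List.cons.injEq] at hw
    obtain ⟨rfl, rfl⟩ := hw
    exact Relation.EqvGen.symm _ _ (Relation.EqvGen.rel _ _ (Elem.spur [] [] a b hab))
  | @rot m a l hN ih =>
    intro c l' hw hl'
    rcases l with _ | ⟨b, l⟩
    · simp only [List.nil_append, List.cons.injEq] at hw
      exact absurd hw.2.symm hl'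
    · simp only [List.cons_append, List.cons.injEq] at hw
      obtain ⟨rfl, rfl⟩ := hw
      have h1 := ih a (b :: l) rfl (by simp)
      have hab : G.Adj a b := by
        have := hN.cw
        simp only [CW, List.isChain_cons_cons] at this
        exact this.1
      have h2 : Relation.EqvGen (Elem G) (b :: a :: b :: (l ++ [a, b])) [b, a, b] := by
        have := eqv_ctx [b] [b] h1
        simpa using this
      have h3 : Relation.EqvGen (Elem G) [b, a, b] [b] :=
        Relation.EqvGen.symm _ _ (Relation.EqvGen.rel _ _ (Elem.spur [] [] b a hab.symm))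
      have h4 : Relation.EqvGen (Elem G) (b :: (l ++ [a, b])) (b :: a :: b :: (l ++ [a, b])) :=
        Relation.EqvGen.rel _ _ (Elem.spur [] (l ++ [a, b]) b a hab.symm)
      have h5 := (h4.trans _ _ _ h2).trans _ _ _ h3
      simpa using h5
  | @tri m a b z l hab haz hzb _ ih =>
    intro c l' hw _
    simp only [List.cons.injEq] at hw
    obtain ⟨rfl, rfl⟩ := hw
    have h1 := ih a (z :: b :: l) rfl (by simp)
    have h2 : Relation.EqvGen (Elem G) (a :: b :: (l ++ [a])) (a :: z :: b :: (l ++ [a])) :=
      Relation.EqvGen.rel _ _ (Elem.tri [] (l ++ [a]) a z b haz hzb hab)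
    have h3 := h2.trans _ _ _ (by simpa using h1)
    simpa using h3
  | @split m n a l l' hl hl' _ _ ih ih' =>
    intro c l'' hw _
    simp only [List.cons.injEq] at hw
    obtain ⟨rfl, rfl⟩ := hw
    have h1 := ih a l rfl hl
    have h2 := ih' a l' rfl hl'
    have h3 : Relation.EqvGen (Elem G) (a :: ((l ++ a :: l') ++ [a])) (a :: (l' ++ [a])) := by
      have := eqv_ctx [] (l' ++ [a]) h1
      simpa using this
    exact h3.trans _ _ _ h2
  | weak _ ih => exact ih

lemma cw_map {W : Type*} {G' : SimpleGraph W} (f : V → W)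
    (hf : ∀ a b, G.Adj a b → G'.Adj (f a) (f b)) {w : List V} (h : CW G w) :
    CW G' (w.map f) := by
  rcases w with _ | ⟨a, _ | ⟨b, l⟩⟩
  · exact h
  · trivial
  · have h1 : List.IsChain G.Adj (a :: b :: (l ++ [a])) := h
    have h2 : List.IsChain G'.Adj ((a :: b :: (l ++ [a])).map f) := by
      rw [List.isChain_map]
      exact h1.imp fun x y hxy => hf x y hxy
    simpa [CW] using h2

end N2H

open N2H

theorem tN2H : T_N2H.{u} := by
  intro V G hG h
  refine ⟨hG, fun a p hp => ?_⟩
  rcases eq_or_ne p [] with rfl | hne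
  · simp only [List.nil_append, List.isChain_cons_cons] at hp
    exact absurd hp.1 (G.loopless.irrefl a)
  · obtain ⟨A, hA⟩ := h (a :: p) ((CW_cons hne).2 hp)
    exact null_homotopic hA a p rfl hne

theorem tIND : T_IND.{u} := by
  intro V G Y hY hreach hnull
  obtain ⟨y0, hy0⟩ := hY
  constructor
  · have : Nonempty Y := ⟨⟨y0, hy0⟩⟩
    have key : ∀ a b, Relation.ReflTransGen (resG G Y).Adj a b → ∀ ha : a ∈ Y,
        ∃ hb : b ∈ Y, (G.induce Y).Reachable ⟨a, ha⟩ ⟨b, hb⟩ := by
      intro a b h ha
      induction h with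
      | refl => exact ⟨ha, SimpleGraph.Reachable.refl _⟩
      | tail _ hbc ih =>
        obtain ⟨hb, hr⟩ := ih
        exact ⟨hbc.2.2, hr.trans (SimpleGraph.Adj.reachable (by simpa using hbc.1))⟩
    refine SimpleGraph.Connected.mk fun a b => ?_
    have h1 := hreach a a.2 b b.2
    rw [SimpleGraph.reachable_iff_reflTransGen] at h1
    obtain ⟨hb, h2⟩ := key a b h1 a.2
    exact h2
  · intro w hw
    classical
    let f : V → Y := fun v => if h : v ∈ Y then ⟨v, h⟩ else ⟨y0, hy0⟩
    have hf : ∀ a b, (resG G Y).Adj a b → (G.induce Y).Adj (f a) (f b) := by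
      intro a b hab
      have ha : f a = ⟨a, hab.2.1⟩ := by simp [f, hab.2.1]
      have hb : f b = ⟨b, hab.2.2⟩ := by simp [f, hab.2.2]
      rw [ha, hb]
      simpa using hab.1
    have hfv : ∀ x : Y, f x = x := by
      intro x
      simp [f]
    obtain ⟨A, hA⟩ := hnull (w.map Subtype.val)
      (cw_map (G' := resG G Y) Subtype.val (fun a b hab => ⟨by simpa using hab, a.2, b.2⟩) hw)
    refine ⟨A, ?_⟩
    have h1 := hA.map f hf
    rw [List.map_map] at h1
    have h2 : w.map (f ∘ Subtype.val) = w := by
      rw [List.map_congr_left (g := id) (fun x _ => by simp [hfv])]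
      simp
    rwa [h2] at h1

end Pool.Agent.MSF
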