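import Pool.Agent.MSF.Targets

/-! Job MS-PEEL: peel off an edge of a null closed walk. -/

namespace Pool.Agent.MSF

open List

universe u

namespace PEEL

variable {V : Type u} {G : SimpleGraph V}

/-- The two alternatives, for the linear list `W`. -/
def Goal (G : SimpleGraph V) (m : ℕ) (W : List V) : Prop :=
  (∃ (q p z : V) (m' : ℕ), W.head? = some q ∧ W.getLast? = some p ∧ m' < m ∧ G.Adj p q ∧
      G.Adj p z ∧ G.Adj z q ∧ Null G m' (z :: W)) ∨
  (∃ (P Q : List V) (m₁ m₂ : ℕ), W = P ++ Q ∧ NullR G m₁ P ∧ NullR G m₂ Q ∧ m₁ + m₂ ≤ m)

theorem Goal.succ {m : ℕ} {W : List V} (h : Goal G m W) : Goal G (m + 1) W := by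
  rcases h with ⟨q, p, z, m', h1, h2, h3, h4, h5, h6, h7⟩ | ⟨P, Q, m1, m2, h1, h2, h3, h4⟩
  · exact Or.inl ⟨q, p, z, m', h1, h2, by omega, h4, h5, h6, h7⟩
  · exact Or.inr ⟨P, Q, m1, m2, h1, h2, h3, by omega⟩

theorem rot_cases {w W : List V} (h : w ~r W) : ∃ X Y, w = Y ++ X ∧ W = X ++ Y := by
  obtain ⟨n, hn⟩ := h
  by_cases hw : w = []
  · subst hw
    refine ⟨[], [], rfl, ?_⟩
    simpa using hn.symm
  · have hlen : 0 < w.length := List.length_pos_iff.2 hw
    refine ⟨w.drop (n % w.length), w.take (n % w.length), (List.take_append_drop _ _).symm, ?_⟩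
    rw [← hn, ← List.rotate_mod, List.rotate_eq_drop_append_take (Nat.mod_lt _ hlen).le]

theorem nullR_triAt {m : ℕ} {a b z : V} {X Y : List V} (h : NullR G m (X ++ a :: z :: b :: Y))
    (hab : G.Adj a b) (haz : G.Adj a z) (hzb : G.Adj z b) :
    NullR G (m + 1) (X ++ a :: b :: Y) := by
  rcases h with ⟨c, hc⟩ | ⟨c, l, hl, he, h⟩
  · have := congrArg List.length hc
    simp only [List.length_append, List.length_cons, List.length_nil] at this
    omega
  · rcases List.eq_nil_or_concat Y with rfl | ⟨Y', c', rfl⟩
    · -- `b` is the last vertex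
      have h1 : (X ++ [a, z]) ++ [b] = (c :: l) ++ [c] := by simpa using he
      obtain ⟨h2, h3⟩ := List.append_inj' h1 (by simp)
      have hbc : b = c := by simpa using h3
      subst hbc
      cases X with
      | nil =>
        simp only [List.nil_append, List.cons.injEq] at h2
        exact absurd h2.1 hab.ne
      | cons x X =>
        simp only [List.cons_append, List.cons.injEq] at h2
        obtain ⟨rfl, rfl⟩ := h2
        refine Or.inr ⟨x, X ++ [a], by simp, by simp, ?_⟩
        have h4 : Null G m ((x :: X) ++ [a, z]) := by simpa using h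
        have h5 : Null G m ([] ++ a :: z :: x :: X) := by simpa using h4.swap
        have h6 : Null G (m + 1) ([a] ++ x :: X) := by simpa using h5.triAt hab haz hzb
        simpa using h6.swap
    · have h1 : (X ++ a :: z :: b :: Y') ++ [c'] = (c :: l) ++ [c] := by simpa using he
      obtain ⟨h2, h3⟩ := List.append_inj' h1 (by simp)
      have hbc : c' = c := by simpa using h3
      subst hbc
      have h4 : Null G m (X ++ a :: z :: b :: Y') := by rw [h2]; exact h
      have h5 := h4.triAt hab haz hzb
      cases X with
      | nil =>
        simp only [List.nil_append, List.cons.injEq] at h2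
        obtain ⟨rfl, rfl⟩ := h2
        exact Or.inr ⟨a, b :: Y', by simp, by simp, by simpa using h5⟩
      | cons x X =>
        simp only [List.cons_append, List.cons.injEq] at h2
        obtain ⟨rfl, rfl⟩ := h2
        exact Or.inr ⟨x, X ++ a :: b :: Y', by simp, by simp, by simpa using h5⟩

/-- A null rooted path with at least two vertices. -/
theorem nullR_two {m : ℕ} {x y : V} {L : List V} (h : NullR G m (x :: y :: L)) :
    ∃ L', L = L' ++ [x] ∧ Null G m (x :: y :: L') := by
  rcases h with ⟨c, hc⟩ | ⟨c, l, hl, he, h⟩
  · simp at hc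
  · simp only [List.cons.injEq] at he
    obtain ⟨rfl, he⟩ := he
    cases l with
    | nil => exact absurd rfl hl
    | cons y' l =>
      simp only [List.cons_append, List.cons.injEq] at he
      obtain ⟨rfl, rfl⟩ := he
      exact ⟨l, rfl, h⟩

theorem nullR_head_last {m : ℕ} {P : List V} (h : NullR G m P) :
    ∃ a, P.head? = some a ∧ P.getLast? = some a := by
  rcases h with ⟨a, rfl⟩ | ⟨a, l, hl, rfl, h⟩
  · exact ⟨a, by simp, by simp⟩
  · refine ⟨a, by simp, ?_⟩
    rw [← List.cons_append, List.getLast?_append]
    simp

theorem goal_tri {m : ℕ} {a b z : V} {X Y : List V} (hab : G.Adj a b) (haz : G.Adj a z)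
    (hzb : G.Adj z b) (h : Goal G m (X ++ a :: z :: b :: Y)) :
    Goal G (m + 1) (X ++ a :: b :: Y) := by
  rcases h with ⟨q, p, z', m', h1, h2, h3, h4, h5, h6, h7⟩ | ⟨P, Q, m1, m2, h1, h2, h3, h4⟩
  · refine Or.inl ⟨q, p, z', m' + 1, ?_, ?_, by omega, h4, h5, h6, ?_⟩
    · cases X with
      | nil => simpa using h1
      | cons x X => simpa using h1
    · have e1 : X ++ a :: z :: b :: Y = (X ++ [a, z]) ++ (b :: Y) := by simp
      have e2 : X ++ a :: b :: Y = (X ++ [a]) ++ (b :: Y) := by simp
      rw [e1, List.getLast?_append_of_ne_nil _ (by simp)] at h2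
      rw [e2, List.getLast?_append_of_ne_nil _ (by simp)]
      exact h2
    · have h8 : Null G m' ((z' :: X) ++ a :: z :: b :: Y) := by simpa using h7
      simpa using h8.triAt hab haz hzb
  · rcases List.append_eq_append_iff.1 h1 with ⟨a', rfl, he⟩ | ⟨c', rfl, rfl⟩
    · rcases a' with _ | ⟨x1, _ | ⟨x2, _ | ⟨x3, a''⟩⟩⟩
      · -- the cut is before `a`
        simp only [List.nil_append] at he
        subst he
        refine Or.inr ⟨X, a :: b :: Y, m1, m2 + 1, by simp, by simpa using h2, ?_, by omega⟩
        have := nullR_triAt (X := []) h3 hab haz hzb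
        simpa using this
      · -- the cut is between `a` and `z`
        simp only [List.cons_append, List.nil_append, List.cons.injEq] at he
        obtain ⟨rfl, rfl⟩ := he
        obtain ⟨Y', rfl, hY'⟩ := nullR_two h3
        obtain ⟨c, hc1, hc2⟩ := nullR_head_last h2
        have hca : a = c := by
          rw [List.getLast?_append_of_ne_nil _ (by simp)] at hc2
          simpa using hc2
        subst hca
        refine Or.inl ⟨a, z, b, m1 + m2, ?_, ?_, by omega, haz.symm, hzb, hab.symm, ?_⟩
        · have e2 : X ++ a :: b :: (Y' ++ [z]) = (X ++ [a]) ++ (b :: (Y' ++ [z])) := by simp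
          rw [e2, List.head?_append, hc1]
          rfl
        · have e2 : X ++ a :: b :: (Y' ++ [z]) = (X ++ a :: b :: Y') ++ [z] := by simp
          rw [e2, List.getLast?_append_of_ne_nil _ (by simp)]
          simp
        · have h8 : Null G m1 (b :: (X ++ [a])) := by
            cases hP : X ++ [a] with
            | nil => simp at hP
            | cons x P' =>
              rw [hP] at h2 hc1
              simp only [List.head?_cons, Option.some.injEq] at hc1
              subst hc1
              exact h2.attach hab.symm
          have h9 : Null G m2 (b :: (Y' ++ [z])) := by simpa using hY'.rot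
          have h10 := Null.split (by simp) (by simp) h8 h9
          simpa using h10
      · -- the cut is between `z` and `b`
        simp only [List.cons_append, List.nil_append, List.cons.injEq] at he
        obtain ⟨rfl, rfl, rfl⟩ := he
        obtain ⟨c, hc1, hc2⟩ := nullR_head_last h3
        have hcb : b = c := by simpa using hc1
        subst hcb
        have h8 : ∃ X', X = z :: X' ∧ Null G m1 (X ++ [a]) := by
          rcases h2 with ⟨c, hc⟩ | ⟨c, l, hl, he, h⟩
          · have := congrArg List.length hc
            simp at this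
          · have h11 : (X ++ [a]) ++ [z] = (c :: l) ++ [c] := by simpa using he
            obtain ⟨h12, h13⟩ := List.append_inj' h11 (by simp)
            have hbc : z = c := by simpa using h13
            subst hbc
            cases X with
            | nil =>
              simp only [List.nil_append, List.cons.injEq] at h12
              exact absurd h12.2.symm hl
            | cons x X =>
              have h14 := h12
              simp only [List.cons_append, List.cons.injEq] at h12
              obtain ⟨rfl, rfl⟩ := h12
              exact ⟨X, rfl, by simpa using h⟩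
        obtain ⟨X', rfl, h8⟩ := h8
        refine Or.inl ⟨z, b, a, m1 + m2, by simp, ?_, by omega, hzb.symm, hab.symm, haz, ?_⟩
        · have e2 : (z :: X') ++ a :: b :: Y = ((z :: X') ++ [a]) ++ (b :: Y) := by simp
          rw [e2, List.getLast?_append_of_ne_nil _ (by simp)]
          exact hc2
        · have h9 : Null G m2 (a :: b :: Y) := h3.attach hab
          have h10 : Null G m1 (a :: (z :: X')) := by simpa using h8.swap
          have h11 := Null.split (by simp) (by simp) h10 h9
          simpa using h11
      · -- the cut is after `b`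
        simp only [List.cons_append, List.cons.injEq] at he
        obtain ⟨rfl, rfl, rfl, rfl⟩ := he
        refine Or.inr ⟨X ++ a :: b :: a'', Q, m1 + 1, m2, by simp, ?_, h3, by omega⟩
        exact nullR_triAt h2 hab haz hzb
    · refine Or.inr ⟨P, c' ++ a :: b :: Y, m1, m2 + 1, by simp, h2, ?_, by omega⟩
      exact nullR_triAt h3 hab haz hzb

theorem goal_loop {m n : ℕ} {a : V} {U R L : List V} (h : Goal G m (U ++ a :: R))
    (h' : Null G n (a :: L)) (hL : L ≠ []) : Goal G (m + n) (U ++ a :: (L ++ a :: R)) := by
  rcases h with ⟨q, p, z, m', h1, h2, h3, h4, h5, h6, h7⟩ | ⟨P, Q, m1, m2, h1, h2, h3, h4⟩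
  · refine Or.inl ⟨q, p, z, m' + n, ?_, ?_, by omega, h4, h5, h6, ?_⟩
    · cases U with
      | nil => simpa using h1
      | cons x X => simpa using h1
    · have e2 : U ++ a :: (L ++ a :: R) = (U ++ a :: L) ++ (a :: R) := by simp
      rw [List.getLast?_append_of_ne_nil _ (by simp)] at h2
      rw [e2, List.getLast?_append_of_ne_nil _ (by simp)]
      exact h2
    · have h8 : Null G m' ((z :: U) ++ a :: R) := by simpa using h7
      simpa using h8.loop h' (by simp) hL
  · rcases List.append_eq_append_iff.1 h1 with ⟨a', rfl, he⟩ | ⟨c', rfl, rfl⟩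
    · rcases a' with _ | ⟨x1, a''⟩
      · simp only [List.nil_append] at he
        subst he
        refine Or.inr ⟨U, a :: (L ++ a :: R), m1, m2 + n, by simp, by simpa using h2, ?_,
          by omega⟩
        have := NullR.loop (X := []) h3 h' hL
        simpa using this
      · simp only [List.cons_append, List.cons.injEq] at he
        obtain ⟨rfl, rfl⟩ := he
        refine Or.inr ⟨U ++ a :: (L ++ a :: a''), Q, m1 + n, m2, by simp, h2.loop h' hL, h3,
          by omega⟩
    · refine Or.inr ⟨P, c' ++ a :: (L ++ a :: R), m1, m2 + n, by simp, h2, h3.loop h' hL,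
        by omega⟩

theorem main {m : ℕ} {w : List V} (h : Null G m w) :
    ∀ W, w ~r W → 2 ≤ W.length → Goal G m W := by
  induction h with
  | pt a =>
    intro W hW hl
    have := hW.perm.length_eq
    simp at this
    omega
  | @dig a b hab =>
    intro W hW hl
    have hlen := hW.perm.length_eq
    match W, hlen with
    | [x, y], _ =>
      exact Or.inr ⟨[x], [y], 0, 0, rfl, Or.inl ⟨x, rfl⟩, Or.inl ⟨y, rfl⟩, le_rfl⟩
  | @rot m a l _ ih =>
    intro W hW hl
    refine ih W (List.IsRotated.trans ⟨1, by simp⟩ hW) hl
  | @tri m a b z l hab haz hzb h ih =>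
    intro W hW hl
    obtain ⟨X, Y, h1, rfl⟩ := rot_cases hW
    rcases Y with _ | ⟨y1, _ | ⟨y2, Y⟩⟩
    · simp only [List.nil_append] at h1
      subst h1
      have h2 : Goal G m ([] ++ a :: z :: b :: l) := ih _ (List.IsRotated.refl _) (by simp)
      simpa using goal_tri hab haz hzb h2
    · simp only [List.cons_append, List.nil_append, List.cons.injEq] at h1
      obtain ⟨rfl, rfl⟩ := h1
      refine Or.inl ⟨b, a, z, m, by simp, ?_, by omega, hab, haz, hzb, ?_⟩
      · rw [List.getLast?_append_of_ne_nil _ (by simp)]
        simp
      · simpa using h.rot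
    · simp only [List.cons_append, List.cons.injEq] at h1
      obtain ⟨rfl, rfl, rfl⟩ := h1
      have h2 : Goal G m (X ++ a :: z :: b :: Y) := by
        refine ih _ ?_ (by simp; omega)
        have := List.isRotated_append (l := a :: z :: b :: Y) (l' := X)
        simpa using this
      simpa using goal_tri hab haz hzb h2
  | @split m n a l l' hl hl' h h' ih ih' =>
    intro W hW hlW
    obtain ⟨X, Y, h1, rfl⟩ := rot_cases hW
    have hlen : 1 ≤ l.length := List.length_pos_iff.2 hl
    have hlen' : 1 ≤ l'.length := List.length_pos_iff.2 hl'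
    rcases Y with _ | ⟨y1, Y⟩
    · simp only [List.nil_append] at h1
      subst h1
      have h2 : Goal G n ([] ++ a :: l') := ih' _ (List.IsRotated.refl _) (by simp; omega)
      have h3 := goal_loop h2 h hl
      rw [Nat.add_comm]
      simpa using h3
    · simp only [List.cons_append, List.cons.injEq] at h1
      obtain ⟨rfl, h1⟩ := h1
      rcases List.append_eq_append_iff.1 h1 with ⟨bs, rfl, he⟩ | ⟨as, rfl, rfl⟩
      · rcases bs with _ | ⟨b1, bs⟩
        · simp only [List.nil_append] at he
          subst he
          have h2 : Goal G m ([] ++ a :: l) := ih _ (List.IsRotated.refl _) (by simp; omega)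
          have h3 := goal_loop h2 h' hl'
          simpa using h3
        · simp only [List.cons_append, List.cons.injEq] at he
          obtain ⟨rfl, rfl⟩ := he
          have h2 : Goal G n (X ++ a :: bs) := by
            refine ih' _ ?_ (by simp only [List.length_append, List.length_cons] at hlen' ⊢; omega)
            have := List.isRotated_append (l := a :: bs) (l' := X)
            simpa using this
          have h3 := goal_loop h2 h hl
          rw [Nat.add_comm]
          simpa using h3
      · have h2 : Goal G m (as ++ a :: Y) := by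
          refine ih _ ?_ (by simp only [List.length_append, List.length_cons] at hlen ⊢; omega)
          have := List.isRotated_append (l := a :: Y) (l' := as)
          simpa using this
        have h3 := goal_loop h2 h' hl'
        simpa using h3
  | weak _ ih =>
    intro W hW hl
    exact (ih W hW hl).succ

end PEEL

/-- PEEL. -/
theorem tPEEL : T_PEEL.{u} := by
  intro V G m w h q p t hW
  rcases PEEL.main h _ hW (by simp) with
    ⟨q', p', z, m', h1, h2, h3, h4, h5, h6, h7⟩ | ⟨P, Q, m1, m2, h1, h2, h3, h4⟩
  · have hq : q = q' := by simpa using h1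
    have hp : p = p' := by
      rw [← List.cons_append, List.getLast?_append_of_ne_nil _ (by simp)] at h2
      simpa using h2
    subst hq hp
    exact Or.inl ⟨z, m', h3, h4, h5, h6, h7⟩
  · exact Or.inr ⟨P, Q, m1, m2, h1, h2, h3, h4⟩

end Pool.Agent.MSF
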