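import Pool.Agent.MSF.Targets

/-! RED: splitting after the first triangle has been removed. -/

namespace Pool.Agent.MSF

open List

universe u

namespace RED

variable {V : Type*} {G : SimpleGraph V}

/-- A reducible cyclic list in linear form. -/
theorem lin {w : List V} {c : V} {s t : List V} (h : w ~r (c :: (s ++ c :: t))) :
    ∃ X s' Z, w = X ++ c :: (s' ++ c :: Z) ∧
      ((s' = s ∧ Z ++ X = t) ∨ (s' = t ∧ Z ++ X = s)) := by
  have h' := h.symm
  obtain ⟨n, hn, hw⟩ := List.isRotated_iff_mod.1 h'
  obtain ⟨A, B, hAB, hBA⟩ : ∃ A B, c :: (s ++ c :: t) = A ++ B ∧ w = B ++ A := by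
    refine ⟨(c :: (s ++ c :: t)).take n, (c :: (s ++ c :: t)).drop n,
      (List.take_append_drop _ _).symm, ?_⟩
    rw [← hw, List.rotate_eq_drop_append_take hn]
  subst hBA
  cases A with
  | nil =>
    rw [List.nil_append] at hAB
    subst hAB
    exact ⟨[], s, t, by simp, Or.inl ⟨rfl, by simp⟩⟩
  | cons a A =>
    rw [List.cons_append] at hAB
    obtain ⟨rfl, hAB1⟩ := List.cons_eq_cons.1 hAB
    clear hAB
    rcases List.append_eq_append_iff.1 hAB1 with ⟨T, hT1, hT2⟩ | ⟨S, hS1, hS2⟩
    · -- A = s ++ T, c :: t = T ++ B
      cases T with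
      | nil =>
        simp only [List.append_nil] at hT1
        simp only [List.nil_append] at hT2
        subst hT1
        subst hT2
        exact ⟨[], t, A, by simp, Or.inr ⟨rfl, by simp⟩⟩
      | cons d T =>
        rw [List.cons_append] at hT2
        obtain ⟨rfl, hT3⟩ := List.cons_eq_cons.1 hT2
        clear hT2
        subst hT1
        subst hT3
        exact ⟨B, s, T, by simp, Or.inl ⟨rfl, rfl⟩⟩
    · -- s = A ++ S, B = S ++ c :: t
      subst hS1
      subst hS2
      exact ⟨S, t, A, by simp, Or.inr ⟨rfl, rfl⟩⟩

theorem not_irr {A : ℕ} {w : List V} (h : ¬ Irr G A w) :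
    ∃ X c s Z m n, w = X ++ c :: (s ++ c :: Z) ∧ s ≠ [] ∧ Z ++ X ≠ [] ∧
      Null G m (c :: s) ∧ Null G n (c :: (Z ++ X)) ∧ m + n ≤ A := by
  unfold Irr at h
  push Not at h
  obtain ⟨c, s, t, m, n, hw, hs, ht, hm, hn, hA⟩ := h
  obtain ⟨X, s', Z, hX, h | h⟩ := lin hw
  · obtain ⟨rfl, rfl⟩ := h
    exact ⟨X, c, s', Z, m, n, hX, hs, ht, hm, hn, hA⟩
  · obtain ⟨rfl, rfl⟩ := h
    exact ⟨X, c, s', Z, n, m, hX, ht, hs, hn, hm, by omega⟩

theorem irr_lin {A : ℕ} {w : List V} (h : Irr G A w) {X s Z : List V} {c : V} {m n : ℕ}
    (hw : w = X ++ c :: (s ++ c :: Z)) (hs : s ≠ []) (hZ : Z ++ X ≠ [])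
    (hm : Null G m (c :: s)) (hn : Null G n (c :: (Z ++ X))) : A < m + n := by
  refine h c s (Z ++ X) m n ?_ hs hZ hm hn
  subst hw
  have := List.isRotated_append (l := X) (l' := c :: (s ++ c :: Z))
  simpa using this

theorem irr_rotated {A : ℕ} {w w' : List V} (h : Irr G A w) (hr : w ~r w') : Irr G A w' :=
  fun c s t m n hw => h c s t m n (hr.trans hw)

theorem irr_reverse {A : ℕ} {w : List V} (h : Irr G A w) : Irr G A w.reverse := by
  intro c s t m n hw hs ht hm hn
  have h1 : w ~r (c :: (s ++ c :: t)).reverse := by
    have := hw.reverse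
    simpa using this
  have h2 : (c :: (s ++ c :: t)).reverse ~r (c :: (t.reverse ++ c :: s.reverse)) := by
    have := List.isRotated_append (l := t.reverse ++ c :: s.reverse) (l' := [c])
    simpa using this
  have h3 : Null G n (c :: t.reverse) := by
    have h4 : Null G n (t.reverse ++ [c]) := by simpa using hn.reverse
    simpa using h4.swap
  have h5 : Null G m (c :: s.reverse) := by
    have h4 : Null G m (s.reverse ++ [c]) := by simpa using hm.reverse
    simpa using h4.swap
  have := h c t.reverse s.reverse n m (h1.trans h2) (by simpa using ht) (by simpa using hs) h3 h5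
  omega

/-- Joining two loops at `z` and removing `z`. -/
theorem join {m n : ℕ} {a b z : V} {P l : List V} (hab : G.Adj a b) (haz : G.Adj a z)
    (hzb : G.Adj z b) (hP : Null G m (z :: b :: P)) (hl : Null G n (z :: (l ++ [a]))) :
    Null G (m + n) (a :: z :: b :: (P ++ z :: l)) ∧
      Null G (m + n + 1) (a :: b :: (P ++ z :: l)) := by
  have h1 : Null G (m + n) (z :: ((b :: P) ++ z :: (l ++ [a]))) :=
    Null.split (by simp) (by simp) hP hl
  have h2 : Null G (m + n) ((z :: b :: (P ++ z :: l)) ++ [a]) := by simpa using h1
  have h3 : Null G (m + n) (a :: z :: b :: (P ++ z :: l)) := by simpa using h2.swap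
  exact ⟨h3, Null.tri hab haz hzb h3⟩

/-- One side. -/
theorem side {k m n : ℕ} {a b z : V} {l₁ l₂ : List V} (hab : G.Adj a b) (haz : G.Adj a z)
    (hzb : G.Adj z b) (hI : Irr G (k + 1) (a :: b :: (l₁ ++ z :: l₂))) (hmn : m + n = k)
    (hl : Null G n (z :: (l₂ ++ [a]))) : Irr G m (z :: b :: l₁) := by
  by_contra hcon
  obtain ⟨X, c, s, Z, m', n', hw, hs, hZX, hm', hn', hle⟩ := not_irr hcon
  cases X with
  | nil =>
    rw [List.nil_append] at hw
    obtain ⟨hw1, hw2⟩ := List.cons_eq_cons.1 hw
    clear hw
    rename' hw2 => hw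
    subst hw1
    cases s with
    | nil => exact hs rfl
    | cons d s =>
      rw [List.cons_append] at hw
      obtain ⟨hw1, hw2⟩ := List.cons_eq_cons.1 hw
      clear hw
      subst hw1
      subst hw2
      simp only [List.append_nil] at hn' hZX
      obtain ⟨-, h1⟩ := join hab haz hzb hm' hl
      have h2 : Null G (m' + n + 1) (z :: (l₂ ++ a :: b :: s)) := by
        have : Null G (m' + n + 1) ((a :: b :: s) ++ z :: l₂) := by simpa using h1
        simpa using this.swap
      have h3 := irr_lin hI (X := a :: b :: s) (c := z) (s := Z) (Z := l₂) (m := n')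
        (n := m' + n + 1) (by simp) hZX (by simp) hn' h2
      omega
  | cons x X =>
    rw [List.cons_append] at hw
    obtain ⟨hw1, hw2⟩ := List.cons_eq_cons.1 hw
    clear hw
    rename' hw2 => hw
    subst hw1
    -- the outer loop starts with `z, b`
    have hb : ∃ P, X ++ c :: Z = b :: P := by
      cases X with
      | nil =>
        rw [List.nil_append] at hw
        obtain ⟨hw1, -⟩ := List.cons_eq_cons.1 hw
        clear hw
        subst hw1
        exact ⟨Z, rfl⟩
      | cons y X =>
        rw [List.cons_append] at hw
        obtain ⟨hw1, -⟩ := List.cons_eq_cons.1 hw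
        clear hw
        subst hw1
        exact ⟨X ++ c :: Z, rfl⟩
    obtain ⟨P, hP⟩ := hb
    have h1 : Null G n' (z :: b :: P) := by
      rw [← hP]
      have : Null G n' ((c :: Z) ++ z :: X) := by simpa using hn'
      simpa using this.swap
    obtain ⟨-, h2⟩ := join hab haz hzb h1 hl
    have h3 : Null G (n' + n + 1) (a :: (X ++ c :: (Z ++ z :: l₂))) := by
      have : b :: (P ++ z :: l₂) = X ++ c :: (Z ++ z :: l₂) := by
        rw [← List.cons_append, ← hP]
        simp
      rwa [this] at h2
    have h4 : Null G (n' + n + 1) (c :: ((Z ++ z :: l₂) ++ a :: X)) := by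
      have : Null G (n' + n + 1) ((a :: X) ++ c :: (Z ++ z :: l₂)) := by simpa using h3
      simpa using this.swap
    have h5 : a :: b :: (l₁ ++ z :: l₂) = (a :: X) ++ c :: (s ++ c :: (Z ++ z :: l₂)) := by
      have : b :: (l₁ ++ z :: l₂) = (b :: l₁) ++ z :: l₂ := rfl
      rw [this, hw]
      simp
    have h6 := irr_lin hI h5 hs (by simp) hm' h4
    omega

end RED

open RED

theorem tRED : T_RED.{u} := by
  intro V G k a b z l hl hab haz hzb hMw hIw hMw' hnI
  obtain ⟨X, c, s, Z, m, n, hw, hs, hZX, hm, hn, hle⟩ := not_irr hnI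
  cases X with
  | nil =>
    exfalso
    rw [List.nil_append] at hw
    obtain ⟨hw1, hw2⟩ := List.cons_eq_cons.1 hw
    clear hw
    rename' hw2 => hw
    subst hw1
    cases s with
    | nil => exact hs rfl
    | cons d s =>
      rw [List.cons_append] at hw
      obtain ⟨hw1, hw2⟩ := List.cons_eq_cons.1 hw
      clear hw
      rename' hw2 => hw
      subst hw1
      cases s with
      | nil =>
        rw [List.nil_append] at hw
        obtain ⟨hw1, -⟩ := List.cons_eq_cons.1 hw
        clear hw
        subst hw1
        exact G.loopless.irrefl _ hab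
      | cons d s =>
        rw [List.cons_append] at hw
        obtain ⟨hw1, hw2⟩ := List.cons_eq_cons.1 hw
        clear hw
        subst hw1
        subst hw2
        have h1 : Null G (m + 1) (a :: b :: s) := Null.tri hab haz hzb hm
        have h2 := irr_lin hIw (X := []) (c := a) (s := b :: s) (Z := Z) (by simp) (by simp)
          hZX h1 hn
        omega
  | cons x X =>
    rw [List.cons_append] at hw
    obtain ⟨hw1, hw2⟩ := List.cons_eq_cons.1 hw
    clear hw
    rename' hw2 => hw
    subst hw1
    cases X with
    | nil =>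
      -- the main case
      rw [List.nil_append] at hw
      obtain ⟨hw1, hw2⟩ := List.cons_eq_cons.1 hw
      clear hw
      rename' hw2 => hw
      subst hw1
      cases s with
      | nil => exact absurd rfl hs
      | cons d s =>
        rw [List.cons_append] at hw
        obtain ⟨hw1, hw2⟩ := List.cons_eq_cons.1 hw
        clear hw
        subst hw1
        subst hw2
        have hk : k ≤ m + n := hMw'.2 _ (join hab haz hzb hm hn).1
        have hkk : m + n = k := le_antisymm hle hk
        have hmin1 : ∀ j, Null G j (z :: b :: s) → m ≤ j := by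
          intro j hj
          have := hMw'.2 _ (join hab haz hzb hj hn).1
          omega
        have hmin2 : ∀ j, Null G j (z :: (Z ++ [a])) → n ≤ j := by
          intro j hj
          have := hMw'.2 _ (join hab haz hzb hm hj).1
          omega
        refine ⟨s, Z, m, n, rfl, hkk, ⟨hm, hmin1⟩, side hab haz hzb hIw hkk hn,
          ⟨hn, hmin2⟩, ?_⟩
        -- the other side, by reversal
        have hI2 : Irr G (k + 1) (b :: a :: (Z.reverse ++ z :: s.reverse)) := by
          have h1 := irr_reverse hIw
          refine irr_rotated h1 ?_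
          have := List.isRotated_append (l := Z.reverse ++ z :: s.reverse) (l' := [b, a])
          simpa using this
        have h2 : Null G m (z :: (s.reverse ++ [b])) := by
          have h3 : Null G m ((s.reverse ++ [b]) ++ [z]) := by simpa using hm.reverse
          simpa using h3.swap
        have h4 := side hab.symm hzb.symm haz.symm hI2 (by omega : n + m = k) h2
        have h5 := irr_reverse h4
        refine irr_rotated h5 ?_
        have := List.isRotated_append (l := Z ++ [a]) (l' := [z])
        simpa using this
    | cons y X =>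
      exfalso
      rw [List.cons_append] at hw
      obtain ⟨hw1, hw2⟩ := List.cons_eq_cons.1 hw
      clear hw
      rename' hw2 => hw
      subst hw1
      cases X with
      | nil =>
        rw [List.nil_append] at hw
        obtain ⟨hw1, hw2⟩ := List.cons_eq_cons.1 hw
        clear hw
        subst hw1
        subst hw2
        have h1 : Null G n ([a, z, b] ++ Z) := by
          have : Null G n ((b :: Z) ++ [a, z]) := by simpa using hn
          simpa using this.swap
        have h2 : Null G (n + 1) (a :: b :: Z) := Null.tri hab haz hzb (by simpa using h1)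
        have h3 : Null G (n + 1) (b :: (Z ++ [a])) := by
          have : Null G (n + 1) ([a] ++ b :: Z) := by simpa using h2
          simpa using this.swap
        have h4 := irr_lin hIw (X := [a]) (c := b) (s := s) (Z := Z) (by simp) hs (by simp) hm h3
        omega
      | cons y X =>
        rw [List.cons_append] at hw
        obtain ⟨hw1, hw2⟩ := List.cons_eq_cons.1 hw
        clear hw
        subst hw1
        subst hw2
        have h1 : Null G n ((c :: Z) ++ a :: z :: b :: X) := by simpa using hn
        have h2 : Null G (n + 1) ((c :: Z) ++ a :: b :: X) := h1.triAt hab haz hzb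
        have h4 := irr_lin hIw (X := a :: b :: X) (c := c) (s := s) (Z := Z) (by simp) hs
          (by simp) hm (by simpa using h2)
        omega

end Pool.Agent.MSF
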