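import Pool.Agent.MSF.Targets

/-! RES and MCI: full subcomplexes (MP_d6353f_al). -/

namespace Pool.Agent.MSF

open List

universe u

namespace RES

theorem adj_of {V : Type*} {G : SimpleGraph V} {S : Set V} {a b : V}
    (h : (resG G S).Adj a b) : G.Adj a b := h.1

theorem cw_of {V : Type*} {G : SimpleGraph V} {S : Set V} {w : List V}
    (h : CW (resG G S) w) : CW G w := by
  match w, h with
  | [_], _ => trivial
  | (a :: b :: l), h => exact List.IsChain.imp (fun _ _ hx => hx.1) h

end RES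

theorem tRES : T_RES.{u} := by
  intro V G ang S hA
  refine ⟨hA.symm, fun v a b h1 h2 h3 => hA.pos v a b h1.1 h2.1 h3.1,
    fun a b c h1 h2 h3 => hA.sum_le a b c h1.1 h2.1 h3.1,
    fun v a b c h1 h2 h3 h4 h5 h6 => hA.link v a b c h1.1 h2.1 h3.1 h4.1 h5.1 h6.1, ?_⟩
  intro v a b l hl hcw hv hne
  refine hA.large v a b l hl (RES.cw_of hcw) (fun x hx => (hv x hx).1) ?_
  intro X x y z Y hL
  obtain ⟨h1, h2⟩ := hne X x y z Y hL
  refine ⟨h1, fun hxz => h2 ⟨hxz, ?_, ?_⟩⟩
  · have hx : x ∈ b :: (l ++ [a]) := by rw [hL]; simp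
    refine (hv x ?_).2.2
    simp only [List.mem_cons, List.mem_append, List.not_mem_nil, or_false] at hx ⊢
    tauto
  · have hz : z ∈ b :: (l ++ [a]) := by rw [hL]; simp
    refine (hv z ?_).2.2
    simp only [List.mem_cons, List.mem_append, List.not_mem_nil, or_false] at hz ⊢
    tauto

theorem tMCI : T_MCI.{u} := by
  intro V G len Y hM hL
  refine ⟨⟨fun a b => hM.symm a b, fun a b h => hM.pos a b h,
    fun a b c h1 h2 h3 => hM.triangle a b c h1 h2 h3,
    fun v a b c h1 h2 h3 h4 h5 h6 => hM.link v a b c h1 h2 h3 h4 h5 h6⟩, ?_⟩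
  intro v k c hk hper hinj hv hadj hno
  exact hL v k (fun i => (c i : V)) hk (fun i => congrArg Subtype.val (hper i))
    (fun i hi j hj hij => hinj hi hj (Subtype.ext hij)) hv hadj hno

end Pool.Agent.MSF
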