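import Pool.Agent.MSF.Targets

/-! T1: an involution moves some vertex by at most one. -/

namespace Pool.Agent.MSF

open List

universe u

namespace T1

variable {V : Type u} {G : SimpleGraph V}

/-! ### Closed walks -/

theorem cw_adj {w : List V} (h : CW G w) (h2 : 2 ≤ w.length) : ∀ x ∈ w, ∃ y, G.Adj x y := by
  intro x hx
  cases w with
  | nil => simp at hx
  | cons a l =>
    have hl : l ≠ [] := by
      rintro rfl
      simp at h2
    rw [CW_cons hl] at h
    obtain ⟨s, t, hst⟩ := List.append_of_mem hx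
    have e : a :: (l ++ [a]) = s ++ x :: (t ++ [a]) := by
      rw [← List.cons_append, hst]; simp
    rw [e, List.isChain_split] at h
    cases t with
    | nil =>
      simp only [List.nil_append, List.isChain_cons_cons] at h
      exact ⟨a, h.2.1⟩
    | cons b t =>
      simp only [List.cons_append, List.isChain_cons_cons] at h
      exact ⟨b, h.2.1⟩

theorem walk_list {u v : V} (p : G.Walk u v) :
    ∃ l : List V, List.IsChain G.Adj (l ++ [v]) ∧ (l ++ [v]).head? = some u := by
  induction p with
  | nil => exact ⟨[], by simp, by simp⟩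
  | @cons u v w h p ih =>
    obtain ⟨l, h1, h2⟩ := ih
    refine ⟨u :: l, ?_, by simp⟩
    rw [List.cons_append]
    cases l with
    | nil =>
      simp only [List.nil_append, List.head?_cons, Option.some.injEq] at h2
      subst h2
      simp [h]
    | cons b l =>
      simp only [List.cons_append, List.head?_cons, Option.some.injEq] at h2
      subst h2
      rw [List.cons_append, List.isChain_cons_cons]
      exact ⟨h, by simpa using h1⟩

/-! ### Cyclic lists of corners -/

theorem cycC_rot {c : Corner V} {D : List (Corner V)} (h : CycC (c :: D)) : CycC (D ++ [c]) := by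
  cases D with
  | nil => simpa using h
  | cons b D =>
    have h1 : List.IsChain Corner.Next (c :: b :: (D ++ [c])) := by simpa [CycC] using h
    rw [List.isChain_cons_cons] at h1
    have h2 : List.IsChain Corner.Next ((b :: D) ++ c :: [b]) := by
      rw [List.isChain_split]
      refine ⟨by simpa using h1.2, ?_⟩
      rw [List.isChain_cons_cons]
      exact ⟨h1.1, by simp⟩
    have h3 : List.IsChain Corner.Next (b :: ((D ++ [c]) ++ [b])) := by simpa using h2
    exact h3

theorem cycC_swap {X Y : List (Corner V)} (h : CycC (X ++ Y)) : CycC (Y ++ X) := by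
  induction X generalizing Y with
  | nil => simpa using h
  | cons c X ih =>
    have h1 : CycC (X ++ (Y ++ [c])) := by
      have : CycC (c :: (X ++ Y)) := by simpa using h
      simpa using cycC_rot this
    simpa using ih h1

/-! ### Lengths -/

theorem plen_append (ang : V → V → V → ℝ) (v x : V) : ∀ (L₁ L₂ : List V),
    plen ang v (L₁ ++ x :: L₂) = plen ang v (L₁ ++ [x]) + plen ang v (x :: L₂)
  | [], L₂ => by simp [plen]
  | [a], L₂ => by
    simp [plen]
  | (a :: b :: L), L₂ => by
    have := plen_append ang v x (b :: L) L₂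
    simp only [List.cons_append, plen] at this ⊢
    rw [this]
    ring

theorem plen_reverse (ang : V → V → V → ℝ) (v : V) (hs : ∀ v a b, ang v a b = ang v b a) :
    ∀ (L : List V), plen ang v L.reverse = plen ang v L
  | [] => rfl
  | [a] => rfl
  | (a :: b :: L) => by
    have ih := plen_reverse ang v hs (b :: L)
    have e : (a :: b :: L).reverse = L.reverse ++ b :: [a] := by simp
    rw [e, plen_append]
    have e2 : L.reverse ++ [b] = (b :: L).reverse := by simp
    rw [e2, ih]
    simp only [plen]
    rw [hs v b a]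
    ring

theorem plen_map (ang : V → V → V → ℝ) (g : Equiv.Perm V) (hg : IsAut G ang g) (u : V) :
    ∀ (L : List V), List.IsChain G.Adj L → (∀ z ∈ L, G.Adj u z) →
      plen ang (g u) (L.map g) = plen ang u L
  | [], _, _ => rfl
  | [a], _, _ => rfl
  | (a :: b :: L), hc, hL => by
    rw [List.isChain_cons_cons] at hc
    have ih := plen_map ang g hg u (b :: L) hc.2 (fun z hz => hL z (List.mem_cons_of_mem _ hz))
    simp only [List.map_cons, plen] at ih ⊢
    rw [ih, hg.ang u a b (hL a (by simp)) (hL b (by simp)) hc.1]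

/-! ### Expansions -/

theorem expand_append (M₁ M₂ : List (Corner V × Bool)) :
    expand (M₁ ++ M₂) = expand M₁ ++ expand M₂ := by
  induction M₁ with
  | nil => simp [expand]
  | cons c M ih => simp [expand, ih]

theorem cost_append (M₁ M₂ : List (Corner V × Bool)) :
    cost (M₁ ++ M₂) = cost M₁ + cost M₂ := by
  induction M₁ with
  | nil => simp [cost]
  | cons c M ih => simp [cost, ih, Nat.add_assoc]

/-- Unmarked corners. -/
def un (L : List (Corner V)) : List (Corner V × Bool) := L.map fun c => (c, false)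

theorem expand_un (L : List (Corner V)) : expand (un L) = L.map Corner.v := by
  induction L with
  | nil => rfl
  | cons c L ih =>
    simp only [un, List.map_cons, expand] at ih ⊢
    rw [ih]
    simp

theorem cost_un (L : List (Corner V)) : cost (un L) = 0 := by
  induction L with
  | nil => rfl
  | cons c L ih =>
    simp only [un, List.map_cons, cost] at ih ⊢
    rw [ih]
    simp

theorem fst_un (L : List (Corner V)) : (un L).map Prod.fst = L := by
  induction L with
  | nil => rfl
  | cons c L ih =>
    simp only [un, List.map_cons] at ih ⊢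
    rw [ih]

theorem snd_un {L : List (Corner V)} {c : Corner V × Bool} (h : c ∈ un L) : c.2 = false := by
  simp only [un, List.mem_map] at h
  obtain ⟨d, -, rfl⟩ := h
  rfl

theorem marksOK (E₁ E₂ E₃ E₄ : List (Corner V)) (d d' : Corner V) (h : ¬ G.Adj d.v d'.v) :
    MarksOK G (un E₁ ++ (d, true) :: (un E₂ ++ (un E₃ ++ (d', true) :: un E₄))) := by
  have hun : ∀ L : List (Corner V), (un L).Pairwise
      fun c c' => c.2 = true → c'.2 = true → ¬ G.Adj c.1.v c'.1.v := by
    intro L
    refine List.Pairwise.imp_of_mem (R := fun _ _ => True) ?_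
      (List.pairwise_of_forall fun _ _ => trivial)
    intro a b ha _ _ h1
    rw [snd_un ha] at h1
    simp at h1
  unfold MarksOK
  rw [List.pairwise_append]
  refine ⟨hun _, ?_, ?_⟩
  · rw [List.pairwise_cons]
    refine ⟨?_, ?_⟩
    · intro c hc _ h2
      simp only [List.mem_append, List.mem_cons] at hc
      rcases hc with hc | hc | hc | hc
      · rw [snd_un hc] at h2; simp at h2
      · rw [snd_un hc] at h2; simp at h2
      · subst hc; exact h
      · rw [snd_un hc] at h2; simp at h2
    · rw [List.pairwise_append]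
      refine ⟨hun _, ?_, ?_⟩
      · rw [List.pairwise_append]
        refine ⟨hun _, ?_, ?_⟩
        · rw [List.pairwise_cons]
          refine ⟨?_, hun _⟩
          intro c hc _ h2
          rw [snd_un hc] at h2; simp at h2
        · intro a ha b _ h1
          rw [snd_un ha] at h1; simp at h1
      · intro a ha b _ h1
        rw [snd_un ha] at h1; simp at h1
  · intro a ha b _ h1
    rw [snd_un ha] at h1; simp at h1

/-! ### The good position -/

theorem pos_exists (f : Corner V → ℝ) : ∀ (D₁ D₂ : List (Corner V)), D₁.length = D₂.length →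
    0 < (D₁.map f).sum + (D₂.map f).sum →
    ∃ E₁ d E₂ E₃ d' E₄, D₁ = E₁ ++ d :: E₂ ∧ D₂ = E₃ ++ d' :: E₄ ∧ E₁.length = E₃.length ∧
      0 < f d + f d'
  | [], [], _, h => by simp at h
  | [], (_ :: _), hl, _ => by simp at hl
  | (_ :: _), [], hl, _ => by simp at hl
  | (c₁ :: D₁), (c₂ :: D₂), hl, h => by
    by_cases hc : 0 < f c₁ + f c₂
    · exact ⟨[], c₁, D₁, [], c₂, D₂, rfl, rfl, rfl, hc⟩
    · have h1 : 0 < (D₁.map f).sum + (D₂.map f).sum := by
        simp only [List.map_cons, List.sum_cons] at h
        linarith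
      obtain ⟨E₁, d, E₂, E₃, d', E₄, e1, e2, e3, e4⟩ :=
        pos_exists f D₁ D₂ (by simpa using hl) h1
      exact ⟨c₁ :: E₁, d, E₂, c₂ :: E₃, d', E₄, by simp [e1], by simp [e2], by simp [e3], e4⟩

/-! ### The local replacement -/

/-- The replacement step: all data around the two opposite corners. -/
theorem step (hF : T_FILL.{u}) (hG : T_GLUE.{u}) {ang : V → V → V → ℝ} (hA : Angled G ang)
    (S : Set V) (hS : ∀ a b, G.Adj a b → a ∈ S) (g : Equiv.Perm V) (hg : IsAut G ang g)
    (hgg : ∀ v ∈ S, g (g v) = v) (d d' : Corner V) (B C : List (Corner V)) (β : List V)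
    (hβ : β ≠ []) (hB : B.map Corner.v = β) (hC : C.map Corner.v = β.map g)
    (hv : d'.v = g d.v) (hcyc : CycC (d :: (B ++ d' :: C)))
    (hd : CornerOK G ang d) (hd' : CornerOK G ang d') (hth : d.th + d'.th < 2 * Real.pi)
    (k : ℕ) (hk : Null G k (d.F ++ (β ++ (d'.F ++ β.map g)))) :
    ∃ β' : List V, β' ≠ [] ∧ Null G (k + (d.F.length + d'.F.length)) (β' ++ β'.map g) := by
  have hchain : List.IsChain Corner.Next (d :: ((B ++ d' :: C) ++ [d])) := hcyc
  have hB0 : B ≠ [] := by
    rintro rfl
    exact hβ hB.symm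
  have hC0 : C ≠ [] := by
    rintro rfl
    simp only [List.map_nil] at hC
    exact hβ (List.map_eq_nil_iff.1 hC.symm)
  have e1 : d :: ((B ++ d' :: C) ++ [d]) = (d :: B) ++ d' :: (C ++ [d]) := by simp
  rw [e1, List.isChain_split] at hchain
  obtain ⟨hc1, hc2⟩ := hchain
  -- the successor of `d`
  obtain ⟨y, β₁, hy, hdn⟩ : ∃ y β₁, β = y :: β₁ ∧ d.n = y := by
    cases B with
    | nil => exact absurd rfl hB0
    | cons b B =>
      simp only [List.cons_append, List.isChain_cons_cons] at hc1
      refine ⟨b.v, B.map Corner.v, ?_, hc1.1.1⟩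
      rw [← hB]; simp
  -- the predecessor of `d'`
  obtain ⟨x', β₂, hx', hdp'⟩ : ∃ x' β₂, β = β₂ ++ [x'] ∧ d'.p = x' := by
    rcases List.eq_nil_or_concat B with rfl | ⟨B', b, rfl⟩
    · exact absurd rfl hB0
    · have e2 : d :: (B' ++ [b]) ++ [d'] = (d :: B') ++ b :: [d'] := by simp
      have hc3 : List.IsChain Corner.Next ((d :: B') ++ b :: [d']) := by
        rw [← e2]; simpa using hc1
      rw [List.isChain_split] at hc3
      have hc4 := hc3.2
      rw [List.isChain_cons_cons] at hc4
      refine ⟨b.v, B'.map Corner.v, ?_, hc4.1.2⟩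
      rw [← hB]; simp
  -- the successor of `d'`
  have hdn' : d'.n = g y := by
    cases C with
    | nil => exact absurd rfl hC0
    | cons c C =>
      simp only [List.cons_append, List.isChain_cons_cons] at hc2
      have h3 := hC
      rw [hy] at h3
      simp only [List.map_cons, List.cons.injEq] at h3
      rw [hc2.1.1, h3.1]
  -- the predecessor of `d`
  have hdp : d.p = g x' := by
    rcases List.eq_nil_or_concat C with rfl | ⟨C', c, rfl⟩
    · exact absurd rfl hC0
    · have e2 : d' :: ((C' ++ [c]) ++ [d]) = (d' :: C') ++ c :: [d] := by simp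
      have hc3 : List.IsChain Corner.Next ((d' :: C') ++ c :: [d]) := by
        rw [← e2]; simpa using hc2
      rw [List.isChain_split] at hc3
      have hc4 := hc3.2
      rw [List.isChain_cons_cons] at hc4
      have h3 := hC
      rw [hx'] at h3
      simp only [List.concat_eq_append, List.map_append, List.map_cons, List.map_nil] at h3
      have h4 := List.append_inj' h3 (by simp)
      have h5 : c.v = g x' := by simpa using h4.2
      rw [hc4.1.2, h5]
  -- memberships
  have hvS : d.v ∈ S := hS _ _ (hd.link d.p (by simp))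
  have hyS : y ∈ S := by
    have := (hd.link d.n (by simp)).symm
    rw [hdn] at this
    exact hS _ _ this
  have hlink' : ∀ z ∈ d'.p :: (d'.F ++ [d'.n]), z ∈ S := fun z hz =>
    hS _ _ (hd'.link z hz).symm
  have hF'S : ∀ z ∈ d'.F, g (g z) = z := fun z hz => hgg z (hlink' z (by simp [hz]))
  -- the transported fan
  set x : V := g x' with hx
  set P : List V := d'.F.map g with hPdef
  have hmap : (d'.p :: (d'.F ++ [d'.n])).map g = x :: (P ++ [y]) := by
    rw [hdp', hdn']
    simp only [List.map_cons, List.map_append, List.map_nil, hgg y hyS]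
    rfl
  have hchP : List.IsChain G.Adj (x :: (P ++ [y])) := by
    rw [← hmap, List.isChain_map]
    exact hd'.chain.imp fun a b hab => (hg.adj a b).2 hab
  have hgv' : g d'.v = d.v := by rw [hv, hgg _ hvS]
  have hlkP : ∀ z ∈ x :: (P ++ [y]), G.Adj d.v z := by
    intro z hz
    rw [← hmap, List.mem_map] at hz
    obtain ⟨z', hz', rfl⟩ := hz
    rw [← hgv', hg.adj]
    exact hd'.link z' hz'
  have hlenP : plen ang d.v (x :: (P ++ [y])) = d'.th := by
    rw [← hmap, ← hgv', plen_map ang g hg d'.v _ hd'.chain hd'.link, hd'.len]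
  have hchF : List.IsChain G.Adj (x :: (d.F ++ [y])) := by
    have := hd.chain
    rwa [hdp, hdn] at this
  have hlkF : ∀ z ∈ x :: (d.F ++ [y]), G.Adj d.v z := by
    have := hd.link
    rwa [hdp, hdn] at this
  have hlenF : plen ang d.v (x :: (d.F ++ [y])) = d.th := by
    have := hd.len
    rw [hdp, hdn] at this
    exact this.symm
  -- the closed walk in the link
  have hrev : y :: (P.reverse ++ [x]) = (x :: (P ++ [y])).reverse := by simp
  have hcl : clen ang d.v (x :: (d.F ++ y :: P.reverse)) < 2 * Real.pi := by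
    show plen ang d.v (x :: ((d.F ++ y :: P.reverse) ++ [x])) < _
    have e2 : x :: ((d.F ++ y :: P.reverse) ++ [x]) =
        (x :: d.F) ++ y :: (P.reverse ++ [x]) := by simp
    rw [e2, plen_append, hrev, plen_reverse ang d.v hA.symm, hlenP]
    have e3 : (x :: d.F) ++ [y] = x :: (d.F ++ [y]) := by simp
    rw [e3, hlenF]
    exact hth
  have hcw : CW G (x :: (d.F ++ y :: P.reverse)) := by
    rw [CW_cons (by simp)]
    have e2 : x :: ((d.F ++ y :: P.reverse) ++ [x]) =
        (x :: d.F) ++ y :: (P.reverse ++ [x]) := by simp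
    rw [e2, List.isChain_split]
    refine ⟨by simpa using hchF, ?_⟩
    rw [hrev, List.isChain_reverse]
    exact hchP.imp fun a b hab => hab.symm
  have hlk : ∀ z ∈ x :: (d.F ++ y :: P.reverse), G.Adj d.v z := by
    intro z hz
    simp only [List.mem_cons, List.mem_append, List.mem_reverse] at hz
    rcases hz with hz | hz | hz | hz
    · exact hlkF z (by simp [hz])
    · exact hlkF z (by simp [hz])
    · exact hlkF z (by simp [hz])
    · exact hlkP z (by simp [hz])
  have hfill := hF G ang hA d.v (x :: (d.F ++ y :: P.reverse)) (by simp; omega) hcw hlk hcl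
  have hlenc : (x :: (d.F ++ y :: P.reverse)).length - 2 = d.F.length + d'.F.length := by
    simp [hPdef]
  rw [hlenc] at hfill
  have hfill2 : Null G (d.F.length + d'.F.length) (x :: (P ++ y :: d.F.reverse)) := by
    have h1 := hfill.reverse
    have e2 : (x :: (d.F ++ y :: P.reverse)).reverse = (P ++ y :: d.F.reverse) ++ [x] := by simp
    rw [e2] at h1
    simpa using h1.swap
  -- the big closed walk, starting at `x`
  have hgβ : β.map g = β₂.map g ++ [x] := by rw [hx']; simp [hx]
  have hk2 : Null G k (x :: (d.F ++ y :: (β₁ ++ (d'.F ++ β₂.map g)))) := by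
    have e2 : d.F ++ (β ++ (d'.F ++ β.map g)) =
        (d.F ++ y :: (β₁ ++ (d'.F ++ β₂.map g))) ++ [x] := by
      rw [hgβ]
      conv_lhs => rw [hy]
      simp
    rw [e2] at hk
    simpa using hk.swap
  have hres := hG G k (d.F.length + d'.F.length) x y P d.F (β₁ ++ (d'.F ++ β₂.map g)) hk2 hfill2
  refine ⟨P ++ β, by simp [hβ], ?_⟩
  have hmm : (P ++ β).map g = d'.F ++ (β₂.map g ++ [x]) := by
    rw [List.map_append, hgβ, hPdef, List.map_map]
    congr 1
    conv_rhs => rw [← List.map_id d'.F]
    exact List.map_congr_left fun z hz => by simpa using hF'S z hz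
  rw [hmm]
  have e2 : P ++ β ++ (d'.F ++ (β₂.map g ++ [x])) =
      (P ++ y :: (β₁ ++ (d'.F ++ β₂.map g))) ++ [x] := by
    conv_lhs => rw [hy]
    simp
  rw [e2]
  have h3 : Null G (k + (d.F.length + d'.F.length))
      ([x] ++ (P ++ y :: (β₁ ++ (d'.F ++ β₂.map g)))) := by simpa using hres
  exact h3.swap

end T1

theorem tT1 (hI : T_T1I.{u}) (hD : T_DS.{u}) (hF : T_FILL.{u}) (hG : T_GLUE.{u}) :
    T_T1.{u} := by
  classical
  intro V G ang hA S hSne hS hreach hnull g hg hgS hgg
  by_contra hcon
  push Not at hcon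
  have hne : ∀ v ∈ S, g v ≠ v := fun v hv => (hcon v hv).1
  have hna : ∀ v ∈ S, ¬ G.Adj v (g v) := fun v hv => (hcon v hv).2
  -- an antipodal null list
  have hex : ∃ A, ∃ β : List V, β ≠ [] ∧ Null G A (β ++ β.map g) := by
    obtain ⟨v₀, hv₀⟩ := hSne
    obtain ⟨p⟩ := hreach v₀ hv₀ (g v₀) ((hgS v₀).2 hv₀)
    obtain ⟨l, hl1, hl2⟩ := T1.walk_list p
    cases l with
    | nil =>
      simp only [List.nil_append, List.head?_cons, Option.some.injEq] at hl2
      exact absurd hl2 (hne v₀ hv₀)
    | cons a l =>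
      simp only [List.cons_append, List.head?_cons, Option.some.injEq] at hl2
      subst hl2
      have hcw : CW G ((a :: l) ++ (a :: l).map g) := by
        rw [List.cons_append, CW_cons (by simp)]
        have e : a :: ((l ++ (a :: l).map g) ++ [a]) = (a :: l) ++ g a :: (l.map g ++ [a]) := by
          simp
        rw [e, List.isChain_split]
        refine ⟨hl1, ?_⟩
        have e2 : g a :: (l.map g ++ [a]) = ((a :: l) ++ [g a]).map g := by
          simp [hgg a hv₀]
        rw [e2, List.isChain_map]
        exact hl1.imp fun x y hxy => (hg.adj x y).2 hxy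
      obtain ⟨A, hN⟩ := hnull _ hcw
      exact ⟨A, a :: l, by simp, hN⟩
  obtain ⟨A, hA1, hA2⟩ : ∃ A, (∃ β : List V, β ≠ [] ∧ Null G A (β ++ β.map g)) ∧
      ∀ k, (∃ β : List V, β ≠ [] ∧ Null G k (β ++ β.map g)) → A ≤ k :=
    ⟨Nat.find hex, Nat.find_spec hex, fun k hk => Nat.find_min' hex hk⟩
  have hex2 : ∃ n, ∃ β : List V, β.length = n ∧ β ≠ [] ∧ Null G A (β ++ β.map g) := by
    obtain ⟨β, h1, h2⟩ := hA1
    exact ⟨_, β, rfl, h1, h2⟩
  obtain ⟨α, hαl, hα0, hαN⟩ := Nat.find_spec hex2
  have hmin : ∀ (k : ℕ) (β : List V), β ≠ [] → Null G k (β ++ β.map g) →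
      A ≤ k ∧ (k ≤ A → α.length ≤ β.length) := by
    intro k β hβ hN
    have h1 : A ≤ k := hA2 k ⟨β, hβ, hN⟩
    refine ⟨h1, fun h2 => ?_⟩
    have h3 : k = A := le_antisymm h2 h1
    subst h3
    rw [hαl]
    exact Nat.find_min' hex2 ⟨β, rfl, hβ, hN⟩
  have hirr := hI G g S hS hg.adj hgg hne A α hα0 hαN hmin
  have hMin : MinA G A (α ++ α.map g) := ⟨hαN, fun k hk => (hmin k α hα0 hk).1⟩
  have hα2 : 2 ≤ α.length := by
    rcases α with _ | ⟨c, _ | ⟨e, l⟩⟩
    · exact absurd rfl hα0
    · exfalso
      have h1 := hαN.cw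
      simp only [List.map_cons, List.map_nil, List.cons_append, List.nil_append, CW,
        List.isChain_cons_cons] at h1
      exact hna c (hS _ _ h1.1) h1.1
    · simp
  have hlen4 : 4 ≤ (α ++ α.map g).length := by
    simp; omega
  have hwS : ∀ x ∈ α ++ α.map g, x ∈ S := by
    intro x hx
    obtain ⟨y, hy⟩ := T1.cw_adj hαN.cw (by omega) x hx
    exact hS _ _ hy
  obtain ⟨D, hDv, hDc, hDok, hDsum, hDexp⟩ := hD G ang hA A (α ++ α.map g) (by omega) hMin hirr
  obtain ⟨D₁, D₂, rfl, hD1, hD2⟩ := List.map_eq_append_iff.1 hDv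
  have hlen : D₁.length = D₂.length := by
    have h1 := congrArg List.length hD1
    have h2 := congrArg List.length hD2
    simp only [List.length_map] at h1 h2
    omega
  have hpos : 0 < (D₁.map fun c => Real.pi - c.th).sum + (D₂.map fun c => Real.pi - c.th).sum := by
    rw [List.map_append, List.sum_append] at hDsum
    have := Real.pi_pos
    linarith
  obtain ⟨E₁, d, E₂, E₃, d', E₄, rfl, rfl, hE, hf⟩ :=
    T1.pos_exists (fun c => Real.pi - c.th) D₁ D₂ hlen hpos
  have hth : d.th + d'.th < 2 * Real.pi := by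
    linarith
  -- the labels
  set a₁ := E₁.map Corner.v with ha₁
  set a₂ := E₂.map Corner.v with ha₂
  have hα : α = a₁ ++ d.v :: a₂ := by rw [← hD1]; simp [ha₁, ha₂]
  have hlab : E₃.map Corner.v ++ d'.v :: E₄.map Corner.v =
      a₁.map g ++ g d.v :: a₂.map g := by
    have h1 := hD2
    rw [hα] at h1
    simpa using h1
  have hlab2 := List.append_inj hlab (by simp [ha₁, hE])
  obtain ⟨hl3, hlab3⟩ := hlab2
  simp only [List.cons.injEq] at hlab3
  obtain ⟨hv, hl4⟩ := hlab3
  have ha1S : ∀ z ∈ a₁, g (g z) = z := by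
    intro z hz
    refine hgg z (hwS z ?_)
    rw [hα]
    simp [hz]
  have hvS : d.v ∈ S := by
    apply hwS
    rw [hα]
    simp
  -- expansion
  obtain ⟨k, hk, hkA⟩ := hDexp
    (T1.un E₁ ++ (d, true) :: (T1.un E₂ ++ (T1.un E₃ ++ (d', true) :: T1.un E₄)))
    (by simp [T1.fst_un]) (T1.marksOK E₁ E₂ E₃ E₄ d d' (by rw [hv]; exact hna _ hvS))
  have hcost : cost (T1.un E₁ ++ (d, true) :: (T1.un E₂ ++ (T1.un E₃ ++ (d', true) :: T1.un E₄)))
      = (d.F.length + 1) + (d'.F.length + 1) := by
    simp only [T1.cost_append, cost, T1.cost_un]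
    simp
  have hexp : expand (T1.un E₁ ++ (d, true) ::
      (T1.un E₂ ++ (T1.un E₃ ++ (d', true) :: T1.un E₄))) =
      a₁ ++ (d.F ++ (a₂ ++ (a₁.map g ++ (d'.F ++ a₂.map g)))) := by
    simp only [T1.expand_append, expand, T1.expand_un, hl3, hl4]
    simp [ha₁, ha₂]
  rw [hcost] at hkA
  rw [hexp] at hk
  have hgg1 : (a₁.map g).map g = a₁ := by
    rw [List.map_map]
    conv_rhs => rw [← List.map_id a₁]
    exact List.map_congr_left fun z hz => by simpa using ha1S z hz
  set β : List V := a₂ ++ a₁.map g with hβdef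
  have hβg : β.map g = a₂.map g ++ a₁ := by
    rw [hβdef, List.map_append, hgg1]
  have hβ0 : β ≠ [] := by
    intro h0
    have h1 := congrArg List.length h0
    have h2 := congrArg List.length hα
    simp only [hβdef, List.length_append, List.length_map, List.length_nil,
      List.length_cons] at h1 h2
    omega
  have hk2 : Null G k (d.F ++ (β ++ (d'.F ++ β.map g))) := by
    have h1 := hk.swap
    rw [hβg, hβdef]
    simpa using h1
  have hcyc : CycC (d :: ((E₂ ++ E₃) ++ d' :: (E₄ ++ E₁))) := by
    have h1 : CycC (E₁ ++ (d :: (E₂ ++ (E₃ ++ d' :: E₄)))) := by simpa using hDc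
    have h2 := T1.cycC_swap h1
    simpa using h2
  obtain ⟨β', hβ', hN'⟩ := T1.step hF hG hA S hS g hg hgg d d' (E₂ ++ E₃) (E₄ ++ E₁) β hβ0
    (by rw [List.map_append, hl3]) (by rw [List.map_append, hl4, hβg]) hv hcyc
    (hDok d (by simp)) (hDok d' (by simp)) hth k hk2
  have h9 := (hmin _ β' hβ' hN').1
  omega

end Pool.Agent.MSF
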