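import Pool.Agent.MSF.Targets

/-! T1I: a minimal antipodal closed walk is irreducible. -/

set_option autoImplicit false

namespace Pool.Agent.MSF

open List

universe u

namespace T1I

variable {V : Type u} {G : SimpleGraph V}

theorem adj_of_mem {w : List V} (h : CW G w) (h2 : 2 ≤ w.length) {x : V} (hx : x ∈ w) :
    ∃ y, G.Adj x y := by
  obtain ⟨X, Y, rfl⟩ := List.append_of_mem hx
  have h1 : CW G (x :: (Y ++ X)) := by
    have := h.rotated (List.isRotated_append (l := X) (l' := x :: Y))
    simpa using this
  have hne : Y ++ X ≠ [] := by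
    intro h0
    obtain ⟨rfl, rfl⟩ := List.append_eq_nil_iff.1 h0
    simp at h2
  rw [CW_cons hne] at h1
  cases hl : Y ++ X with
  | nil => exact absurd hl hne
  | cons y l =>
    rw [hl] at h1
    simp only [List.cons_append, List.isChain_cons_cons] at h1
    exact ⟨y, h1.1⟩

/-- Rotations of antipodal lists are antipodal. -/
theorem rot_anti (g : V → V) (α : List V) (hg : ∀ v ∈ α, g (g v) = v) (n : ℕ) :
    ∃ β : List V, β.length = α.length ∧ (α ++ α.map g).rotate n = β ++ β.map g ∧
      ∀ v ∈ β, g (g v) = v := by
  induction n with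
  | zero => exact ⟨α, rfl, by simp, hg⟩
  | succ n ih =>
    obtain ⟨β, hl, hβ, hg'⟩ := ih
    cases β with
    | nil =>
      refine ⟨[], hl, ?_, by simp⟩
      rw [← List.rotate_rotate, hβ]
      simp
    | cons a β =>
      refine ⟨β ++ [g a], by simpa using hl, ?_, ?_⟩
      · rw [← List.rotate_rotate, hβ]
        have ha : g (g a) = a := hg' a (by simp)
        simp [ha]
      · intro v hv
        rcases List.mem_append.1 hv with h | h
        · exact hg' v (by simp [h])
        · have : v = g a := by simpa using h
          rw [this, hg' a (by simp)]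

theorem main (hG : T_GEN.{u}) (g : Equiv.Perm V) (S : Set V)
    (hS : ∀ a b, G.Adj a b → a ∈ S) (hadj : ∀ a b, G.Adj (g a) (g b) ↔ G.Adj a b)
    (hgg : ∀ v ∈ S, g (g v) = v) (hfp : ∀ v ∈ S, g v ≠ v) (A : ℕ) (α : List V) (hα : α ≠ [])
    (hn : Null G A (α ++ α.map g))
    (hmin : ∀ (k : ℕ) (β : List V), β ≠ [] → Null G k (β ++ β.map g) →
      A ≤ k ∧ (k ≤ A → α.length ≤ β.length))
    (c : V) (s t : List V) (m n : ℕ) (hw : (α ++ α.map g) ~r (c :: (s ++ c :: t)))
    (hs : s ≠ []) (_ht : t ≠ []) (h1 : Null G m (c :: s)) (h2 : Null G n (c :: t))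
    (hle : s.length ≤ t.length) : A < m + n := by
  by_contra hcon
  push Not at hcon
  have hα1 : 1 ≤ α.length := List.length_pos_iff.2 hα
  have hmem : ∀ v ∈ α ++ α.map g, v ∈ S := by
    intro v hv
    obtain ⟨y, hy⟩ := adj_of_mem hn.cw (by simp; omega) hv
    exact hS v y hy
  have hcS : c ∈ S := hmem c (hw.mem_iff.2 (by simp))
  obtain ⟨k, hk⟩ := hw
  obtain ⟨β, hβl, hβ, -⟩ := rot_anti g α (fun v hv => hgg v (hmem v (by simp [hv]))) k
  rw [hβ] at hk
  -- lengths
  have hlen := congrArg List.length hk
  simp only [List.length_append, List.length_map, List.length_cons] at hlen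
  have e1 : β ++ β.map g = (c :: s) ++ (c :: t) := by rw [hk]; simp
  rcases Nat.lt_or_ge s.length.succ β.length with hlt | hge
  · -- `β = c :: s ++ β₂`
    obtain ⟨β₂, hβ₂⟩ : ∃ β₂, β = (c :: s) ++ β₂ := by
      have hp : (c :: s) <+: β := by
        refine List.prefix_of_prefix_length_le (l₃ := β ++ β.map g) ?_ (List.prefix_append _ _) ?_
        · rw [e1]
          exact List.prefix_append _ _
        · simp only [List.length_cons]
          omega
      obtain ⟨β₂, h⟩ := hp
      exact ⟨β₂, h.symm⟩
    have e2 : β₂ ++ β.map g = c :: t := by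
      have : (c :: s) ++ (β₂ ++ β.map g) = (c :: s) ++ (c :: t) := by
        rw [← e1]
        nth_rewrite 2 [hβ₂]
        rw [List.append_assoc]
      exact List.append_cancel_left this
    have hβ₂ne : β₂ ≠ [] := by
      rintro rfl
      have := congrArg List.length hβ₂
      simp at this
      omega
    cases β₂ with
    | nil => exact absurd rfl hβ₂ne
    | cons c' t₁ =>
      simp only [List.cons_append, List.cons.injEq] at e2
      obtain ⟨rfl, e2⟩ := e2
      have e3 : t = t₁ ++ g c' :: (s.map g ++ g c' :: t₁.map g) := by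
        rw [← e2, hβ₂]
        simp
      have h3 : Null G n (g c' :: ((t₁.map g ++ c' :: t₁) ++ g c' :: s.map g)) := by
        have h4 : Null G n ((c' :: t₁ ++ g c' :: s.map g) ++ (g c' :: t₁.map g)) := by
          rw [e3] at h2
          simpa using h2
        have h5 := h4.swap
        simpa using h5
      have h4 : Null G m (g c' :: s.map g) := by
        have := h1.map (G' := G) g (fun a b h => (hadj a b).2 h)
        simpa using this
      have h5 := hG G n m (g c') (t₁.map g ++ c' :: t₁) (s.map g) (by simp) (by simpa using hs)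
        h3 h4
      have h6 : Null G (n + m) ((c' :: t₁) ++ (c' :: t₁).map g) := by
        have h7 : Null G (n + m) ((g c' :: t₁.map g) ++ (c' :: t₁)) := by simpa using h5
        simpa using h7.swap
      have h7 := (hmin (n + m) (c' :: t₁) (by simp) h6).2 (by omega)
      have h8 := congrArg List.length hβ₂
      simp only [List.length_append, List.length_cons] at h7 h8
      omega
  · -- `p = N`
    have hsl : β.length = (c :: s).length := by
      simp only [List.length_cons]
      omega
    obtain ⟨e2, e3⟩ := List.append_inj e1 hsl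
    rw [e2] at e3
    simp only [List.map_cons, List.cons.injEq] at e3
    exact hfp c hcS e3.1

end T1I

theorem tT1I (hG : T_GEN.{u}) : T_T1I.{u} := by
  intro V G g S hS hadj hgg hfp A α hα hn hmin c s t m n hw hs ht h1 h2
  rcases le_total s.length t.length with h | h
  · exact T1I.main hG g S hS hadj hgg hfp A α hα hn hmin c s t m n hw hs ht h1 h2 h
  · have hw' : (α ++ α.map g) ~r (c :: (t ++ c :: s)) := by
      refine hw.trans ?_
      have := List.isRotated_append (l := c :: s) (l' := c :: t)
      simpa using this
    have := T1I.main hG g S hS hadj hgg hfp A α hα hn hmin c t s n m hw' ht hs h2 h1 h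
    omega

end Pool.Agent.MSF
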