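import Pool.Agent.MSF.Targets

/-! T2: the fixed vertices of an automorphism span a connected subcomplex. -/

namespace Pool.Agent.MSF

open List

universe u

namespace T2

variable {V : Type u} {G : SimpleGraph V} {ang : V → V → V → ℝ}

theorem plen_append (v a : V) (L M : List V) :
    plen ang v (L ++ a :: M) = plen ang v (L ++ [a]) + plen ang v (a :: M) := by
  induction L with
  | nil => simp [plen]
  | cons b L ih =>
    cases L with
    | nil => simp [plen]
    | cons c L =>
      simp only [cons_append, plen] at ih ⊢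
      rw [ih]; ring

theorem plen_map {g : Equiv.Perm V} (hg : IsAut G ang g) (v : V) :
    ∀ L : List V, IsChain G.Adj L → (∀ x ∈ L, G.Adj v x) →
      plen ang (g v) (L.map g) = plen ang v L
  | [], _, _ => rfl
  | [_], _, _ => rfl
  | (a :: b :: l), hc, hl => by
    rw [isChain_cons_cons] at hc
    have h1 := plen_map hg v (b :: l) hc.2 (fun x hx => hl x (mem_cons_of_mem _ hx))
    have h2 := hg.ang v a b (hl a (by simp)) (hl b (by simp)) hc.1
    simp only [map_cons, plen] at h1 ⊢
    rw [h1, h2]

theorem plen_nonneg (hA : Angled G ang) (v : V) :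
    ∀ L : List V, IsChain G.Adj L → (∀ x ∈ L, G.Adj v x) → 0 ≤ plen ang v L
  | [], _, _ => le_refl _
  | [_], _, _ => le_refl _
  | (a :: b :: l), hc, hl => by
    rw [isChain_cons_cons] at hc
    have h1 := plen_nonneg hA v (b :: l) hc.2 (fun x hx => hl x (mem_cons_of_mem _ hx))
    have h2 := hA.pos v a b (hl a (by simp)) (hl b (by simp)) hc.1
    simp only [plen]
    linarith

theorem plen_pos (hA : Angled G ang) (v a b : V) (l : List V)
    (hc : IsChain G.Adj (a :: b :: l)) (hl : ∀ x ∈ a :: b :: l, G.Adj v x) :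
    0 < plen ang v (a :: b :: l) := by
  rw [isChain_cons_cons] at hc
  have h1 := plen_nonneg hA v (b :: l) hc.2 (fun x hx => hl x (mem_cons_of_mem _ hx))
  have h2 := hA.pos v a b (hl a (by simp)) (hl b (by simp)) hc.1
  simp only [plen]
  linarith

theorem th_pos (hA : Angled G ang) {c : Corner V} (hc : CornerOK G ang c) : 0 < c.th := by
  obtain ⟨h1, h2, h3⟩ := hc
  rw [h3]
  cases hF : c.F with
  | nil =>
    rw [hF] at h1 h2
    exact plen_pos hA _ _ _ _ h1 h2
  | cons a l =>
    rw [hF] at h1 h2
    exact plen_pos hA _ _ _ _ h1 h2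

theorem pair_split {α : Type*} (f : α → ℝ) : ∀ (P Q : List α), P.length = Q.length →
    0 < (P.map f).sum + (Q.map f).sum →
    ∃ (E1 : List α) (d : α) (E2 E2' : List α) (d' : α) (E1' : List α),
      P = E1 ++ d :: E2 ∧ Q = E2' ++ d' :: E1' ∧ E1.length = E1'.length ∧
        E2.length = E2'.length ∧ 0 < f d + f d' := by
  intro P
  induction P with
  | nil =>
    intro Q hQ hs
    have : Q = [] := List.length_eq_zero_iff.1 hQ.symm
    subst this
    simp at hs
  | cons a P ih =>
    intro Q hQ hs
    rcases List.eq_nil_or_concat Q with rfl | ⟨Q', b, rfl⟩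
    · simp at hQ
    · have hlen : P.length = Q'.length := by simpa using hQ
      by_cases h : 0 < f a + f b
      · exact ⟨[], a, P, Q', b, [], by simp, by simp, rfl, hlen, h⟩
      · have hs' : 0 < (P.map f).sum + (Q'.map f).sum := by
          simp only [List.concat_eq_append, List.map_cons, List.sum_cons, List.map_append,
            List.map_nil, List.sum_append, List.sum_nil] at hs
          push Not at h
          linarith
        obtain ⟨E1, d, E2, E2', d', E1', h1, h2, h3, h4, h5⟩ := ih Q' hlen hs'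
        refine ⟨a :: E1, d, E2, E2', d', E1' ++ [b], by simp [h1], by simp [h2], ?_, h4, h5⟩
        simp [h3]

/-- unmarked corners -/
def um (L : List (Corner V)) : List (Corner V × Bool) := L.map fun c => (c, false)

theorem map_fst_um (L : List (Corner V)) : (um L).map Prod.fst = L := by
  induction L with
  | nil => rfl
  | cons c L ih => simpa [um] using ih

theorem expand_append (L M : List (Corner V × Bool)) : expand (L ++ M) = expand L ++ expand M := by
  induction L with
  | nil => rfl
  | cons c L ih => simp [expand, ih]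

theorem expand_um (L : List (Corner V)) : expand (um L) = L.map Corner.v := by
  induction L with
  | nil => rfl
  | cons c L ih => simp only [um, List.map_cons, expand] at ih ⊢; simp [ih]

theorem cost_append (L M : List (Corner V × Bool)) : cost (L ++ M) = cost L + cost M := by
  induction L with
  | nil => simp [cost]
  | cons c L ih => simp only [cons_append, cost, ih]; ring

theorem cost_um (L : List (Corner V)) : cost (um L) = 0 := by
  induction L with
  | nil => rfl
  | cons c L ih => simp only [um, List.map_cons, cost] at ih ⊢; simp [ih]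

theorem mem_um {L : List (Corner V)} {c : Corner V × Bool} (h : c ∈ um L) : c.2 = false := by
  simp only [um, List.mem_map] at h
  obtain ⟨a, _, rfl⟩ := h
  rfl

/-- The marks on two corners with non-adjacent labels. -/
theorem marks_ok (L1 L2 L3 : List (Corner V)) (d d' : Corner V) (h : ¬ G.Adj d.v d'.v) :
    MarksOK G (um L1 ++ (d, true) :: (um L2 ++ (d', true) :: um L3)) := by
  unfold MarksOK
  rw [List.pairwise_append]
  refine ⟨?_, ?_, ?_⟩
  · exact List.Pairwise.imp_of_mem (R := fun _ _ => True)
      (fun {a b} ha _ _ h1 => absurd h1 (by rw [mem_um ha]; simp)) (by simp [List.pairwise_iff_forall_sublist])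
  · rw [List.pairwise_cons]
    refine ⟨?_, ?_⟩
    · intro c hc _ h2
      rw [List.mem_append, List.mem_cons] at hc
      rcases hc with hc | rfl | hc
      · rw [mem_um hc] at h2; exact absurd h2 (by simp)
      · exact h
      · rw [mem_um hc] at h2; exact absurd h2 (by simp)
    · rw [List.pairwise_append]
      refine ⟨?_, ?_, ?_⟩
      · exact List.Pairwise.imp_of_mem (R := fun _ _ => True)
          (fun {a b} ha _ _ h1 => absurd h1 (by rw [mem_um ha]; simp)) (by simp [List.pairwise_iff_forall_sublist])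
      · rw [List.pairwise_cons]
        refine ⟨?_, ?_⟩
        · intro c hc _ h2
          rw [mem_um hc] at h2; exact absurd h2 (by simp)
        · exact List.Pairwise.imp_of_mem (R := fun _ _ => True)
            (fun {a b} ha _ _ h1 => absurd h1 (by rw [mem_um ha]; simp)) (by simp [List.pairwise_iff_forall_sublist])
      · intro a ha b _ h1
        rw [mem_um ha] at h1; exact absurd h1 (by simp)
  · intro a ha b _ h1
    rw [mem_um ha] at h1; exact absurd h1 (by simp)

/-- Consecutive corners of a chain. -/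
theorem next_of_chain {L M : List (Corner V)} {c c' : Corner V}
    (h : IsChain Corner.Next (L ++ c :: c' :: M)) : c.Next c' := by
  rw [isChain_append] at h
  exact (isChain_cons_cons.1 h.2.1).1

theorem eq_concat_of_ne_nil {α : Type*} {l : List α} (h : l ≠ []) : ∃ l' a, l = l' ++ [a] := by
  rcases List.eq_nil_or_concat l with rfl | ⟨l', a, rfl⟩
  · exact absurd rfl h
  · exact ⟨l', a, by simp⟩

/-- The reflected closed walk is a closed walk. -/
theorem cw_Wt {g : Equiv.Perm V} (hadj : ∀ a b, G.Adj (g a) (g b) ↔ G.Adj a b) {y y' : V}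
    {mid : List V} (hy : g y = y) (hy' : g y' = y')
    (h : IsChain G.Adj (y :: (mid ++ [y']))) : CW G (Wt g y mid y') := by
  unfold Wt
  rw [CW_cons (by simp)]
  have h1 : IsChain G.Adj ((y :: (mid ++ [y'])).map g) := by
    rw [isChain_map]
    exact h.imp fun a b hab => (hadj a b).2 hab
  have h2 : IsChain G.Adj ((y :: (mid ++ [y'])).map g).reverse := by
    rw [isChain_reverse]
    exact h1.imp fun a b hab => hab.symm
  have e2 : ((y :: (mid ++ [y'])).map g).reverse = y' :: ((mid.map g).reverse ++ [y]) := by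
    simp [hy, hy']
  rw [e2] at h2
  have e : y :: ((mid ++ y' :: (mid.map g).reverse) ++ [y]) =
      (y :: mid) ++ y' :: ((mid.map g).reverse ++ [y]) := by simp
  rw [e, isChain_split]
  exact ⟨by simpa using h, h2⟩

/-- The support of a walk, as a chain. -/
theorem exists_chain {y y' : V} (h : G.Reachable y y') (hne : y ≠ y') :
    ∃ mid : List V, IsChain G.Adj (y :: (mid ++ [y'])) := by
  obtain ⟨p⟩ := h
  have h1 := p.isChain_adj_support
  cases p with
  | nil => exact absurd rfl hne
  | cons hab q =>
    rw [SimpleGraph.Walk.support_cons] at h1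
    obtain ⟨l, a, hl⟩ := eq_concat_of_ne_nil q.support_ne_nil
    have h3 : a = y' := by
      have h4 := q.getLast_support
      simp only [hl] at h4
      simpa using h4
    subst h3
    exact ⟨l, by rw [← hl]; exact h1⟩

end T2

open T2 in
theorem tT2 (hI : T_T2I.{u}) (hD : T_DS.{u}) (hF : T_FILL.{u}) (hG : T_GLUE.{u}) :
    T_T2.{u} := by
  intro V G ang hA S hS hconn hnull g hg hfix y0 hy0 hgy0 y0' hy0' hgy0'
  classical
  set Y : Set V := {v | v ∈ S ∧ g v = v} with hY
  set R : V → V → Prop := fun a b => (resG G Y).Reachable a b with hR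
  have hRe : Equivalence R :=
    ⟨fun a => SimpleGraph.Reachable.refl a, fun h => h.symm, fun h h' => h.trans h'⟩
  by_contra hnR
  -- an initial reflected walk
  have hne : y0 ≠ y0' := by
    rintro rfl
    exact hnR (SimpleGraph.Reachable.refl _)
  obtain ⟨mid0, hmid0⟩ := exists_chain (hconn y0 hy0 y0' hy0') hne
  obtain ⟨A0, hA0⟩ := hnull _ (cw_Wt hg.adj hgy0 hgy0' hmid0)
  -- lexicographically minimal choice
  have hP : ∃ A : ℕ, ∃ (u u' : V) (mid : List V), g u = u ∧ g u' = u' ∧ ¬ R u u' ∧
      Null G A (Wt g u mid u') := ⟨A0, y0, y0', mid0, hgy0, hgy0', hnR, hA0⟩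
  set A := Nat.find hP with hAdef
  have hQ : ∃ n : ℕ, ∃ (u u' : V) (mid : List V), mid.length = n ∧ g u = u ∧ g u' = u' ∧
      ¬ R u u' ∧ Null G A (Wt g u mid u') := by
    obtain ⟨u, u', mid, h⟩ := Nat.find_spec hP
    exact ⟨_, u, u', mid, rfl, h⟩
  obtain ⟨y, y', mid, hlen, hgy, hgy', hyy', hNull⟩ := Nat.find_spec hQ
  have hmin : ∀ (k : ℕ) (u u' : V) (mid' : List V), g u = u → g u' = u' → ¬ R u u' →
      Null G k (Wt g u mid' u') → A ≤ k ∧ (k ≤ A → mid.length ≤ mid'.length) := by
    intro k u u' mid' h1 h2 h3 h4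
    have h5 : A ≤ k := Nat.find_min' hP ⟨u, u', mid', h1, h2, h3, h4⟩
    refine ⟨h5, fun h6 => ?_⟩
    have h7 : k = A := le_antisymm h6 h5
    rw [h7] at h4
    rw [hlen]
    exact Nat.find_min' hQ ⟨u, u', mid', rfl, h1, h2, h3, h4⟩
  have hIrr : Irr G A (Wt g y mid y') :=
    hI G g R hRe hg.adj A y y' mid hgy hgy' hyy' hNull hmin
  have hMin : MinA G A (Wt g y mid y') :=
    ⟨hNull, fun k hk => (hmin k y y' mid hgy hgy' hyy' hk).1⟩
  -- `mid` is not empty
  have hmid : mid ≠ [] := by
    rintro rfl
    have h1 := hNull.cw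
    simp only [Wt, List.map_nil, List.reverse_nil, List.nil_append, CW] at h1
    have h2 : G.Adj y y' := (isChain_cons_cons.1 h1).1
    have h3 : (resG G Y).Adj y y' := ⟨h2, ⟨hS _ _ h2, hgy⟩, ⟨hS _ _ h2.symm, hgy'⟩⟩
    exact hyy' h3.reachable
  have hmlen : 0 < mid.length := List.length_pos_iff.2 hmid
  have h3len : 3 ≤ (Wt g y mid y').length := by
    simp only [Wt, List.length_cons, List.length_append, List.length_reverse, List.length_map]
    omega
  obtain ⟨D, hDw, hDc, hDok, hDs, hDm⟩ := hD G ang hA A _ h3len hMin hIrr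
  -- decomposition of `D`
  obtain ⟨c0, D0, rfl⟩ : ∃ c0 D0, D = c0 :: D0 := by
    cases D with
    | nil => simp [Wt] at hDw
    | cons c0 D0 => exact ⟨c0, D0, rfl⟩
  simp only [Wt, List.map_cons, List.cons.injEq] at hDw
  obtain ⟨hc0, hD0⟩ := hDw
  obtain ⟨Dm, D1, rfl, hDmm, hD1⟩ := List.map_eq_append_iff.1 hD0
  obtain ⟨c1, Dm', rfl, hc1, hDm'⟩ := List.map_eq_cons_iff.1 hD1
  -- choice of the pair of corners
  have hsum : 0 < (Dm.map fun c => Real.pi - c.th).sum + (Dm'.map fun c => Real.pi - c.th).sum := by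
    have h0 := th_pos hA (hDok c0 (by simp))
    have h1 := th_pos hA (hDok c1 (by simp))
    simp only [List.map_cons, List.map_append, List.sum_cons, List.sum_append] at hDs
    linarith
  have hll : Dm.length = Dm'.length := by
    have h1 : Dm.length = mid.length := by rw [← hDmm, List.length_map]
    have h2 : Dm'.length = mid.length := by
      have := congrArg List.length hDm'
      simpa using this
    rw [h1, h2]
  obtain ⟨E1, d, E2, E2', d', E1', rfl, rfl, hl1, hl2, hdd⟩ := pair_split _ _ _ hll hsum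
  have hth : d.th + d'.th < 2 * Real.pi := by linarith
  -- labels
  have hmid' : mid = E1.map Corner.v ++ d.v :: E2.map Corner.v := by rw [← hDmm]; simp
  have hrev : (E2'.map Corner.v) ++ d'.v :: (E1'.map Corner.v) =
      ((E2.map Corner.v).map g).reverse ++ g d.v :: ((E1.map Corner.v).map g).reverse := by
    have h1 : (E2' ++ d' :: E1').map Corner.v = (mid.map g).reverse := hDm'
    rw [hmid'] at h1
    simpa using h1
  obtain ⟨hE2', hrest⟩ := List.append_inj hrev (by simp [hl2])
  rw [List.cons.injEq] at hrest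
  obtain ⟨hd'v, hE1'⟩ := hrest
  -- neighbours
  obtain ⟨E1a, e, hE1a⟩ := eq_concat_of_ne_nil (List.cons_ne_nil c0 E1)
  obtain ⟨f, E2b, hE2b⟩ : ∃ f E2b, E2 ++ [c1] = f :: E2b := by
    cases E2 with
    | nil => exact ⟨c1, [], rfl⟩
    | cons f E2 => exact ⟨f, E2 ++ [c1], rfl⟩
  obtain ⟨E2a, e', hE2a⟩ := eq_concat_of_ne_nil (List.cons_ne_nil c1 E2')
  obtain ⟨f', E1b, hE1b⟩ : ∃ f' E1b, E1' ++ [c0] = f' :: E1b := by
    cases E1' with
    | nil => exact ⟨c0, [], rfl⟩
    | cons f' E1' => exact ⟨f', E1' ++ [c0], rfl⟩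
  have hcyc : IsChain Corner.Next
      (c0 :: (((E1 ++ d :: E2) ++ c1 :: (E2' ++ d' :: E1')) ++ [c0])) := hDc
  have hed : e.Next d := by
    have h1 : c0 :: (((E1 ++ d :: E2) ++ c1 :: (E2' ++ d' :: E1')) ++ [c0]) =
        E1a ++ e :: d :: (E2 ++ c1 :: (E2' ++ d' :: (E1' ++ [c0]))) := by
      have : (c0 :: E1) ++ d :: (E2 ++ c1 :: (E2' ++ d' :: (E1' ++ [c0]))) =
        (E1a ++ [e]) ++ d :: (E2 ++ c1 :: (E2' ++ d' :: (E1' ++ [c0]))) := by rw [hE1a]
      simpa using this
    rw [h1] at hcyc
    exact next_of_chain hcyc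
  have hdf : d.Next f := by
    have h1 : c0 :: (((E1 ++ d :: E2) ++ c1 :: (E2' ++ d' :: E1')) ++ [c0]) =
        (c0 :: E1) ++ d :: f :: (E2b ++ (E2' ++ d' :: (E1' ++ [c0]))) := by
      have : (c0 :: E1) ++ d :: ((E2 ++ [c1]) ++ (E2' ++ d' :: (E1' ++ [c0]))) =
        (c0 :: E1) ++ d :: ((f :: E2b) ++ (E2' ++ d' :: (E1' ++ [c0]))) := by rw [hE2b]
      simpa using this
    rw [h1] at hcyc
    exact next_of_chain hcyc
  have hed' : e'.Next d' := by
    have h1 : c0 :: (((E1 ++ d :: E2) ++ c1 :: (E2' ++ d' :: E1')) ++ [c0]) =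
        ((c0 :: E1) ++ (d :: E2) ++ E2a) ++ e' :: d' :: (E1' ++ [c0]) := by
      have : ((c0 :: E1) ++ (d :: E2)) ++ ((c1 :: E2') ++ d' :: (E1' ++ [c0])) =
        ((c0 :: E1) ++ (d :: E2)) ++ ((E2a ++ [e']) ++ d' :: (E1' ++ [c0])) := by rw [hE2a]
      simpa using this
    rw [h1] at hcyc
    exact next_of_chain hcyc
  have hdf' : d'.Next f' := by
    have h1 : c0 :: (((E1 ++ d :: E2) ++ c1 :: (E2' ++ d' :: E1')) ++ [c0]) =
        ((c0 :: E1) ++ (d :: E2) ++ (c1 :: E2')) ++ d' :: f' :: E1b := by
      have : ((c0 :: E1) ++ (d :: E2) ++ (c1 :: E2')) ++ d' :: (E1' ++ [c0]) =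
        ((c0 :: E1) ++ (d :: E2) ++ (c1 :: E2')) ++ d' :: (f' :: E1b) := by rw [hE1b]
      simpa using this
    rw [h1] at hcyc
    exact next_of_chain hcyc
  -- the neighbours of `d'` are the images of the neighbours of `d`
  have hf'v : f'.v = g e.v := by
    have h1 : (E1' ++ [c0]).map Corner.v = (((c0 :: E1).map Corner.v).map g).reverse := by
      simp only [List.map_append, List.map_cons, List.map_nil, List.reverse_cons, hE1', hc0, hgy]
    rw [hE1b, hE1a] at h1
    simp only [List.map_cons, List.map_append, List.map_nil, List.reverse_append,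
      List.reverse_cons, List.reverse_nil, List.nil_append, List.cons_append] at h1
    exact (List.cons.inj h1).1
  have he'v : e'.v = g f.v := by
    have h1 : (c1 :: E2').map Corner.v = (((E2 ++ [c1]).map Corner.v).map g).reverse := by
      simp only [List.map_append, List.map_cons, List.map_nil, List.reverse_append,
        List.reverse_cons, List.reverse_nil, List.nil_append, List.cons_append, hE2', hc1, hgy']
    rw [hE2b, hE2a] at h1
    simp only [List.map_cons, List.map_append, List.map_nil, List.reverse_cons] at h1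
    exact ((List.append_inj' h1 rfl).2 |> List.cons.inj).1
  have hdp : d.p = e.v := hed.2
  have hdn : d.n = f.v := hdf.1
  have hd'p : d'.p = g f.v := by rw [hed'.2, he'v]
  have hd'n : d'.n = g e.v := by rw [hdf'.1, hf'v]
  -- the expansion
  have hdok := hDok d (by simp)
  have hd'ok := hDok d' (by simp)
  have hvS : d.v ∈ S := hS _ _ (hdok.link d.p (by simp))
  obtain ⟨k, hk, hkA⟩ := hDm (um (c0 :: E1) ++ (d, true) :: (um (E2 ++ c1 :: E2') ++
      (d', true) :: um E1')) (by
        simp only [List.map_append, List.map_cons, map_fst_um]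
        simp) (marks_ok _ _ _ _ _ (by rw [hd'v]; exact hfix _ hvS))
  have hexp : expand (um (c0 :: E1) ++ (d, true) :: (um (E2 ++ c1 :: E2') ++
      (d', true) :: um E1')) = (c0 :: E1).map Corner.v ++ (d.F ++ ((E2 ++ [c1]).map Corner.v ++
        (E2'.map Corner.v ++ (d'.F ++ E1'.map Corner.v)))) := by
    rw [expand_append, expand_um]
    simp only [expand, expand_append, expand_um, if_true]
    simp
  have hcost : cost (um (c0 :: E1) ++ (d, true) :: (um (E2 ++ c1 :: E2') ++
      (d', true) :: um E1')) = d.F.length + 1 + (d'.F.length + 1) := by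
    rw [cost_append, cost_um]
    simp only [cost, cost_append, cost_um, if_true]
    ring
  rw [hexp, hE1a, hE2b] at hk
  rw [hcost] at hkA
  -- the path `H` in the link of `d.v`
  set H : List V := d'.F.map g.symm with hH
  have hHg : H.map g = d'.F := by rw [hH]; simp
  have hmapH : (f.v :: (H ++ [e.v])).map g = d'.p :: (d'.F ++ [d'.n]) := by
    simp only [List.map_cons, List.map_append, List.map_nil, hHg, hd'p, hd'n]
  have hHchain : IsChain G.Adj (f.v :: (H ++ [e.v])) := by
    have h1 := hd'ok.chain
    rw [← hmapH, isChain_map] at h1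
    exact h1.imp fun a b hab => (hg.adj a b).1 hab
  have hHlink : ∀ x ∈ f.v :: (H ++ [e.v]), G.Adj d.v x := by
    intro x hx
    rw [← hg.adj, ← hd'v]
    apply hd'ok.link
    rw [← hmapH]
    exact List.mem_map_of_mem hx
  have hHlen : plen ang d.v (f.v :: (H ++ [e.v])) = d'.th := by
    rw [hd'ok.len, ← hmapH, hd'v, plen_map hg _ _ hHchain hHlink]
  have hFchain : IsChain G.Adj (e.v :: (d.F ++ [f.v])) := by
    have := hdok.chain
    rwa [hdp, hdn] at this
  have hFlink : ∀ x ∈ e.v :: (d.F ++ [f.v]), G.Adj d.v x := by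
    have := hdok.link
    rwa [hdp, hdn] at this
  have hFlen : plen ang d.v (e.v :: (d.F ++ [f.v])) = d.th := by
    rw [hdok.len, hdp, hdn]
  -- the closed walk in the link
  have hloopCW : CW G (e.v :: (d.F ++ f.v :: H)) := by
    rw [CW_cons (by simp)]
    have e1 : e.v :: ((d.F ++ f.v :: H) ++ [e.v]) = (e.v :: d.F) ++ f.v :: (H ++ [e.v]) := by
      simp
    rw [e1, isChain_split]
    exact ⟨by simpa using hFchain, hHchain⟩
  have hloop : Null G ((e.v :: (d.F ++ f.v :: H)).length - 2) (e.v :: (d.F ++ f.v :: H)) := by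
    apply hF G ang hA d.v _ (by simp; omega) hloopCW
    · intro x hx
      simp only [List.mem_cons, List.mem_append] at hx
      rcases hx with rfl | hx | rfl | hx
      · exact hFlink _ (by simp)
      · exact hFlink _ (by simp [hx])
      · exact hFlink _ (by simp)
      · exact hHlink _ (by simp [hx])
    · have e1 : clen ang d.v (e.v :: (d.F ++ f.v :: H)) =
          plen ang d.v ((e.v :: d.F) ++ f.v :: (H ++ [e.v])) := by
        simp [clen]
      rw [e1, plen_append, hHlen]
      have e2 : (e.v :: d.F) ++ [f.v] = e.v :: (d.F ++ [f.v]) := by simp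
      rw [e2, hFlen]
      exact hth
  have hlen2 : (e.v :: (d.F ++ f.v :: H)).length - 2 = d.F.length + d'.F.length := by
    simp only [List.length_cons, List.length_append, hH, List.length_map]
    omega
  rw [hlen2] at hloop
  have hloop' : Null G (d.F.length + d'.F.length)
      (e.v :: (H.reverse ++ f.v :: d.F.reverse)) := by
    have h1 := hloop.reverse
    have h2 : (e.v :: (d.F ++ f.v :: H)).reverse =
        (H.reverse ++ f.v :: d.F.reverse) ++ [e.v] := by simp
    rw [h2] at h1
    simpa using h1.swap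
  -- glue
  have hk' : Null G k (e.v :: (d.F ++ f.v :: (E2b.map Corner.v ++ (E2'.map Corner.v ++
      (d'.F ++ E1'.map Corner.v)) ++ E1a.map Corner.v))) := by
    have h1 : Null G k (E1a.map Corner.v ++ (e.v :: (d.F ++ f.v :: (E2b.map Corner.v ++
      (E2'.map Corner.v ++ (d'.F ++ E1'.map Corner.v)))))) := by simpa using hk
    simpa using h1.swap
  have hglue := hG G _ _ _ _ _ _ _ hk' hloop'
  have hfin : Null G (k + (d.F.length + d'.F.length))
      (Wt g y (E1.map Corner.v ++ (H.reverse ++ E2.map Corner.v)) y') := by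
    have h1 : Null G (k + (d.F.length + d'.F.length)) ((e.v :: (H.reverse ++ f.v ::
        (E2b.map Corner.v ++ (E2'.map Corner.v ++ (d'.F ++ E1'.map Corner.v))))) ++
          E1a.map Corner.v) := by simpa using hglue
    have h2 := h1.swap
    have h3 : E1a.map Corner.v ++ (e.v :: (H.reverse ++ f.v ::
        (E2b.map Corner.v ++ (E2'.map Corner.v ++ (d'.F ++ E1'.map Corner.v))))) =
        (c0 :: E1).map Corner.v ++ (H.reverse ++ ((E2 ++ [c1]).map Corner.v ++
          (E2'.map Corner.v ++ (d'.F ++ E1'.map Corner.v)))) := by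
      rw [hE1a, hE2b]; simp
    rw [h3] at h2
    have h4 : (c0 :: E1).map Corner.v ++ (H.reverse ++ ((E2 ++ [c1]).map Corner.v ++
          (E2'.map Corner.v ++ (d'.F ++ E1'.map Corner.v)))) =
        Wt g y (E1.map Corner.v ++ (H.reverse ++ E2.map Corner.v)) y' := by
      unfold Wt
      rw [hE2', hE1', ← hHg, ← hc0, ← hc1]
      simp
    rw [h4] at h2
    exact h2
  have := (hmin _ y y' _ hgy hgy' hyy' hfin).1
  omega

end Pool.Agent.MSF
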