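import Pool.Agent.MSF.Targets

/-! T2I: a minimal reflected closed walk is irreducible. -/

namespace Pool.Agent.MSF

open List

universe u

namespace T2I

variable {V : Type u} {G : SimpleGraph V}

/-- Linear form of a reducible cyclic list. -/
lemma lin {w : List V} {c : V} {s t : List V} (h : w ~r (c :: (s ++ c :: t))) :
    ∃ X s' Z : List V, w = X ++ c :: (s' ++ c :: Z) ∧
      ((s' = s ∧ Z ++ X = t) ∨ (s' = t ∧ Z ++ X = s)) := by
  obtain ⟨n, hn⟩ := h.symm
  -- w = rotate
  have hw : ∃ U W : List V, W ++ U = c :: (s ++ c :: t) ∧ w = U ++ W := by
    refine ⟨(c :: (s ++ c :: t)).drop (n % (c :: (s ++ c :: t)).length),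
      (c :: (s ++ c :: t)).take (n % (c :: (s ++ c :: t)).length), List.take_append_drop _ _, ?_⟩
    rw [← hn, List.rotate_eq_drop_append_take_mod]
  obtain ⟨U, W, h1, rfl⟩ := hw
  rcases W with _ | ⟨w0, W⟩
  · refine ⟨[], s, t, by simpa using h1, Or.inl ⟨rfl, by simp⟩⟩
  · simp only [List.cons_append, List.cons.injEq] at h1
    obtain ⟨rfl, h1⟩ := h1
    rcases List.append_eq_append_iff.1 h1 with ⟨a', h2, h3⟩ | ⟨c', h2, h3⟩
    · -- s = W ++ a', U = a' ++ w0 :: t
      refine ⟨a', t, W, by rw [h3]; simp, Or.inr ⟨rfl, h2.symm⟩⟩
    · -- W = s ++ c', w0 :: t = c' ++ U
      rcases c' with _ | ⟨c0, c'⟩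
      · refine ⟨[], t, W, ?_, Or.inr ⟨rfl, by rw [h2]; simp⟩⟩
        simp only [List.nil_append] at h3
        rw [← h3]; simp
      · simp only [List.cons_append, List.cons.injEq] at h3
        obtain ⟨rfl, h3⟩ := h3
        refine ⟨U, s, c', ?_, Or.inl ⟨rfl, h3.symm⟩⟩
        rw [h2]

lemma revmap {g : Equiv.Perm V} (hg : ∀ a b, G.Adj (g a) (g b) ↔ G.Adj a b) {m : ℕ} {a : V}
    {l : List V} (h : Null G m (a :: l)) : Null G m (g a :: (l.map g).reverse) := by
  have h1 : Null G m ((a :: l).map g) := h.map g fun a b hab => (hg a b).2 hab
  have h2 := h1.reverse
  have h3 : Null G m ((l.map g).reverse ++ [g a]) := by simpa using h2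
  simpa using h3.swap

lemma unmap {g : Equiv.Perm V} (hg : ∀ a b, G.Adj (g a) (g b) ↔ G.Adj a b) {m : ℕ}
    {l : List V} (h : Null G m (l.map g)) : Null G m l := by
  have h1 : Null G m ((l.map g).map g.symm) := h.map g.symm fun a b hab => by
    rw [← hg (g.symm a) (g.symm b)]
    simpa using hab
  simpa using h1

lemma unrevmap {g : Equiv.Perm V} (hg : ∀ a b, G.Adj (g a) (g b) ↔ G.Adj a b) {m : ℕ} {a : V}
    {l : List V} (h : Null G m (g a :: (l.map g).reverse)) : Null G m (a :: l) := by
  have h1 : Null G m ((a :: l.reverse).map g) := by simpa using h
  have h2 := (unmap hg h1).reverse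
  have h3 : Null G m (l ++ [a]) := by simpa using h2
  simpa using h3.swap

lemma split_gm {g : Equiv.Perm V} {mid P Q : List V} {c : V}
    (h : (mid.map g).reverse = P ++ c :: Q) :
    ∃ z e b, mid = z ++ e :: b ∧ g e = c ∧ Q = (z.map g).reverse ∧ P = (b.map g).reverse := by
  have h1 : mid.map g = Q.reverse ++ c :: P.reverse := by
    have := congrArg List.reverse h
    simpa using this
  obtain ⟨l1, l2, h2, h3, h4⟩ := List.map_eq_append_iff.1 h1
  obtain ⟨e, b, h5, h6, h7⟩ := List.map_eq_cons_iff.1 h4
  refine ⟨l1, e, b, by rw [h2, h5], h6, by rw [h3]; simp, by rw [h7]; simp⟩

/-- The main case analysis: a linear decomposition gives a shorter reflected closed walk. -/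
lemma main (hGen : T_GEN.{u}) (hG : T_GLUE.{u}) (g : Equiv.Perm V) (R : V → V → Prop)
    (hR : Equivalence R) (hg : ∀ a b, G.Adj (g a) (g b) ↔ G.Adj a b)
    (y y' : V) (mid : List V) (hy : g y = y) (hy' : g y' = y') (hyy : ¬ R y y')
    (c : V) (X s Z : List V) (m n : ℕ) (hw : Wt g y mid y' = X ++ c :: (s ++ c :: Z))
    (hs : s ≠ []) (hZX : Z ++ X ≠ []) (h1 : Null G m (c :: s)) (h2 : Null G n (c :: (Z ++ X))) :
    ∃ (k : ℕ) (u u' : V) (mid' : List V), g u = u ∧ g u' = u' ∧ ¬ R u u' ∧ k ≤ m + n ∧
      mid'.length < mid.length ∧ Null G k (Wt g u mid' u') := by
  have hne : y ≠ y' := fun h => hyy (h ▸ hR.refl y)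
  unfold Wt at hw
  rcases X with _ | ⟨x, X⟩
  · -- case A
    simp only [List.nil_append, List.cons.injEq] at hw
    obtain ⟨rfl, hw⟩ := hw
    simp only [List.append_nil] at h2 hZX
    rcases List.append_eq_append_iff.1 hw with ⟨a', h3, h4⟩ | ⟨c', h3, h4⟩
    · -- s = mid ++ a', y' :: gm = a' ++ y :: Z
      rcases a' with _ | ⟨a0, a'⟩
      · simp only [List.nil_append, List.cons.injEq] at h4
        exact absurd h4.1.symm hne
      · simp only [List.cons_append, List.cons.injEq] at h4
        obtain ⟨rfl, h4⟩ := h4
        obtain ⟨v, e, u, hmid, he, hZ', ha'⟩ := split_gm h4
        have he' : e = y := g.injective (by rw [he, hy])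
        subst he'
        subst hZ' ha' h3
        have hv : v ≠ [] := by
          rintro rfl
          exact hZX (by simp)
        have h5 : Null G n (e :: v) := unrevmap hg (by rw [hy]; exact h2)
        have h6 : Null G m ((e :: v) ++ (e :: (u ++ y' :: (u.map g).reverse))) := by
          have := h1
          rw [hmid] at this
          simpa using this
        have h7 : Null G m (e :: ((u ++ y' :: (u.map g).reverse) ++ e :: v)) := by
          simpa using h6.swap
        have h8 := hGen G m n e (u ++ y' :: (u.map g).reverse) v (by simp) hv h7 h5
        refine ⟨m + n, e, y', u, hy, hy', hyy, le_rfl, ?_, h8⟩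
        rw [hmid]
        simp
        omega
    · rcases c' with _ | ⟨c0, r⟩
      · simp only [List.nil_append, List.cons.injEq] at h4
        exact absurd h4.1 hne
      · simp only [List.cons_append, List.cons.injEq] at h4
        obtain ⟨rfl, h4⟩ := h4
        have h5 : Null G m (y :: (s.map g).reverse) := by
          have := revmap hg h1
          rwa [hy] at this
        have h6 : Null G n (y :: ((r ++ y' :: (r.map g).reverse) ++ y :: (s.map g).reverse)) := by
          have := h2
          rw [h4, h3] at this
          simpa [hy] using this
        have h8 := hGen G n m y (r ++ y' :: (r.map g).reverse) (s.map g).reverse (by simp)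
          (by simpa using hs) h6 h5
        refine ⟨n + m, y, y', r, hy, hy', hyy, by omega, ?_, h8⟩
        rw [h3]
        simp
        omega
  · simp only [List.cons_append, List.cons.injEq] at hw
    obtain ⟨rfl, hw⟩ := hw
    rcases List.append_eq_append_iff.1 hw with ⟨a', h3, h4⟩ | ⟨c', h3, h4⟩
    · -- X = mid ++ a', y' :: gm = a' ++ c :: (s ++ c :: Z)
      rcases a' with _ | ⟨a0, a'⟩
      · -- case B1
        simp only [List.nil_append, List.cons.injEq] at h4
        obtain ⟨rfl, h4⟩ := h4
        simp only [List.append_nil] at h3
        subst h3
        obtain ⟨v, e, u, hmid, he, hZ', hs'⟩ := split_gm h4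
        have he' : e = y' := g.injective (by rw [he, hy'])
        subst he'
        have hu : u ≠ [] := by
          rintro rfl
          exact hs (by simpa using hs')
        have h5 : Null G m (e :: u) := unrevmap hg (by rw [hy', ← hs']; exact h1)
        have h6 : Null G n (e :: (((v.map g).reverse ++ y :: v) ++ e :: u)) := by
          have := h2
          rw [hZ', hmid] at this
          simpa using this
        have h8 := hGen G n m e ((v.map g).reverse ++ y :: v) u (by simp) hu h6 h5
        have h9 : Null G (n + m) ((e :: (v.map g).reverse) ++ y :: v) := by simpa using h8
        refine ⟨n + m, y, e, v, hy, hy', hyy, by omega, ?_, ?_⟩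
        · rw [hmid]
          simp
        · simpa [Wt] using h9.swap
      · -- case C1'
        simp only [List.cons_append, List.cons.injEq] at h4
        obtain ⟨rfl, h4⟩ := h4
        have h4' : (mid.map g).reverse = (a' ++ c :: s) ++ c :: Z := by simpa using h4
        obtain ⟨z1, e, b, hmid, he, hZ', hb⟩ := split_gm h4'
        obtain ⟨s1, e', u1, hb', he', hs', hu1⟩ := split_gm hb.symm
        have hee : e' = e := g.injective (by rw [he, he'])
        subst hee
        subst he
        subst hs' hu1 hZ' h3
        have hs1 : s1 ≠ [] := by
          rintro rfl
          exact hs (by simp)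
        have h5 : Null G m (e' :: s1) := unrevmap hg h1
        have h6 : Null G n (((g e' :: (z1.map g).reverse) ++ y :: z1) ++
            (e' :: (s1 ++ e' :: (u1 ++ y' :: (u1.map g).reverse)))) := by
          have := h2
          rw [hmid, hb'] at this
          simpa using this
        have h7 := h6.swap
        have h7' : Null G n ((e' :: s1) ++ (e' :: ((u1 ++ y' :: (u1.map g).reverse) ++
            ((g e' :: (z1.map g).reverse) ++ y :: z1)))) := by simpa using h7
        have h7'' : Null G n (e' :: (((u1 ++ y' :: (u1.map g).reverse) ++
            ((g e' :: (z1.map g).reverse) ++ y :: z1)) ++ e' :: s1)) := by simpa using h7'.swap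
        have h8 := hGen G n m e' _ s1 (by simp) hs1 h7'' h5
        have h9 : Null G (n + m) ((e' :: (u1 ++ y' :: ((u1.map g).reverse ++
            g e' :: (z1.map g).reverse))) ++ (y :: z1)) := by simpa using h8
        refine ⟨n + m, y, y', z1 ++ e' :: u1, hy, hy', hyy, by omega, ?_, ?_⟩
        · rw [hmid, hb']
          simp
        · simpa [Wt] using h9.swap
    · -- mid = X ++ c', c :: (s ++ c :: Z) = c' ++ y' :: gm
      rcases c' with _ | ⟨c0, c'⟩
      · -- case B1 again
        simp only [List.nil_append, List.cons.injEq] at h4
        obtain ⟨rfl, h4⟩ := h4
        simp only [List.append_nil] at h3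
        subst h3
        obtain ⟨v, e, u, hmid, he, hZ', hs'⟩ := split_gm h4.symm
        have he' : e = c := g.injective (by rw [he, hy'])
        subst he'
        have hu : u ≠ [] := by
          rintro rfl
          exact hs (by simpa using hs')
        have h5 : Null G m (e :: u) := unrevmap hg (by rw [hy', ← hs']; exact h1)
        have h6 : Null G n (e :: (((v.map g).reverse ++ y :: v) ++ e :: u)) := by
          have := h2
          rw [hZ', hmid] at this
          simpa using this
        have h8 := hGen G n m e ((v.map g).reverse ++ y :: v) u (by simp) hu h6 h5
        have h9 : Null G (n + m) ((e :: (v.map g).reverse) ++ y :: v) := by simpa using h8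
        refine ⟨n + m, y, e, v, hy, hy', hyy, by omega, ?_, ?_⟩
        · rw [hmid]
          simp
        · simpa [Wt] using h9.swap
      · simp only [List.cons_append, List.cons.injEq] at h4
        obtain ⟨rfl, h4⟩ := h4
        rcases List.append_eq_append_iff.1 h4 with ⟨d', h5, h6⟩ | ⟨d', h5, h6⟩
        · -- c' = s ++ d', c :: Z = d' ++ y' :: gm
          rcases d' with _ | ⟨d0, v⟩
          · -- case B2
            simp only [List.nil_append, List.cons.injEq] at h6
            obtain ⟨rfl, h6⟩ := h6
            simp only [List.append_nil] at h5
            subst h5
            have h7 : Null G m (c :: (c'.map g).reverse) := by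
              have := revmap hg h1
              rwa [hy'] at this
            have h8 : Null G n ((c :: (c'.map g).reverse) ++
                (c :: ((X.map g).reverse ++ y :: X))) := by
              have := h2
              rw [h6, h3] at this
              simpa [hy'] using this
            have h9 : Null G n (c :: (((X.map g).reverse ++ y :: X) ++
                c :: (c'.map g).reverse)) := by simpa using h8.swap
            have h10 := hGen G n m c _ (c'.map g).reverse (by simp) (by simpa using hs) h9 h7
            have h11 : Null G (n + m) ((c :: (X.map g).reverse) ++ y :: X) := by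
              simpa using h10
            refine ⟨n + m, y, c, X, hy, hy', hyy, by omega, ?_, ?_⟩
            · rw [h3]
              simp
            · simpa [Wt] using h11.swap
          · -- case C1
            simp only [List.cons_append, List.cons.injEq] at h6
            obtain ⟨rfl, h6⟩ := h6
            have h7 : Null G m (g c :: (s.map g).reverse) := revmap hg h1
            have h8 : Null G n ((c :: (v ++ y' :: (v.map g).reverse)) ++
                (g c :: ((s.map g).reverse ++ g c :: ((X.map g).reverse ++ y :: X)))) := by
              have := h2
              rw [h6, h3, h5] at this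
              simpa using this
            have h9 : Null G n ((g c :: (s.map g).reverse) ++ (g c :: (((X.map g).reverse ++
                y :: X) ++ (c :: (v ++ y' :: (v.map g).reverse))))) := by simpa using h8.swap
            have h9' : Null G n (g c :: ((((X.map g).reverse ++
                y :: X) ++ (c :: (v ++ y' :: (v.map g).reverse))) ++
                g c :: (s.map g).reverse)) := by simpa using h9.swap
            have h10 := hGen G n m (g c) _ (s.map g).reverse (by simp) (by simpa using hs) h9' h7
            have h11 : Null G (n + m) ((g c :: (X.map g).reverse) ++
                (y :: (X ++ c :: (v ++ y' :: (v.map g).reverse)))) := by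
              simpa using h10
            refine ⟨n + m, y, y', X ++ c :: v, hy, hy', hyy, by omega, ?_, ?_⟩
            · rw [h3, h5]
              simp
            · simpa [Wt] using h11.swap
        · -- s = c' ++ d', y' :: gm = d' ++ c :: Z
          rcases d' with _ | ⟨d0, b'⟩
          · -- case B2 again
            simp only [List.nil_append, List.cons.injEq] at h6
            obtain ⟨rfl, h6⟩ := h6
            simp only [List.append_nil] at h5
            subst h5
            have h7 : Null G m (y' :: (s.map g).reverse) := by
              have := revmap hg h1
              rwa [hy'] at this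
            have h8 : Null G n ((y' :: (s.map g).reverse) ++
                (y' :: ((X.map g).reverse ++ y :: X))) := by
              have := h2
              rw [← h6, h3] at this
              simpa [hy'] using this
            have h9 : Null G n (y' :: (((X.map g).reverse ++ y :: X) ++
                y' :: (s.map g).reverse)) := by simpa using h8.swap
            have h10 := hGen G n m y' _ (s.map g).reverse (by simp) (by simpa using hs) h9 h7
            have h11 : Null G (n + m) ((y' :: (X.map g).reverse) ++ y :: X) := by
              simpa using h10
            refine ⟨n + m, y, y', X, hy, hy', hyy, by omega, ?_, ?_⟩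
            · rw [h3]
              simp
            · simpa [Wt] using h11.swap
          · -- case C2
            simp only [List.cons_append, List.cons.injEq] at h6
            obtain ⟨rfl, h6⟩ := h6
            obtain ⟨z1, e, b1, hmid, he, hZ', hb'⟩ := split_gm h6
            have h7 : X ++ c :: c' = z1 ++ e :: b1 := by rw [← hmid, h3]
            rcases List.append_eq_append_iff.1 h7 with ⟨a', h8, h9⟩ | ⟨a', h8, h9⟩
            · -- z1 = X ++ a', c :: c' = a' ++ e :: b1
              rcases a' with _ | ⟨a0, b⟩
              · -- c fixed
                simp only [List.nil_append, List.cons.injEq] at h9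
                obtain ⟨rfl, rfl⟩ := h9
                simp only [List.append_nil] at h8
                subst h8
                by_cases hRc : R c y'
                · have hRy : ¬ R y c := fun h => hyy (hR.trans h hRc)
                  refine ⟨n, y, c, z1, hy, he, hRy, by omega, ?_, ?_⟩
                  · rw [hmid]; simp
                  · have h10 : Null G n ((c :: (z1.map g).reverse) ++ (y :: z1)) := by
                      have := h2
                      rw [hZ'] at this
                      simpa using this
                    simpa [Wt] using h10.swap
                · refine ⟨m, c, y', c', he, hy', hRc, by omega, ?_, ?_⟩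
                  · rw [hmid]; simp
                    omega
                  · have := h1
                    rw [h5, hb'] at this
                    simpa [Wt] using this
              · simp only [List.cons_append, List.cons.injEq] at h9
                obtain ⟨rfl, h9⟩ := h9
                -- mid = X ++ c :: (b ++ e :: b1), g e = c
                have h10 : Null G m ((c :: (b ++ e :: (b1 ++ y' :: (b1.map g).reverse))).map g) := by
                  refine Null.map g (fun a b hab => (hg a b).2 hab) ?_
                  have := h1
                  rw [h5, hb', h9] at this
                  simpa using this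
                have h11 : Null G m ((g c :: b.map g) ++ (c :: (b1.map g ++ y' ::
                    ((b1.map g).map g).reverse))) := by
                  simpa [he, hy'] using h10
                have h12 : Null G m (c :: ((b1.map g ++ y' ::
                    ((b1.map g).map g).reverse) ++ g c :: ((b.map g).reverse).reverse)) := by
                  simpa using h11.swap
                have h13 : Null G n (c :: ((b.map g).reverse ++ g c ::
                    ((X.map g).reverse ++ y :: X))) := by
                  have := h2
                  rw [hZ', h8] at this
                  simpa using this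
                have h14 := hG G n m c (g c) _ _ _ h13 h12
                have h15 : Null G (n + m) ((c :: (b1.map g ++ y' ::
                    (((b1.map g).map g).reverse ++ g c :: (X.map g).reverse))) ++ (y :: X)) := by
                  simpa using h14
                refine ⟨n + m, y, y', X ++ c :: b1.map g, hy, hy', hyy, by omega, ?_, ?_⟩
                · rw [hmid, h8]
                  simp
                · simpa [Wt] using h15.swap
            · -- X = z1 ++ a', e :: b1 = a' ++ c :: c'
              rcases a' with _ | ⟨a0, b⟩
              · simp only [List.nil_append, List.cons.injEq] at h9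
                obtain ⟨rfl, rfl⟩ := h9
                simp only [List.append_nil] at h8
                subst h8
                by_cases hRc : R e y'
                · have hRy : ¬ R y e := fun h => hyy (hR.trans h hRc)
                  refine ⟨n, y, e, X, hy, he, hRy, by omega, ?_, ?_⟩
                  · rw [hmid]; simp
                  · have h10 : Null G n ((e :: (X.map g).reverse) ++ (y :: X)) := by
                      have := h2
                      rw [hZ'] at this
                      simpa using this
                    simpa [Wt] using h10.swap
                · refine ⟨m, e, y', b1, he, hy', hRc, by omega, ?_, ?_⟩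
                  · rw [hmid]; simp
                    omega
                  · have := h1
                    rw [h5, hb'] at this
                    simpa [Wt] using this
              · simp only [List.cons_append, List.cons.injEq] at h9
                obtain ⟨rfl, h9⟩ := h9
                -- X = z1 ++ e :: b, b1 = b ++ c :: c'
                have h10 : Null G n ((c :: ((z1.map g).reverse ++ y :: (z1 ++ e :: b))).map g) := by
                  refine Null.map g (fun a b hab => (hg a b).2 hab) ?_
                  have := h2
                  rw [hZ', h8] at this
                  simpa using this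
                have h12 : Null G n (g c :: ((((z1.map g).map g).reverse ++ y :: z1.map g) ++
                    c :: ((b.map g).reverse).reverse)) := by
                  simpa [he, hy] using h10
                have h11 : Null G m ((c :: (c' ++ y' :: (c'.map g).reverse)) ++
                    (g c :: (b.map g).reverse)) := by
                  have := h1
                  rw [h5, hb', h9] at this
                  simpa using this
                have h13 : Null G m (g c :: ((b.map g).reverse ++ c ::
                    (c' ++ y' :: (c'.map g).reverse))) := by
                  simpa using h11.swap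
                have h14 := hG G m n (g c) c _ _ _ h13 h12
                have h15 : Null G (m + n) ((g c :: ((z1.map g).map g).reverse) ++
                    (y :: (z1.map g ++ c :: (c' ++ y' :: (c'.map g).reverse)))) := by
                  simpa using h14
                refine ⟨m + n, y, y', z1.map g ++ c :: c', hy, hy', hyy, le_rfl, ?_, ?_⟩
                · rw [hmid, h9]
                  simp
                · simpa [Wt] using h15.swap

end T2I

open T2I

theorem tT2I (_hZ : T_ZIP.{u}) (hGen : T_GEN.{u}) (hG : T_GLUE.{u}) : T_T2I.{u} := by
  intro V G g R hR hg A y y' mid hy hy' hyy _ hmin c s t m n hrot hs ht h1 h2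
  by_contra hA
  have hA' : m + n ≤ A := not_lt.1 hA
  obtain ⟨X, s', Z, hw, hcase⟩ := lin hrot
  rcases hcase with ⟨rfl, rfl⟩ | ⟨rfl, rfl⟩
  · obtain ⟨k, u, u', mid', hu, hu', hR', hk, hl, hN⟩ :=
      main hGen hG g R hR hg y y' mid hy hy' hyy c X s' Z m n hw hs ht h1 h2
    have := (hmin k u u' mid' hu hu' hR' hN).2 (by omega)
    omega
  · obtain ⟨k, u, u', mid', hu, hu', hR', hk, hl, hN⟩ :=
      main hGen hG g R hR hg y y' mid hy hy' hyy c X s' Z n m hw ht hs h2 h1
    have := (hmin k u u' mid' hu hu' hR' hN).2 (by omega)
    omega

end Pool.Agent.MSF
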