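import Pool.Agent.MSF.Targets

/-! T3: closed walks of fixed vertices are null in the full subcomplex of fixed vertices. -/

namespace Pool.Agent.MSF

open List

universe u

namespace T3

variable {V : Type u} {G : SimpleGraph V}

theorem plen_append (ang : V → V → V → ℝ) (v : V) : ∀ (X : List V) (a : V) (Y : List V),
    plen ang v (X ++ a :: Y) = plen ang v (X ++ [a]) + plen ang v (a :: Y)
  | [], a, Y => by simp [plen]
  | [b], a, Y => by simp [plen]
  | (b :: c :: X), a, Y => by
    have ih := plen_append ang v (c :: X) a Y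
    simp only [List.cons_append, plen] at ih ⊢
    rw [ih]; ring

theorem plen_reverse {ang : V → V → V → ℝ} (hs : ∀ v a b, ang v a b = ang v b a) (v : V) :
    ∀ L : List V, plen ang v L.reverse = plen ang v L
  | [] => by simp
  | [a] => by simp
  | (a :: b :: l) => by
    have ih := plen_reverse hs v (b :: l)
    have e : (a :: b :: l).reverse = l.reverse ++ b :: [a] := by simp
    have e2 : (b :: l).reverse = l.reverse ++ [b] := by simp
    rw [e, plen_append, ← e2, ih]
    simp only [plen]
    rw [hs v b a]; ring

theorem plen_map {ang : V → V → V → ℝ} {g : Equiv.Perm V} (hg : IsAut G ang g) {v : V}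
    (hv : g v = v) : ∀ L : List V, List.IsChain G.Adj L → (∀ x ∈ L, G.Adj v x) →
    plen ang v (L.map g) = plen ang v L
  | [], _, _ => by simp [plen]
  | [a], _, _ => by simp [plen]
  | (a :: b :: l), hc, hl => by
    rw [List.isChain_cons_cons] at hc
    have ih := plen_map hg hv (b :: l) hc.2 (fun x hx => hl x (by simp [List.mem_cons] at hx ⊢; tauto))
    simp only [List.map_cons, plen] at ih ⊢
    rw [ih]
    have := hg.ang v a b (hl a (by simp)) (hl b (by simp)) hc.1
    rw [hv] at this
    rw [this]

theorem chain_map {ang : V → V → V → ℝ} {g : Equiv.Perm V} (hg : IsAut G ang g) (L : List V)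
    (h : List.IsChain G.Adj L) : List.IsChain G.Adj (L.map g) := by
  rw [List.isChain_map]
  exact h.imp fun a b hab => (hg.adj a b).2 hab

theorem chain_reverse (L : List V) (h : List.IsChain G.Adj L) :
    List.IsChain G.Adj L.reverse := by
  rw [List.isChain_reverse]
  exact h.imp fun a b hab => hab.symm

theorem NoEar.of_infix {L L' : List V} (h : NoEar G L') (hi : L <:+: L') : NoEar G L := by
  obtain ⟨s, t, rfl⟩ := hi
  intro X x y z Y hL
  subst hL
  exact h (s ++ X) x y z (Y ++ t) (by simp)

theorem NoEar.reverse {L : List V} (h : NoEar G L) : NoEar G L.reverse := by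
  intro X x y z Y hL
  have h1 : L = Y.reverse ++ z :: y :: x :: X.reverse := by
    have := congrArg List.reverse hL
    simpa using this
  have h2 := h _ _ _ _ _ h1
  exact ⟨h2.1.symm, fun hh => h2.2 hh.symm⟩

theorem NoEar.map {ang : V → V → V → ℝ} {g : Equiv.Perm V} (hg : IsAut G ang g) {L : List V}
    (h : NoEar G L) : NoEar G (L.map g) := by
  intro X x y z Y hL
  rw [List.map_eq_append_iff] at hL
  obtain ⟨X', Z, rfl, rfl, hZ⟩ := hL
  rw [List.map_eq_cons_iff] at hZ
  obtain ⟨x', Z', rfl, rfl, hZ⟩ := hZ
  rw [List.map_eq_cons_iff] at hZ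
  obtain ⟨y', Z'', rfl, rfl, hZ⟩ := hZ
  rw [List.map_eq_cons_iff] at hZ
  obtain ⟨z', Z''', rfl, rfl, hZ⟩ := hZ
  have h2 := h _ _ _ _ _ rfl
  refine ⟨fun he => h2.1 (g.injective he), fun he => h2.2 ((hg.adj _ _).1 he)⟩

theorem NoEar.glue {x : V} {L₁ L₂ : List V} (h1 : NoEar G (L₁ ++ [x])) (h2 : NoEar G (x :: L₂))
    (h3 : ∀ L a b L', L₁ = L ++ [a] → L₂ = b :: L' → a ≠ b ∧ ¬ G.Adj a b) :
    NoEar G (L₁ ++ x :: L₂) := by
  intro X a b c Y hL
  rw [List.append_eq_append_iff] at hL
  rcases hL with ⟨t, rfl, ht⟩ | ⟨t, rfl, ht⟩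
  · exact h2 t a b c Y ht
  · match t, ht with
    | [], ht =>
      exact h2 [] a b c Y (by simpa using ht.symm)
    | [a'], ht =>
      simp only [List.singleton_append, List.cons.injEq] at ht
      obtain ⟨rfl, rfl, rfl⟩ := ht
      exact h3 X a c Y rfl rfl
    | [a', b'], ht =>
      simp only [List.cons_append, List.nil_append, List.cons.injEq] at ht
      obtain ⟨rfl, rfl, rfl, rfl⟩ := ht
      exact h1 X a b c [] (by simp)
    | (a' :: b' :: c' :: t), ht =>
      simp only [List.cons_append, List.cons.injEq] at ht
      obtain ⟨rfl, rfl, rfl, rfl⟩ := ht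
      exact h1 X a b c (t ++ [x]) (by simp)

/-- Data of a path `L` from `x` to `y` in the link of `v` that can replace `x v y`. -/
structure Good (G : SimpleGraph V) (ang : V → V → V → ℝ) (v x y : V) (R : List V) (A : ℕ)
    (L : List V) : Prop where
  head : L.head? = some x
  last : L.getLast? = some y
  chain : List.IsChain G.Adj L
  link : ∀ z ∈ L, G.Adj v z
  len : plen ang v L < Real.pi
  null : ∃ k, Null G k (L ++ R) ∧ k + L.length ≤ A + 1

theorem good_form {ang : V → V → V → ℝ} {v x y : V} {R : List V} {A : ℕ} {L : List V}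
    (h : Good G ang v x y R A L) (hxy : x ≠ y) : ∃ F, L = x :: (F ++ [y]) := by
  cases L with
  | nil => have := h.head; simp at this
  | cons a L =>
    have h1 : a = x := by have := h.head; simpa using this
    subst h1
    rcases List.eq_nil_or_concat L with rfl | ⟨F, b, rfl⟩
    · have := h.last
      simp at this
      exact absurd this hxy
    · have h2 : b = y := by
        have h0 := h.last
        have e : a :: F.concat b = (a :: F) ++ [b] := by simp
        rw [e, List.getLast?_append] at h0
        simpa using h0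
      subst h2
      exact ⟨F, by simp⟩

theorem good_drop1 {ang : V → V → V → ℝ} (hA : Angled G ang) {v x y : V} {R : List V} {A : ℕ}
    {X Y : List V} {p q r : V} (h : Good G ang v x y R A (X ++ p :: q :: r :: Y))
    (hpr : G.Adj p r) : Good G ang v x y R A (X ++ p :: r :: Y) := by
  have hch := h.chain
  rw [List.isChain_append_cons_cons] at hch
  have hpq : G.Adj p q := hch.2.1
  have hqr : G.Adj q r := by
    have := hch.2.2
    rw [List.isChain_cons_cons] at this
    exact this.1
  have hlast := h.last
  refine ⟨?_, ?_, ?_, ?_, ?_, ?_⟩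
  · have := h.head
    cases X <;> simpa using this
  · have e1 : (X ++ p :: q :: r :: Y).getLast? = (X ++ p :: r :: Y).getLast? := by
      simp [List.getLast?_append, List.getLast?_cons_cons]
    rw [← e1]; exact hlast
  · rw [List.isChain_append_cons_cons]
    refine ⟨hch.1, hpr, ?_⟩
    have := hch.2.2
    rw [List.isChain_cons_cons] at this
    exact this.2
  · intro z hz
    apply h.link
    simp only [List.mem_append, List.mem_cons] at hz ⊢
    tauto
  · refine lt_of_le_of_lt ?_ h.len
    rw [plen_append, plen_append ang v X p (q :: r :: Y)]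
    simp only [plen]
    have := hA.link v p q r (h.link p (by simp)) (h.link q (by simp)) (h.link r (by simp))
      hpq hqr hpr
    linarith
  · obtain ⟨k, hk, hk2⟩ := h.null
    refine ⟨k + 1, ?_, ?_⟩
    · have : Null G k (X ++ p :: q :: r :: (Y ++ R)) := by simpa using hk
      simpa using this.triAt hpr hpq hqr
    · simp only [List.length_append, List.length_cons] at hk2 ⊢
      omega

theorem good_drop2 (hZ : T_ZIP.{u}) {ang : V → V → V → ℝ} (hA : Angled G ang) {v x y : V}
    {R : List V} {A : ℕ}
    {X Y : List V} {p q : V} (h : Good G ang v x y R A (X ++ p :: q :: p :: Y)) (hxy : x ≠ y) :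
    Good G ang v x y R A (X ++ p :: Y) := by
  have hch := h.chain
  rw [List.isChain_append_cons_cons] at hch
  have hpq : G.Adj p q := hch.2.1
  have hch2 := hch.2.2
  rw [List.isChain_cons_cons] at hch2
  refine ⟨?_, ?_, ?_, ?_, ?_, ?_⟩
  · have := h.head
    cases X <;> simpa using this
  · have e1 : (X ++ p :: q :: p :: Y).getLast? = (X ++ p :: Y).getLast? := by
      simp [List.getLast?_append, List.getLast?_cons_cons]
    rw [← e1]; exact h.last
  · rw [List.isChain_split]
    exact ⟨hch.1, hch2.2⟩
  · intro z hz
    apply h.link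
    simp only [List.mem_append, List.mem_cons] at hz ⊢
    tauto
  · refine lt_of_le_of_lt ?_ h.len
    rw [plen_append, plen_append ang v X p (q :: p :: Y)]
    simp only [plen]
    have h1 := hA.pos v p q (h.link p (by simp)) (h.link q (by simp)) hpq
    have h2 := hA.pos v q p (h.link q (by simp)) (h.link p (by simp)) hpq.symm
    linarith
  · obtain ⟨k, hk, hk2⟩ := h.null
    refine ⟨k, ?_, ?_⟩
    · have h1 : Null G k (X ++ p :: q :: p :: (Y ++ R)) := by simpa using hk
      have h2 := hZ G k p q X (Y ++ R) ?_ h1
      · simpa using h2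
      · intro h0
        obtain ⟨h3, rfl⟩ := List.append_eq_nil_iff.1 h0
        obtain ⟨rfl, rfl⟩ := List.append_eq_nil_iff.1 h3
        have e1 := h.head
        have e2 := h.last
        simp at e1 e2
        exact hxy (e1.symm.trans e2)
    · simp only [List.length_append, List.length_cons] at hk2 ⊢
      omega

/-- A minimal good path has no ears. -/
theorem good_noEar (hZ : T_ZIP.{u}) {ang : V → V → V → ℝ} (hA : Angled G ang) {v x y : V}
    {R : List V} {A : ℕ} {L : List V} (h : Good G ang v x y R A L) (hxy : x ≠ y)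
    (hmin : ∀ L', Good G ang v x y R A L' → L.length ≤ L'.length) : NoEar G L := by
  intro X p q r Y hL
  subst hL
  constructor
  · rintro rfl
    have := hmin _ (good_drop2 hZ hA h hxy)
    simp only [List.length_append, List.length_cons] at this
    omega
  · intro hpr
    have := hmin _ (good_drop1 hA h hpr)
    simp only [List.length_append, List.length_cons] at this
    omega

theorem CW_res_mem {Y : Set V} {a b : V} {l : List V} (h : CW (resG G Y) (a :: b :: l)) :
    a ∈ Y ∧ b ∈ Y := by
  simp only [CW, List.isChain_cons_cons] at h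
  exact h.1.2

theorem exists_lt_of_sum_pos : ∀ D : List (Corner V),
    0 < (D.map fun c => Real.pi - c.th).sum → ∃ D₁ d D₂, D = D₁ ++ d :: D₂ ∧ d.th < Real.pi
  | [], h => by simp at h
  | (c :: D), h => by
    by_cases hc : c.th < Real.pi
    · exact ⟨[], c, D, rfl, hc⟩
    · push Not at hc
      simp only [List.map_cons, List.sum_cons] at h
      obtain ⟨D₁, d, D₂, rfl, hd⟩ := exists_lt_of_sum_pos D (by linarith)
      exact ⟨c :: D₁, d, D₂, rfl, hd⟩

theorem expand_false (D : List (Corner V)) (M : List (Corner V × Bool)) :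
    expand (D.map (fun c => (c, false)) ++ M) = D.map Corner.v ++ expand M := by
  induction D with
  | nil => simp
  | cons c D ih => simp [expand, ih]

theorem cost_false (D : List (Corner V)) (M : List (Corner V × Bool)) :
    cost (D.map (fun c => (c, false)) ++ M) = cost M := by
  induction D with
  | nil => simp
  | cons c D ih => simp [cost, ih]

theorem cycC_rot {c : Corner V} {D : List (Corner V)} (h : CycC (c :: D)) : CycC (D ++ [c]) := by
  cases D with
  | nil => simpa using h
  | cons d D =>
    simp only [CycC, List.cons_append, List.isChain_cons_cons] at h ⊢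
    have e : d :: (D ++ [c] ++ [d]) = (d :: D) ++ c :: [d] := by simp
    rw [e, List.isChain_append_cons_cons]
    exact ⟨by simpa using h.2, h.1, by simp⟩

theorem cycC_ne_nil {D : List (Corner V)} (h : CycC D) : D ≠ [] := by
  rintro rfl; exact h

theorem cycC_rotate {D : List (Corner V)} (h : CycC D) (n : ℕ) : CycC (D.rotate n) := by
  induction n with
  | zero => simpa using h
  | succ n ih =>
    rw [← List.rotate_rotate]
    cases hw : D.rotate n with
    | nil => exact absurd hw (cycC_ne_nil ih)
    | cons a l =>
      rw [hw] at ih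
      simpa [List.rotate_cons_succ] using cycC_rot ih

theorem cycC_rotated {D D' : List (Corner V)} (h : CycC D) (hr : D ~r D') : CycC D' := by
  obtain ⟨n, rfl⟩ := hr
  exact cycC_rotate h n

/-- A corner of small angle: normal form of the walk around it. -/
theorem corner_form {ang : V → V → V → ℝ} {A : ℕ} {w : List V} (hw3 : 3 ≤ w.length)
    {D : List (Corner V)} (hDw : D.map Corner.v = w) (hDc : CycC D)
    (hDk : ∀ c ∈ D, CornerOK G ang c)
    (hDs : 2 * Real.pi ≤ (D.map fun c => Real.pi - c.th).sum)
    (hDm : ∀ M : List (Corner V × Bool), M.map Prod.fst = D → MarksOK G M →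
      ∃ k, Null G k (expand M) ∧ k + cost M ≤ A) :
    ∃ (x v y : V) (R F : List V), w ~r (x :: v :: y :: R) ∧
      List.IsChain G.Adj (x :: (F ++ [y])) ∧ (∀ z ∈ x :: (F ++ [y]), G.Adj v z) ∧
      plen ang v (x :: (F ++ [y])) < Real.pi ∧
      ∃ k, Null G k (x :: (F ++ y :: R)) ∧ k + F.length + 1 ≤ A := by
  obtain ⟨D₁, d, D₂, rfl, hd⟩ := exists_lt_of_sum_pos D (by
    have := Real.pi_pos
    linarith)
  have hk := hDk d (by simp)
  obtain ⟨k, hk1, hk2⟩ := hDm (D₁.map (fun c => (c, false)) ++ (d, true) ::
    D₂.map (fun c => (c, false))) (by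
      simp only [List.map_append, List.map_map, List.map_cons]
      congr 1
      · simp [Function.comp_def]
      · simp [Function.comp_def]) (by
      unfold MarksOK
      rw [List.pairwise_append]
      refine ⟨?_, ?_, ?_⟩
      · rw [List.pairwise_map]
        exact List.pairwise_of_forall (fun _ _ h => by simp at h)
      · rw [List.pairwise_cons]
        refine ⟨?_, ?_⟩
        · intro a ha _ h2
          rw [List.mem_map] at ha
          obtain ⟨b, _, rfl⟩ := ha
          simp at h2
        · rw [List.pairwise_map]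
          exact List.pairwise_of_forall (fun _ _ h => by simp at h)
      · intro a ha b _ h1
        rw [List.mem_map] at ha
        obtain ⟨b, _, rfl⟩ := ha
        simp at h1)
  have e1 : expand (D₁.map (fun c => (c, false)) ++ (d, true) ::
      D₂.map (fun c => (c, false))) = D₁.map Corner.v ++ (d.F ++ D₂.map Corner.v) := by
    rw [expand_false]
    congr 1
    simp only [expand]
    have := expand_false D₂ []
    simp only [List.append_nil, expand] at this
    rw [this]
    simp
  have e2 : cost (D₁.map (fun c => (c, false)) ++ (d, true) ::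
      D₂.map (fun c => (c, false))) = d.F.length + 1 := by
    rw [cost_false]
    simp only [cost]
    have := cost_false D₂ []
    simp only [List.append_nil, cost] at this
    rw [this]
    simp
  rw [e1] at hk1
  rw [e2] at hk2
  have hlen : 2 ≤ (D₂ ++ D₁).length := by
    rw [← hDw] at hw3
    simp only [List.length_map, List.length_append, List.length_cons] at hw3 ⊢
    omega
  -- the rotated list of corners
  have hcyc : CycC (d :: (D₂ ++ D₁)) := by
    refine cycC_rotated hDc ?_
    have := List.isRotated_append (l := D₁) (l' := d :: D₂)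
    simpa using this
  obtain ⟨e, E, f, hE⟩ : ∃ e E f, D₂ ++ D₁ = e :: (E ++ [f]) := by
    cases h0 : D₂ ++ D₁ with
    | nil => rw [h0] at hlen; simp at hlen
    | cons e E =>
      rcases List.eq_nil_or_concat E with rfl | ⟨E', f, rfl⟩
      · rw [h0] at hlen; simp at hlen
      · exact ⟨e, E', f, by simp⟩
  rw [hE] at hcyc
  simp only [CycC] at hcyc
  have hcyc1 : d.n = e.v ∧ e.p = d.v := by
    rw [List.cons_append, List.isChain_cons_cons] at hcyc
    exact hcyc.1
  have hcyc2 : f.n = d.v ∧ d.p = f.v := by
    have e0 : d :: (e :: (E ++ [f]) ++ [d]) = (d :: e :: E) ++ f :: [d] := by simp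
    rw [e0, List.isChain_append_cons_cons] at hcyc
    exact hcyc.2.1
  have hv : D₂.map Corner.v ++ D₁.map Corner.v = d.n :: (E.map Corner.v ++ [d.p]) := by
    rw [← List.map_append, hE, hcyc1.1, hcyc2.2]
    simp
  refine ⟨d.p, d.v, d.n, E.map Corner.v, d.F, ?_, hk.chain, hk.link, ?_, k, ?_, ?_⟩
  · rw [← hDw]
    have h1 : (D₁ ++ d :: D₂).map Corner.v ~r (d.v :: (D₂.map Corner.v ++ D₁.map Corner.v)) := by
      have := List.isRotated_append (l := D₁.map Corner.v) (l' := d.v :: D₂.map Corner.v)
      simpa using this
    rw [hv] at h1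
    refine h1.trans ?_
    have := List.isRotated_append (l := d.v :: d.n :: E.map Corner.v) (l' := [d.p])
    simpa using this
  · rw [← hk.len]; exact hd
  · have h1 : Null G k ((d.F ++ D₂.map Corner.v) ++ D₁.map Corner.v) := hk1.swap
    rw [List.append_assoc, hv] at h1
    have h2 : Null G k ((d.F ++ d.n :: E.map Corner.v) ++ [d.p]) := by simpa using h1
    simpa using h2.swap
  · omega

/-- The first interior vertex of an ear-free path of length less than `π` in the link of a fixed
vertex, between fixed vertices, is fixed or moved to an adjacent vertex. -/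
theorem no_move {ang : V → V → V → ℝ} (hA : Angled G ang) {g : Equiv.Perm V}
    (hg : IsAut G ang g) {v x y : V} (hv : g v = v) (hx : g x = x) (hy : g y = y)
    {p : V} {F : List V} (hch : List.IsChain G.Adj (x :: (p :: F ++ [y])))
    (hlk : ∀ z ∈ x :: (p :: F ++ [y]), G.Adj v z)
    (hlen : plen ang v (x :: (p :: F ++ [y])) < Real.pi)
    (hne : NoEar G (x :: (p :: F ++ [y]))) (hp : g p ≠ p) (hp2 : ¬ G.Adj (g p) p) : False := by
  obtain ⟨F0, f, hF⟩ : ∃ F0 f, p :: F = F0 ++ [f] := by
    rcases List.eq_nil_or_concat (p :: F) with h | ⟨F0, f, h⟩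
    · simp at h
    · exact ⟨F0, f, by simpa using h⟩
  set Q : List V := p :: F with hQ
  have hmap : (x :: (Q ++ [y])).map g = x :: (Q.map g ++ [y]) := by simp [hx, hy]
  have hrev : ((x :: (Q ++ [y])).map g).reverse = (y :: (Q.map g).reverse) ++ [x] := by
    rw [hmap]; simp
  have hch1 : List.IsChain G.Adj ((y :: (Q.map g).reverse) ++ [x]) := by
    rw [← hrev]
    exact chain_reverse _ (chain_map hg _ hch)
  have hne1 : NoEar G ((y :: (Q.map g).reverse) ++ [x]) := by
    rw [← hrev]
    exact NoEar.reverse (NoEar.map hg hne)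
  have hlen1 : plen ang v ((y :: (Q.map g).reverse) ++ [x]) = plen ang v (x :: (Q ++ [y])) := by
    rw [← hrev, plen_reverse hA.symm, plen_map hg hv _ hch hlk]
  have hsplit : x :: (Q ++ [y]) = (x :: F0) ++ f :: [y] := by rw [hF]; simp
  have hlen2 : plen ang v (x :: (Q ++ [y])) = plen ang v (x :: Q) + ang v f y := by
    rw [hsplit, plen_append, hF]
    simp [plen]
  have hfy : G.Adj f y := by
    rw [hsplit, List.isChain_append_cons_cons] at hch
    exact hch.2.1
  have hch2 : List.IsChain G.Adj (x :: Q) := by
    have e : x :: (Q ++ [y]) = (x :: Q) ++ [y] := by simp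
    rw [e, List.isChain_append] at hch
    exact hch.1
  have hne2 : NoEar G (x :: Q) := NoEar.of_infix hne ⟨[], [y], by simp⟩
  have hch3 : List.IsChain G.Adj ((y :: (Q.map g).reverse) ++ x :: Q) := by
    rw [List.isChain_split]
    exact ⟨hch1, hch2⟩
  have hne3 : NoEar G ((y :: (Q.map g).reverse) ++ x :: Q) := by
    refine NoEar.glue hne1 hne2 ?_
    intro L a b L' h1 h2
    rw [hQ] at h1 h2
    simp only [List.cons.injEq] at h2
    obtain ⟨rfl, rfl⟩ := h2
    have h3 : (y :: (F.map g).reverse) ++ [g p] = L ++ [a] := by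
      rw [← h1]; simp
    have h4 := List.append_inj' h3 (by simp)
    have h5 : g p = a := by simpa using h4.2
    subst h5
    exact ⟨hp, hp2⟩
  have hlarge := hA.large v f y ((Q.map g).reverse ++ x :: F0) (by
    rw [hQ]
    simp only [List.map_cons, List.length_append, List.length_reverse, List.length_cons,
      List.length_map]
    omega) (by
    simp only [CW, List.isChain_cons_cons]
    refine ⟨hfy, ?_⟩
    have e : y :: (((Q.map g).reverse ++ x :: F0) ++ [f]) = (y :: (Q.map g).reverse) ++ x :: Q := by
      rw [hF]; simp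
    rw [e]; exact hch3) (by
    intro z hz
    simp only [List.mem_cons, List.mem_append, List.mem_reverse, List.mem_map] at hz
    have hQl : ∀ z ∈ Q, G.Adj v z := fun z hz => hlk z (by simp [hz])
    rcases hz with rfl | rfl | ⟨q, hq, rfl⟩ | rfl | hz
    · exact hQl _ (by rw [hF]; simp)
    · exact hlk _ (by simp)
    · have := (hg.adj v q).2 (hQl q hq)
      rwa [hv] at this
    · exact hlk _ (by simp)
    · exact hQl _ (by rw [hF]; simp [hz])) (by
    have e : y :: (((Q.map g).reverse ++ x :: F0) ++ [f]) = (y :: (Q.map g).reverse) ++ x :: Q := by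
      rw [hF]; simp
    rw [e]; exact hne3)
  have hcl : clen ang v (f :: y :: ((Q.map g).reverse ++ x :: F0)) =
      ang v f y + plen ang v ((y :: (Q.map g).reverse) ++ x :: Q) := by
    have e : y :: (((Q.map g).reverse ++ x :: F0) ++ [f]) = (y :: (Q.map g).reverse) ++ x :: Q := by
      rw [hF]; simp
    rw [← e]
    simp [clen, plen]
  rw [hcl, plen_append, hlen1] at hlarge
  linarith

theorem main (hD : T_DS.{u}) (hC : T_CONE.{u}) (hZ : T_ZIP.{u}) {ang : V → V → V → ℝ}
    (hA : Angled G ang) {S : Set V} (hS : ∀ a b, G.Adj a b → a ∈ S) {g : Equiv.Perm V}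
    (hg : IsAut G ang g) (hgS : ∀ v ∈ S, ¬ G.Adj v (g v)) {Y : Set V}
    (hY : Y = {v | v ∈ S ∧ g v = v}) :
    ∀ (A n : ℕ) (w : List V), w.length = n → Null G A w →
      CW (resG G Y) w → ∃ B, Null (resG G Y) B w := by
  intro A
  induction A using Nat.strong_induction_on with
  | _ A ihA =>
  intro n
  induction n using Nat.strong_induction_on with
  | _ n ihn =>
  intro w hwn hw hcw
  by_cases hw3 : w.length < 3
  · match w, hcw, hw3 with
    | [], h, _ => exact absurd h id
    | [a], _, _ => exact ⟨0, Null.pt a⟩
    | [a, b], h, _ =>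
      simp only [CW, List.nil_append, List.isChain_cons_cons] at h
      exact ⟨0, Null.dig h.1⟩
    | (a :: b :: c :: l), _, h =>
      simp only [List.length_cons] at h
      omega
  push Not at hw3
  by_cases hmin : MinA G A w
  swap
  · have : ∃ k, k < A ∧ Null G k w := by
      unfold MinA at hmin
      push Not at hmin
      obtain ⟨k, hk, hk2⟩ := hmin hw
      exact ⟨k, hk2, hk⟩
    obtain ⟨k, hk, hk2⟩ := this
    exact ihA k hk _ w rfl hk2 hcw
  by_cases hirr : Irr G A w
  swap
  · unfold Irr at hirr
    push Not at hirr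
    obtain ⟨c, s, t, m, n', hr, hs, ht, h1, h2, h3⟩ := hirr
    have hc2 := hcw.rotated hr
    obtain ⟨hc3, hc4⟩ := CW_unsplit hs ht hc2
    have hlen : w.length = s.length + t.length + 2 := by
      rw [hr.perm.length_eq]
      simp only [List.length_cons, List.length_append]
      omega
    have hs' := List.length_pos_iff.2 hs
    have ht' := List.length_pos_iff.2 ht
    have key : ∀ (m' : ℕ) (s' : List V), m' ≤ A → (c :: s').length < w.length →
        Null G m' (c :: s') → CW (resG G Y) (c :: s') →
        ∃ B, Null (resG G Y) B (c :: s') := by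
      intro m' s' hm' hl hn hc
      rcases Nat.lt_or_ge m' A with h | h
      · exact ihA m' h _ _ rfl hn hc
      · have : m' = A := by omega
        subst this
        exact ihn _ (by omega) _ rfl hn hc
    obtain ⟨B1, hB1⟩ := key m s (by omega) (by simp only [List.length_cons]; omega) h1 hc3
    obtain ⟨B2, hB2⟩ := key n' t (by omega) (by simp only [List.length_cons]; omega) h2 hc4
    exact ⟨B1 + B2, (Null.split hs ht hB1 hB2).rotated hr.symm⟩
  obtain ⟨D, hDw, hDc, hDk, hDs, hDm⟩ := hD G ang hA A w hw3 hmin hirr
  obtain ⟨x, v, y, R, F, hr, hch, hlk, hlen, k, hk1, hk2⟩ := corner_form hw3 hDw hDc hDk hDs hDm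
  have hcw2 : CW (resG G Y) (x :: v :: y :: R) := hcw.rotated hr
  suffices h : ∃ B, Null (resG G Y) B (x :: v :: y :: R) by
    obtain ⟨B, hB⟩ := h
    exact ⟨B, hB.rotated hr.symm⟩
  have hcw3 := hcw2
  simp only [CW, List.cons_append, List.isChain_cons_cons] at hcw3
  obtain ⟨hxv, hvy, hyR⟩ := hcw3
  have hxY : x ∈ Y := hxv.2.1
  have hvY : v ∈ Y := hxv.2.2
  have hyY : y ∈ Y := hvy.2.2
  have hfix : ∀ z ∈ Y, g z = z := by
    intro z hz
    rw [hY] at hz
    exact hz.2
  have hxy : x ≠ y := by
    rintro rfl
    cases R with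
    | nil => simp at hyR
    | cons r R =>
      have hw2 : Null G A (x :: v :: x :: r :: R) := hw.rotated hr
      have h1 : Null G A ([] ++ x :: (r :: R)) :=
        hZ G A x v [] (r :: R) (by simp) (by simpa using hw2)
      have := hirr x [v] (r :: R) 0 A (by simpa using hr) (by simp) (by simp)
        (Null.dig hxv.1) (by simpa using h1)
      omega
  have hgood : Good G ang v x y R A (x :: (F ++ [y])) := by
    refine ⟨by simp, ?_, hch, hlk, hlen, k, by simpa using hk1, ?_⟩
    · have e : x :: (F ++ [y]) = (x :: F) ++ [y] := by simp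
      rw [e, List.getLast?_append]
      simp
    · simp only [List.length_cons, List.length_append, List.length_nil]
      omega
  obtain ⟨L, hL, hLmin⟩ : ∃ L, Good G ang v x y R A L ∧
      ∀ L', Good G ang v x y R A L' → L.length ≤ L'.length := by
    classical
    have hex : ∃ n, ∃ L, Good G ang v x y R A L ∧ L.length = n := ⟨_, _, hgood, rfl⟩
    obtain ⟨L, hL, hLn⟩ := Nat.find_spec hex
    refine ⟨L, hL, fun L' hL' => ?_⟩
    rw [hLn]
    exact Nat.find_min' hex ⟨L', hL', rfl⟩
  have hne := good_noEar hZ hA hL hxy hLmin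
  obtain ⟨F', rfl⟩ := good_form hL hxy
  obtain ⟨k', hk'1, hk'2⟩ := hL.null
  simp only [List.length_cons, List.length_append, List.length_nil] at hk'2
  cases F' with
  | nil =>
    have hxy' : G.Adj x y := by
      have := hL.chain
      simpa using this
    have hxyY : (resG G Y).Adj x y := ⟨hxy', hxY, hyY⟩
    obtain ⟨B, hB⟩ := ihA k' (by simp at hk'2; omega) _ (x :: y :: R) rfl (by simpa using hk'1) (by
      simp only [CW, List.isChain_cons_cons]
      exact ⟨hxyY, hyR⟩)
    have h0 : Null (resG G Y) B ([] ++ x :: y :: R) := by simpa using hB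
    exact ⟨B + 1, by simpa using h0.push hxv hvy hxyY⟩
  | cons p F' =>
    have hpL : G.Adj v p := hL.link p (by simp)
    have hpS : p ∈ S := hS p v hpL.symm
    by_cases hgp : g p = p
    · have hpY : p ∈ Y := by rw [hY]; exact ⟨hpS, hgp⟩
      have hxp : G.Adj x p := by
        have := hL.chain
        simp only [List.cons_append, List.isChain_cons_cons] at this
        exact this.1
      have h1 := hC G k' v p y F' (R ++ [x]) (by
        have := hL.chain
        simp only [List.cons_append, List.isChain_cons_cons] at this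
        simpa using this.2) (by
        intro z hz
        exact hL.link z (by simp at hz ⊢; tauto)) (by
        have h2 : Null G k' ([x] ++ (p :: (F' ++ y :: R))) := by simpa using hk'1
        simpa using h2.swap)
      have h2 : Null G (k' + F'.length + 1) ((p :: v :: y :: R) ++ [x]) := by simpa using h1
      have h3 : Null G (k' + F'.length + 1) (x :: p :: v :: y :: R) := by simpa using h2.swap
      have hxpY : (resG G Y).Adj x p := ⟨hxp, hxY, hpY⟩
      have hpvY : (resG G Y).Adj p v := ⟨hpL.symm, hpY, hvY⟩
      obtain ⟨B, hB⟩ := ihA (k' + F'.length + 1) (by simp at hk'2; omega) _ _ rfl h3 (by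
        simp only [CW, List.cons_append, List.isChain_cons_cons]
        exact ⟨hxpY, hpvY, hvy, hyR⟩)
      have h4 : Null (resG G Y) B ([] ++ x :: p :: v :: (y :: R)) := by simpa using hB
      exact ⟨B + 1, by simpa using h4.triAt hxv hxpY hpvY⟩
    · exfalso
      refine no_move hA hg (hfix v hvY) (hfix x hxY) (hfix y hyY) (p := p) (F := F')
        (by simpa using hL.chain) ?_ (by simpa using hL.len) (by simpa using hne) hgp ?_
      · intro z hz
        exact hL.link z (by simpa using hz)
      · intro h
        exact hgS p hpS h.symm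

end T3

theorem tT3 (hD : T_DS.{u}) (hC : T_CONE.{u}) (hZ : T_ZIP.{u}) : T_T3.{u} := by
  intro V G ang hA S hS hnull g hg hgS w hw
  have hw' : CW G w := by
    match w, hw with
    | [], h => exact h
    | [_], _ => trivial
    | (a :: b :: l), h =>
      exact List.IsChain.imp (fun _ _ h => h.1) h
  obtain ⟨A, hA'⟩ := hnull w hw'
  exact T3.main hD hC hZ hA hS hg hgS rfl A _ w rfl hA' hw

end Pool.Agent.MSF
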