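import Pool.Agent.MSF.Targets

/-!
# TRIG: angles of a Euclidean triangle
-/

set_option autoImplicit false

namespace Pool.Agent.MSF

open List

universe u

namespace TRIG

lemma lt_one {x y z : ℝ} (hx : 0 < x) (hy : 0 < y) (h1 : x < y + z) (h2 : y < x + z) :
    (x ^ 2 + y ^ 2 - z ^ 2) / (2 * x * y) < 1 := by
  rw [div_lt_one (by positivity)]
  nlinarith

/-- sine of the angle of a triangle, in terms of the area -/
lemma sin_eq {x y z S : ℝ} (hy : 0 < y) (hz : 0 < z) (hS : 0 ≤ S)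
    (hS2 : S ^ 2 = 4 * y ^ 2 * z ^ 2 - (y ^ 2 + z ^ 2 - x ^ 2) ^ 2) :
    Real.sqrt (1 - ((y ^ 2 + z ^ 2 - x ^ 2) / (2 * y * z)) ^ 2) = S / (2 * y * z) := by
  have h1 : 1 - ((y ^ 2 + z ^ 2 - x ^ 2) / (2 * y * z)) ^ 2 = (S / (2 * y * z)) ^ 2 := by
    rw [div_pow, div_pow, hS2]
    field_simp
    ring
  rw [h1, Real.sqrt_sq (by positivity)]

lemma sum_pi {x y z : ℝ} (hx : 0 < x) (hy : 0 < y) (hz : 0 < z) (h1 : x < y + z)
    (h2 : y < x + z) (h3 : z < x + y) :
    Real.arccos ((y ^ 2 + z ^ 2 - x ^ 2) / (2 * y * z)) +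
      Real.arccos ((x ^ 2 + z ^ 2 - y ^ 2) / (2 * x * z)) +
      Real.arccos ((x ^ 2 + y ^ 2 - z ^ 2) / (2 * x * y)) = Real.pi := by
  set p := (y ^ 2 + z ^ 2 - x ^ 2) / (2 * y * z) with hp
  set q := (x ^ 2 + z ^ 2 - y ^ 2) / (2 * x * z) with hq
  set r := (x ^ 2 + y ^ 2 - z ^ 2) / (2 * x * y) with hr
  have hpos : 0 ≤ 4 * y ^ 2 * z ^ 2 - (y ^ 2 + z ^ 2 - x ^ 2) ^ 2 := by
    have h4 : 4 * y ^ 2 * z ^ 2 - (y ^ 2 + z ^ 2 - x ^ 2) ^ 2 =
        (x + y + z) * (y + z - x) * (x + z - y) * (x + y - z) := by ring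
    rw [h4]
    have h5 : 0 < y + z - x := by linarith
    have h6 : 0 < x + z - y := by linarith
    have h7 : 0 < x + y - z := by linarith
    positivity
  set S := Real.sqrt (4 * y ^ 2 * z ^ 2 - (y ^ 2 + z ^ 2 - x ^ 2) ^ 2) with hS
  have hS0 : 0 ≤ S := Real.sqrt_nonneg _
  have hS2 : S ^ 2 = 4 * y ^ 2 * z ^ 2 - (y ^ 2 + z ^ 2 - x ^ 2) ^ 2 := Real.sq_sqrt hpos
  have hp1 : p < 1 := lt_one hy hz (by linarith) (by linarith)
  have hq1 : q < 1 := lt_one hx hz (by linarith) (by linarith)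
  have hp2 : -1 < p := by
    rw [hp, lt_div_iff₀ (by positivity)]
    nlinarith
  have hq2 : -1 < q := by
    rw [hq, lt_div_iff₀ (by positivity)]
    nlinarith
  have hsp : Real.sqrt (1 - p ^ 2) = S / (2 * y * z) := sin_eq hy hz hS0 hS2
  have hsq : Real.sqrt (1 - q ^ 2) = S / (2 * x * z) :=
    sin_eq hx hz hS0 (by rw [hS2]; ring)
  have hpq : 0 ≤ p + q := by
    have h4 : p + q = (x + y) * (z ^ 2 - (x - y) ^ 2) / (2 * x * y * z) := by
      rw [hp, hq]
      field_simp
      ring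
    rw [h4]
    have h5 : 0 ≤ z ^ 2 - (x - y) ^ 2 := by nlinarith
    positivity
  have hle : Real.arccos p + Real.arccos q ≤ Real.pi := by
    have h4 : Real.arccos p ≤ Real.arccos (-q) := Real.arccos_le_arccos (by linarith)
    rw [Real.arccos_neg] at h4
    linarith
  have hge : 0 ≤ Real.arccos p + Real.arccos q :=
    add_nonneg (Real.arccos_nonneg _) (Real.arccos_nonneg _)
  have hcos : Real.cos (Real.arccos p + Real.arccos q) = -r := by
    rw [Real.cos_add, Real.cos_arccos hp2.le hp1.le, Real.cos_arccos hq2.le hq1.le,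
      Real.sin_arccos, Real.sin_arccos, hsp, hsq, hp, hq, hr]
    have h4 : S / (2 * y * z) * (S / (2 * x * z)) = S ^ 2 / (4 * x * y * z ^ 2) := by
      field_simp
      ring
    rw [h4, hS2]
    field_simp
    ring
  have h5 := Real.arccos_cos hge hle
  rw [hcos, Real.arccos_neg] at h5
  linarith

end TRIG

open TRIG in
theorem tTRIG : T_TRIG.{u} := by
  intro V G len h
  refine ⟨?_, ?_, ?_⟩
  · intro v a b
    unfold angle
    rw [h.symm a b]
    ring_nf
  · intro v a b hva hvb hab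
    unfold angle
    rw [Real.arccos_pos]
    have h1 := h.triangle v b a hvb hab.symm hva
    have h2 := h.triangle v a b hva hab hvb
    rw [h.symm b a] at h1
    exact lt_one (h.pos _ _ hva) (h.pos _ _ hvb) (by linarith) (by linarith)
  · intro a b c hab hbc hac
    have h1 := h.triangle b a c hab.symm hac hbc
    have h2 := h.triangle a b c hab hbc hac
    have h3 := h.triangle a c b hac hbc.symm hab
    rw [h.symm b a] at h1
    rw [h.symm c b] at h3
    have h4 := sum_pi (x := len b c) (y := len a c) (z := len a b) (h.pos _ _ hbc)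
      (h.pos _ _ hac) (h.pos _ _ hab) (by linarith) (by linarith) (by linarith)
    unfold angle
    rw [h.symm b a, h.symm c a, h.symm c b]
    have e1 : (len a b ^ 2 + len a c ^ 2 - len b c ^ 2) / (2 * len a b * len a c) =
        (len a c ^ 2 + len a b ^ 2 - len b c ^ 2) / (2 * len a c * len a b) := by ring
    have e2 : (len a b ^ 2 + len b c ^ 2 - len a c ^ 2) / (2 * len a b * len b c) =
        (len b c ^ 2 + len a b ^ 2 - len a c ^ 2) / (2 * len b c * len a b) := by ring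
    have e3 : (len a c ^ 2 + len b c ^ 2 - len a b ^ 2) / (2 * len a c * len b c) =
        (len b c ^ 2 + len a c ^ 2 - len a b ^ 2) / (2 * len b c * len a c) := by ring
    rw [e1, e2, e3]
    linarith

end Pool.Agent.MSF
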