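import Pool.Agent.MSF.Basic

/-! Intermediate targets for MP_d6353f_al. -/

namespace Pool.Agent.MSF

open List

universe u

/-- PEEL: peel off the edge `p → q` of a null closed walk (`q :: (t ++ [p])` as a cyclic list). -/
def T_PEEL : Prop := ∀ {V : Type u} (G : SimpleGraph V) (m : ℕ) (w : List V), Null G m w →
  ∀ (q p : V) (t : List V), w ~r (q :: (t ++ [p])) →
  (∃ (z : V) (m' : ℕ), m' < m ∧ G.Adj p q ∧ G.Adj p z ∧ G.Adj z q ∧
      Null G m' (z :: q :: (t ++ [p]))) ∨
  (∃ (P Q : List V) (m₁ m₂ : ℕ), q :: (t ++ [p]) = P ++ Q ∧ NullR G m₁ P ∧ NullR G m₂ Q ∧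
      m₁ + m₂ ≤ m)

/-- ZIP: remove a spur. -/
def T_ZIP : Prop := ∀ {V : Type u} (G : SimpleGraph V) (m : ℕ) (a b : V) (X Y : List V),
  Y ++ X ≠ [] → Null G m (X ++ a :: b :: a :: Y) → Null G m (X ++ a :: Y)

/-- GLUE: replace the path `s Q t` by the path `s P t`. -/
def T_GLUE : Prop := ∀ {V : Type u} (G : SimpleGraph V) (m n : ℕ) (s t : V) (P Q R : List V),
  Null G m (s :: (Q ++ t :: R)) → Null G n (s :: (P ++ t :: Q.reverse)) →
  Null G (m + n) (s :: (P ++ t :: R))

/-- GEN: remove a null loop. -/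
def T_GEN : Prop := ∀ {V : Type u} (G : SimpleGraph V) (m n : ℕ) (a : V) (l l' : List V),
  l ≠ [] → l' ≠ [] → Null G m (a :: (l ++ a :: l')) → Null G n (a :: l') →
  Null G (m + n) (a :: l)

/-- CONE: replace the path `p F q` in the link of `x` by `p x q`. -/
def T_CONE : Prop := ∀ {V : Type u} (G : SimpleGraph V) (k : ℕ) (x p q : V) (F R : List V),
  List.IsChain G.Adj (p :: (F ++ [q])) → (∀ y ∈ p :: (F ++ [q]), G.Adj x y) →
  Null G k (p :: (F ++ q :: R)) → Null G (k + F.length + 1) (p :: x :: q :: R)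

/-- FILL: short closed walks in links are null, with the expected area. -/
def T_FILL : Prop := ∀ {V : Type u} (G : SimpleGraph V) (ang : V → V → V → ℝ), Angled G ang →
  ∀ (v : V) (c : List V), 2 ≤ c.length → CW G c → (∀ x ∈ c, G.Adj v x) →
  clen ang v c < 2 * Real.pi → Null G (c.length - 2) c

/-- LARGE: a closed walk in a link all of whose ears are at two consecutive positions `a`, `b`
is long, from the metric definition. -/
def T_LARGE : Prop := ∀ {V : Type u} (G : SimpleGraph V) (len : V → V → ℝ),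
  IsMetricComplex G len → (∀ v, IsLarge G len v) →
  (∀ v a b, G.Adj v a → G.Adj v b → G.Adj a b → 0 < angle len v a b) →
  ∀ v a b l, 2 ≤ l.length → CW G (a :: b :: l) → (∀ x ∈ a :: b :: l, G.Adj v x) →
    NoEar G (b :: (l ++ [a])) → 2 * Real.pi ≤ clen (angle len) v (a :: b :: l)

/-- TRIG: angles of a Euclidean triangle. -/
def T_TRIG : Prop := ∀ {V : Type u} (G : SimpleGraph V) (len : V → V → ℝ),
  IsMetricComplex G len →
  (∀ v a b, angle len v a b = angle len v b a) ∧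
  (∀ v a b, G.Adj v a → G.Adj v b → G.Adj a b → 0 < angle len v a b) ∧
  (∀ a b c, G.Adj a b → G.Adj b c → G.Adj a c →
    angle len a b c + angle len b a c + angle len c a b ≤ Real.pi)

/-- DISC1: local correctness of disc diagrams. -/
def T_DISC1 : Prop := ∀ {V : Type u} (G : SimpleGraph V) (ang : V → V → V → ℝ), Angled G ang →
  ∀ (A : ℕ) (D : List (Corner V)), Disc G ang A D →
    3 ≤ D.length ∧ CycC D ∧ ∀ c ∈ D, CornerOK G ang c

/-- DISC2: Gauss–Bonnet. -/
def T_DISC2 : Prop := ∀ {V : Type u} (G : SimpleGraph V) (ang : V → V → V → ℝ), Angled G ang →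
  ∀ (A : ℕ) (D : List (Corner V)), Disc G ang A D →
    2 * Real.pi ≤ (D.map fun c => Real.pi - c.th).sum

/-- DISC3: expansion of marked corners. -/
def T_DISC3 : Prop := ∀ {V : Type u} (G : SimpleGraph V) (ang : V → V → V → ℝ), Angled G ang →
  ∀ (A : ℕ) (D : List (Corner V)), Disc G ang A D →
    ∀ M : List (Corner V × Bool), M.map Prod.fst = D → MarksOK G M →
      ∃ k, Null G k (expand M) ∧ k + cost M ≤ A

/-- A3: the first triangle. -/
def T_A3 : Prop := ∀ {V : Type u} (G : SimpleGraph V) (A : ℕ) (a b : V) (l : List V), l ≠ [] →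
  MinA G A (a :: b :: l) → Irr G A (a :: b :: l) →
  ∃ (z : V) (k : ℕ), k + 1 = A ∧ G.Adj a b ∧ G.Adj a z ∧ G.Adj z b ∧ MinA G k (a :: z :: b :: l)

/-- RED: if the closed walk obtained after removing the first triangle is reducible, then it
splits at the new vertex `z`, into minimal irreducible pieces. -/
def T_RED : Prop := ∀ {V : Type u} (G : SimpleGraph V) (k : ℕ) (a b z : V) (l : List V), l ≠ [] →
  G.Adj a b → G.Adj a z → G.Adj z b →
  MinA G (k + 1) (a :: b :: l) → Irr G (k + 1) (a :: b :: l) → MinA G k (a :: z :: b :: l) →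
  ¬ Irr G k (a :: z :: b :: l) →
  ∃ (l₁ l₂ : List V) (m n : ℕ), l = l₁ ++ z :: l₂ ∧ m + n = k ∧
    MinA G m (z :: b :: l₁) ∧ Irr G m (z :: b :: l₁) ∧
    MinA G n (z :: (l₂ ++ [a])) ∧ Irr G n (z :: (l₂ ++ [a]))

/-- ANGZ: the new interior vertex has total angle at least `2π`. -/
def T_ANGZ : Prop := ∀ {V : Type u} (G : SimpleGraph V) (ang : V → V → V → ℝ), Angled G ang →
  ∀ (k : ℕ) (a b z x y : V) (Fa Fz Fb : List V) (ta tz tb : ℝ) (D : List (Corner V)),
  G.Adj a b → G.Adj a z → G.Adj z b →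
  MinA G (k + 1) (a :: b :: D.map Corner.v) →
  Disc G ang k (⟨x, a, z, Fa, ta⟩ :: ⟨a, z, b, Fz, tz⟩ :: ⟨z, b, y, Fb, tb⟩ :: D) →
  2 * Real.pi ≤ tz + ang z b a

/-- DEX: existence of disc diagrams. -/
def T_DEX : Prop := ∀ {V : Type u} (G : SimpleGraph V) (ang : V → V → V → ℝ), Angled G ang →
  ∀ (A : ℕ) (w : List V), 3 ≤ w.length → MinA G A w → Irr G A w →
  ∃ D : List (Corner V), Disc G ang A D ∧ D.map Corner.v = w

/-- DS: summary of the disc diagram part. -/
def T_DS : Prop := ∀ {V : Type u} (G : SimpleGraph V) (ang : V → V → V → ℝ), Angled G ang →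
  ∀ (A : ℕ) (w : List V), 3 ≤ w.length → MinA G A w → Irr G A w →
  ∃ D : List (Corner V), D.map Corner.v = w ∧ CycC D ∧ (∀ c ∈ D, CornerOK G ang c) ∧
    2 * Real.pi ≤ (D.map fun c => Real.pi - c.th).sum ∧
    ∀ M : List (Corner V × Bool), M.map Prod.fst = D → MarksOK G M →
      ∃ k, Null G k (expand M) ∧ k + cost M ≤ A

/-- Automorphisms of an angled graph. -/
structure IsAut {V : Type u} (G : SimpleGraph V) (ang : V → V → V → ℝ) (g : Equiv.Perm V) :
    Prop where
  adj : ∀ a b, G.Adj (g a) (g b) ↔ G.Adj a b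
  ang : ∀ v a b, G.Adj v a → G.Adj v b → G.Adj a b → ang (g v) (g a) (g b) = ang v a b

/-- T1I: a minimal antipodal closed walk is irreducible. -/
def T_T1I : Prop := ∀ {V : Type u} (G : SimpleGraph V) (g : Equiv.Perm V) (S : Set V),
  (∀ a b, G.Adj a b → a ∈ S) → (∀ a b, G.Adj (g a) (g b) ↔ G.Adj a b) →
  (∀ v ∈ S, g (g v) = v) → (∀ v ∈ S, g v ≠ v) →
  ∀ (A : ℕ) (α : List V), α ≠ [] → Null G A (α ++ α.map g) →
  (∀ (k : ℕ) (β : List V), β ≠ [] → Null G k (β ++ β.map g) →
    A ≤ k ∧ (k ≤ A → α.length ≤ β.length)) →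
  Irr G A (α ++ α.map g)

/-- T1: an involution of a connected simply connected angled complex moves some vertex by at
most one. -/
def T_T1 : Prop := ∀ {V : Type u} (G : SimpleGraph V) (ang : V → V → V → ℝ), Angled G ang →
  ∀ (S : Set V), S.Nonempty → (∀ a b, G.Adj a b → a ∈ S) →
  (∀ a ∈ S, ∀ b ∈ S, G.Reachable a b) → (∀ w, CW G w → ∃ A, Null G A w) →
  ∀ g : Equiv.Perm V, IsAut G ang g → (∀ v, g v ∈ S ↔ v ∈ S) → (∀ v ∈ S, g (g v) = v) →
  ∃ v ∈ S, g v = v ∨ G.Adj v (g v)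

/-- The closed walk `y, mid, y', (g mid)⁻¹`. -/
def Wt {V : Type u} (g : V → V) (y : V) (mid : List V) (y' : V) : List V :=
  y :: (mid ++ y' :: (mid.map g).reverse)

/-- T2I: a minimal reflected closed walk is irreducible. -/
def T_T2I : Prop := ∀ {V : Type u} (G : SimpleGraph V) (g : Equiv.Perm V) (R : V → V → Prop),
  Equivalence R → (∀ a b, G.Adj (g a) (g b) ↔ G.Adj a b) →
  ∀ (A : ℕ) (y y' : V) (mid : List V), g y = y → g y' = y' → ¬ R y y' →
  Null G A (Wt g y mid y') →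
  (∀ (k : ℕ) (u u' : V) (mid' : List V), g u = u → g u' = u' → ¬ R u u' →
    Null G k (Wt g u mid' u') → A ≤ k ∧ (k ≤ A → mid.length ≤ mid'.length)) →
  Irr G A (Wt g y mid y')

/-- T2: the fixed vertices of an automorphism which moves no vertex to an adjacent vertex span
a connected subcomplex. -/
def T_T2 : Prop := ∀ {V : Type u} (G : SimpleGraph V) (ang : V → V → V → ℝ), Angled G ang →
  ∀ (S : Set V), (∀ a b, G.Adj a b → a ∈ S) →
  (∀ a ∈ S, ∀ b ∈ S, G.Reachable a b) → (∀ w, CW G w → ∃ A, Null G A w) →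
  ∀ g : Equiv.Perm V, IsAut G ang g → (∀ v ∈ S, ¬ G.Adj v (g v)) →
  ∀ y ∈ S, g y = y → ∀ y' ∈ S, g y' = y' → (resG G {v | v ∈ S ∧ g v = v}).Reachable y y'

/-- T3: the fixed vertices of an automorphism which moves no vertex to an adjacent vertex span
a subcomplex all of whose closed walks are null. -/
def T_T3 : Prop := ∀ {V : Type u} (G : SimpleGraph V) (ang : V → V → V → ℝ), Angled G ang →
  ∀ (S : Set V), (∀ a b, G.Adj a b → a ∈ S) → (∀ w, CW G w → ∃ A, Null G A w) →
  ∀ g : Equiv.Perm V, IsAut G ang g → (∀ v ∈ S, ¬ G.Adj v (g v)) →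
  ∀ w, CW (resG G {v | v ∈ S ∧ g v = v}) w → ∃ A, Null (resG G {v | v ∈ S ∧ g v = v}) A w

/-- H2N: from homotopies to null cyclic lists. -/
def T_H2N : Prop := ∀ {V : Type u} (G : SimpleGraph V), SimplyConn G →
  ∀ w, CW G w → ∃ A, Null G A w

/-- N2H: from null cyclic lists to homotopies. -/
def T_N2H : Prop := ∀ {V : Type u} (G : SimpleGraph V), G.Connected →
  (∀ w, CW G w → ∃ A, Null G A w) → SimplyConn G

/-- IND: from `resG G Y` to the induced subgraph. -/
def T_IND : Prop := ∀ {V : Type u} (G : SimpleGraph V) (Y : Set V), Y.Nonempty →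
  (∀ a ∈ Y, ∀ b ∈ Y, (resG G Y).Reachable a b) →
  (∀ w, CW (resG G Y) w → ∃ A, Null (resG G Y) A w) →
  (G.induce Y).Connected ∧ ∀ w, CW (G.induce Y) w → ∃ A, Null (G.induce Y) A w

/-- RES: full subcomplexes of angled complexes. -/
def T_RES : Prop := ∀ {V : Type u} (G : SimpleGraph V) (ang : V → V → V → ℝ) (S : Set V),
  Angled G ang → Angled (resG G S) ang

/-- MCI: full subcomplexes of metric complexes with large links. -/
def T_MCI : Prop := ∀ {V : Type u} (G : SimpleGraph V) (len : V → V → ℝ) (Y : Set V),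
  IsMetricComplex G len → (∀ v, IsLarge G len v) →
  IsMetricComplex (G.induce Y) (fun a b => len a b) ∧
    ∀ v, IsLarge (G.induce Y) (fun a b => len a b) v

end Pool.Agent.MSF
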