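import Pool.Agent.MSF.Targets

/-! ZIP: removing a spur. -/

namespace Pool.Agent.MSF

open List

universe u

namespace ZIP

variable {V : Type u} {G : SimpleGraph V}

theorem NullR.ne_nil {m : ℕ} {P : List V} (h : NullR G m P) : P ≠ [] := by
  rcases h with ⟨a, rfl⟩ | ⟨a, l, -, rfl, -⟩ <;> simp

theorem NullR.not_two {m : ℕ} {a b : V} (h : NullR G m [a, b]) : False := by
  rcases h with ⟨x, hx⟩ | ⟨x, l, hl, hx, -⟩
  · simp at hx
  · have := congrArg List.length hx
    simp at this
    exact hl this

/-- The main claim for a cyclic list starting with the spur. -/
theorem main (hP : T_PEEL.{u}) (a b : V) : ∀ (m n : ℕ) (l : List V), l.length = n → l ≠ [] →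
    Null G m (a :: b :: a :: l) → Null G m (a :: l) := by
  intro m
  induction m using Nat.strong_induction_on with
  | _ m ihm =>
    intro n
    induction n using Nat.strong_induction_on with
    | _ n ihn =>
      intro l hln hl h
      have ih : ∀ (m' : ℕ) (r : List V), m' ≤ m → r.length < n → r ≠ [] →
          Null G m' (a :: b :: a :: r) → Null G m' (a :: r) := by
        intro m' r hm' hr hr0 hN
        rcases Nat.lt_or_ge m' m with hlt | hge
        · exact ihm m' hlt _ r rfl hr0 hN
        · have he : m' = m := le_antisymm hm' hge
          subst he
          exact ihn _ hr r rfl hr0 hN
      cases l with
      | nil => exact absurd rfl hl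
      | cons c l' =>
        have hac : G.Adj a c := by
          have := h.cw
          simp only [CW, List.cons_append, List.isChain_cons_cons] at this
          exact this.2.2.1
        have hrot : (a :: b :: a :: c :: l') ~r (c :: ((l' ++ [a, b]) ++ [a])) := by
          have := List.isRotated_append (l := [a, b, a]) (l' := c :: l')
          simpa using this
        rcases hP G m _ h c a (l' ++ [a, b]) hrot with
          ⟨z, m', hm', -, haz, hzc, hN⟩ | ⟨P, Q, m₁, m₂, hPQ, h1, h2, hmm⟩
        · have h3 : Null G m' ([a, b, a] ++ (z :: c :: l')) := by
            apply Null.swap
            simpa using hN
          have h4 : Null G m' (a :: z :: c :: l') :=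
            ihm m' hm' _ (z :: c :: l') rfl (by simp) (by simpa using h3)
          exact (Null.tri hac haz hzc h4).mono hm'
        · have hPQ' : (c :: l') ++ [a, b, a] = P ++ Q := by
            rw [← hPQ]; simp
          -- the case `P = c :: l'`
          have hcase : P = c :: l' → Null G m (a :: c :: l') := by
            intro hPe
            rw [hPe] at h1
            exact (h1.attach hac).mono (by omega)
          rcases List.append_eq_append_iff.1 hPQ' with ⟨a', ha1, ha2⟩ | ⟨c', hc1, hc2⟩
          · -- `P = (c :: l') ++ a'`, `[a, b, a] = a' ++ Q`
            cases a' with
            | nil => exact hcase (by simpa using ha1)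
            | cons x a' =>
              simp only [List.cons_append, List.cons.injEq] at ha2
              obtain ⟨rfl, ha2⟩ := ha2
              cases a' with
              | nil =>
                simp only [List.nil_append] at ha2
                rw [← ha2] at h2
                exact (NullR.not_two h2).elim
              | cons y a' =>
                simp only [List.cons_append, List.cons.injEq] at ha2
                obtain ⟨rfl, ha2⟩ := ha2
                cases a' with
                | nil =>
                  -- `P = c :: l' ++ [a, b]`
                  rcases h1 with ⟨x, hx⟩ | ⟨x, L, hL, hx, hN⟩
                  · rw [ha1] at hx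
                    simp at hx
                  · rw [ha1] at hx
                    have hx' : c :: ((l' ++ [a]) ++ [b]) = x :: (L ++ [x]) := by
                      rw [← hx]; simp
                    simp only [List.cons.injEq] at hx'
                    obtain ⟨rfl, hx'⟩ := hx'
                    have h5 := List.append_inj' hx' (by simp)
                    obtain ⟨rfl, h6⟩ := h5
                    have h7 : Null G m₁ ((c :: l') ++ [a]) := by simpa using hN
                    have h8 : Null G m₁ (a :: c :: l') := by simpa using h7.swap
                    exact h8.mono (by omega)
                | cons w a' =>
                  simp only [List.cons_append, List.cons.injEq] at ha2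
                  obtain ⟨-, ha2⟩ := ha2
                  have hQ : Q = [] := by
                    have := (List.append_eq_nil_iff.1 ha2.symm).2
                    exact this
                  exact absurd hQ (NullR.ne_nil h2)
          · -- `c :: l' = P ++ c'`, `Q = c' ++ [a, b, a]`
            cases c' with
            | nil => exact hcase (by simpa using hc1.symm)
            | cons x r =>
              have hxa : x = a ∧ Null G m₂ (a :: (r ++ [a, b])) := by
                rcases h2 with ⟨y, hy⟩ | ⟨y, L, hL, hy, hN⟩
                · rw [hc2] at hy
                  simp at hy
                · rw [hc2] at hy
                  have hy' : x :: ((r ++ [a, b]) ++ [a]) = y :: (L ++ [y]) := by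
                    rw [← hy]; simp
                  simp only [List.cons.injEq] at hy'
                  obtain ⟨rfl, hy'⟩ := hy'
                  have h5 := List.append_inj' hy' (by simp)
                  obtain ⟨rfl, h6⟩ := h5
                  simp only [List.cons.injEq, and_true] at h6
                  subst h6
                  exact ⟨rfl, hN⟩
              obtain ⟨hx0, hN⟩ := hxa
              rw [hx0] at hc1
              have hr : r ≠ [] := by
                rintro rfl
                have h3 : CW G (([a, b, a] ++ P) ++ [a]) := by
                  have := h.cw
                  rw [hc1] at this
                  simpa using this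
                have h4 : CW G ([a] ++ ([a, b, a] ++ P)) := h3.rotated List.isRotated_append
                have h5 : CW G ([] ++ a :: a :: (b :: a :: P)) := by simpa using h4
                exact h5.not_adj_self
              have h3 : Null G m₂ (a :: b :: a :: r) := by
                have : Null G m₂ ((a :: r) ++ [a, b]) := by simpa using hN
                simpa using this.swap
              have hlen : r.length < n := by
                have := congrArg List.length hc1
                simp only [List.length_cons, List.length_append] at this hln
                omega
              have h4 : Null G m₂ (a :: r) := ih m₂ r (by omega) hlen hr h3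
              have hP0 : P ≠ [] := NullR.ne_nil h1
              have h5 : Null G m₁ (a :: P) := by
                cases P with
                | nil => exact absurd rfl hP0
                | cons p P' =>
                  simp only [List.cons_append, List.cons.injEq] at hc1
                  obtain ⟨rfl, -⟩ := hc1
                  exact h1.attach hac
              have h6 : Null G (m₁ + m₂) (a :: (P ++ a :: r)) := Null.split hP0 hr h5 h4
              rw [hc1]
              exact h6.mono hmm

end ZIP

theorem tZIP (hP : T_PEEL.{u}) : T_ZIP.{u} := by
  intro V G m a b X Y hne h
  have h1 : Null G m (a :: b :: a :: (Y ++ X)) := by simpa using h.swap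
  have h2 : Null G m (a :: (Y ++ X)) := ZIP.main hP a b m _ (Y ++ X) rfl hne h1
  have h3 : Null G m ((a :: Y) ++ X) := by simpa using h2
  exact h3.swap

end Pool.Agent.MSF
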